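import Pool.Agent.Lib.MP_4e5fcd_ag.CN.P2

/-!
# CN-V1: visible values and points of the cone

`cone_of_vis`: given the jet `γ` of `Vis` put `y.φ k f = (along f γ).coeff (n * k)`; for
`f ∈ I ^ k`, `X ^ (n * k) ∣ along f γ` (see `q1_dvd_pow`, `q1_coeff_mul` in `Q1.lean`, same proofs:
`exists_conePoint`). `φ 0 f = eval p f`: `LF.coeff_along_zero`. `contactArcs I p y d` is `CA I p _ d`
(`n * 1 = n`). `f ∈ I` vanishes at `p`: coefficient `0 < n` of `f (γ)`.
`vis_of_cone`: some `contactArcs I p y d` with `d ≥ 1` is not empty: otherwise `Λ d = 0` for all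
`d ≥ 1` (`cls_empty`), so `X * Z' = 0`, `Z = 1` (`constantCoeff Z = 1`, all other coefficients are
zero because `d * coeff d Z = 0`), and then `Q = P` (coe injective), `IsCoprime P P` means that `P`
is a unit, so it has no zero. A jet `γ ∈ contactArcs I p y d` satisfies
`(along f γ).coeff d = y.φ 1 f` for `f ∈ I`, so `CA I p (fun f => (along f γ).coeff d) m` and
`contactArcs I p y m` are the same sets.
-/

open MvPolynomial

namespace MotMono
namespace CN

private theorem V1_along_mul {N n : ℕ} (f g : MvPolynomial (Fin N) ℂ) (γ : Fin N × Fin n → ℂ) :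
    along (f * g) γ = along f γ * along g γ := map_mul _ _ _

private theorem V1_along_add {N n : ℕ} (f g : MvPolynomial (Fin N) ℂ) (γ : Fin N × Fin n → ℂ) :
    along (f + g) γ = along f γ + along g γ := map_add _ _ _

private theorem V1_dvd_pow {N m : ℕ} (I : Ideal (MvPolynomial (Fin N) ℂ))
    (γ : Fin N × Fin m → ℂ) (n : ℕ) (h : ∀ f ∈ I, ∀ l < n, (along f γ).coeff l = 0) (k : ℕ) :
    ∀ c ∈ I ^ k, Polynomial.X ^ (n * k) ∣ along c γ := by
  induction k with
  | zero => intro c _; simp
  | succ k ih =>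
    intro c hc
    rw [pow_succ] at hc
    refine Submodule.mul_induction_on hc (fun a ha b hb => ?_) (fun a b ha hb => ?_)
    · rw [V1_along_mul, Nat.mul_succ, pow_add]
      exact mul_dvd_mul (ih a ha) (Polynomial.X_pow_dvd_iff.2 (h b hb))
    · rw [V1_along_add]
      exact dvd_add ha hb

private theorem V1_coeff_mul {F G : Polynomial ℂ} {m m' : ℕ} (hF : Polynomial.X ^ m ∣ F)
    (hG : Polynomial.X ^ m' ∣ G) : (F * G).coeff (m + m') = F.coeff m * G.coeff m' := by
  obtain ⟨u, rfl⟩ := hF
  obtain ⟨v, rfl⟩ := hG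
  have e : Polynomial.X ^ m * u * (Polynomial.X ^ m' * v) =
      Polynomial.X ^ (m + m') * (u * v) := by
    rw [pow_add]; ring
  rw [e]
  have c1 := Polynomial.coeff_X_pow_mul (u * v) (m + m') 0
  have c2 := Polynomial.coeff_X_pow_mul u m 0
  have c3 := Polynomial.coeff_X_pow_mul v m' 0
  rw [zero_add] at c1 c2 c3
  rw [c1, c2, c3, Polynomial.mul_coeff_zero]

theorem cone_of_vis {N : ℕ} {χ : K0 →+* ℤ} {I : Ideal (MvPolynomial (Fin N) ℂ)}
    {p : Fin N → ℂ} {lam : ℂ} (hv : Vis χ I p lam) :
    (∀ f ∈ I, eval p f = 0) ∧ ∃ y : ConePoint I p, y.Nonzero ∧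
      ∃ Z, IsZeta (fun d => χ (cls (contactArcs I p y d))) Z ∧ ZeroOrPole Z lam := by
  obtain ⟨n, γ, hn, hbp, hord, ⟨f0, hf0, hne⟩, Z, hZ, hP⟩ := hv
  have h0 : ∀ f : MvPolynomial (Fin N) ℂ, (along f γ).coeff 0 = eval p f := by
    intro f
    rw [LF.coeff_along_zero, ← hbp]
    rfl
  refine ⟨fun f hf => ?_, ?_⟩
  · rw [← h0 f]
    exact hord f hf 0 (by omega)
  · let y : ConePoint I p :=
      { φ := fun k f => (along f γ).coeff (n * k)
        base := fun f => by
          show (along f γ).coeff (n * 0) = eval p f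
          rw [Nat.mul_zero, h0]
        add := fun k f _ g _ => by
          show (along (f + g) γ).coeff (n * k) = _
          rw [V1_along_add, Polynomial.coeff_add]
        mul := fun k l f hf g hg => by
          show (along (f * g) γ).coeff (n * (k + l)) = _
          rw [V1_along_mul, Nat.mul_add]
          exact V1_coeff_mul (V1_dvd_pow I γ n hord _ _ hf) (V1_dvd_pow I γ n hord _ _ hg) }
    have hy : ∀ f, y.φ 1 f = (along f γ).coeff n := by
      intro f
      show (along f γ).coeff (n * 1) = _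
      rw [Nat.mul_one]
    refine ⟨y, ⟨f0, hf0, ?_⟩, Z, ?_, hP⟩
    · rw [hy]
      exact hne
    · have e : ∀ d, contactArcs I p y d = CA I p (fun f => (along f γ).coeff n) d := by
        intro d
        ext δ
        unfold contactArcs CA
        simp only [Set.mem_ofPred_eq, hy]
      have e2 : (fun d => χ (cls (contactArcs I p y d)))
          = fun d => χ (cls (CA I p (fun f => (along f γ).coeff n) d)) := by
        funext d
        rw [e d]
      rw [e2]
      exact hZ

theorem vis_of_cone {N : ℕ} {χ : K0 →+* ℤ} {I : Ideal (MvPolynomial (Fin N) ℂ)}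
    {p : Fin N → ℂ} {lam : ℂ} (y : ConePoint I p) (hy : y.Nonzero) (Z : PowerSeries ℂ)
    (hZ : IsZeta (fun d => χ (cls (contactArcs I p y d))) Z) (hP : ZeroOrPole Z lam) :
    Vis χ I p lam := by
  have hex : ∃ d, 1 ≤ d ∧ (contactArcs I p y d).Nonempty := by
    by_contra hcon
    push Not at hcon
    have hL : (PowerSeries.mk fun d => if d = 0 then (0 : ℂ)
        else ((χ (cls (contactArcs I p y d)) : ℤ) : ℂ)) = 0 := by
      ext d
      rw [PowerSeries.coeff_mk]
      by_cases hd : d = 0
      · rw [if_pos hd]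
        simp
      · rw [if_neg hd, hcon d (by omega), cls_empty, map_zero]
        simp
    have h1 := hZ.2
    rw [hL, neg_zero, zero_mul] at h1
    have h2 : Z = 1 := by
      ext d
      rcases d with _ | d
      · have := hZ.1
        rw [PowerSeries.coeff_zero_eq_constantCoeff, this]
        simp
      · have h3 : PowerSeries.coeff (d + 1) (PowerSeries.X * PowerSeries.derivative ℂ Z)
            = (0 : ℂ) := by
          rw [h1]
          simp
        rw [PowerSeries.coeff_succ_X_mul] at h3
        have h4 : PowerSeries.coeff d (PowerSeries.derivative ℂ Z)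
            = PowerSeries.coeff (d + 1) Z * (d + 1) := PowerSeries.coeff_derivative Z d
        rw [h4] at h3
        have h5 : ((d : ℂ) + 1) ≠ 0 := by
          exact_mod_cast Nat.succ_ne_zero d
        rw [(mul_eq_zero.1 h3).resolve_right h5]
        rw [PowerSeries.coeff_one, if_neg (Nat.succ_ne_zero d)]
    obtain ⟨P, Q, hPQ, hQP, hroot⟩ := hP
    rw [h2, mul_one] at hQP
    have h6 : Q = P := Polynomial.coe_injective ℂ hQP
    rw [h6] at hPQ hroot
    have h7 : IsUnit P := isCoprime_self.1 hPQ
    have h8 : P.eval lam ≠ 0 := by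
      have := h7.map (Polynomial.evalRingHom lam)
      exact this.ne_zero
    rcases hroot with h | h
    · exact h8 h
    · exact h8 h
  obtain ⟨d, hd, γ, hγ⟩ := hex
  obtain ⟨f0, hf0, hne⟩ := hy
  have hc : ∀ f ∈ I, (along f γ).coeff d = y.φ 1 f := fun f hf => (hγ.2 f hf).2
  refine ⟨d, γ, hd, funext hγ.1, fun f hf => (hγ.2 f hf).1, ⟨f0, hf0, ?_⟩, Z, ?_, hP⟩
  · rw [hc f0 hf0]
    exact hne
  · have e : ∀ m, CA I p (fun f => (along f γ).coeff d) m = contactArcs I p y m := by
      intro m
      ext δ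
      constructor
      · rintro ⟨h1, h2⟩
        exact ⟨h1, fun f hf => ⟨(h2 f hf).1, ((h2 f hf).2).trans (hc f hf)⟩⟩
      · rintro ⟨h1, h2⟩
        exact ⟨h1, fun f hf => ⟨(h2 f hf).1, ((h2 f hf).2).trans (hc f hf).symm⟩⟩
    have e2 : (fun m => χ (cls (CA I p (fun f => (along f γ).coeff d) m)))
        = fun m => χ (cls (contactArcs I p y m)) := by
      funext m
      rw [e m]
    rw [e2]
    exact hZ

end CN
end MotMono
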