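import Pool.Agent.Lib.MP_4e5fcd_ag.CN.Base

/-!
# CN-P2: generators suffice

`along` is additive and multiplicative in `f`. `coeff_mul_lt`/`coeff_mul_eq`:
`along (a * f) γ = along a γ * along f γ`, `X ^ n ∣ along f γ` (`Polynomial.X_pow_dvd_iff`), and
`(along a γ).coeff 0 = eval (bp γ) a` (`LF.coeff_along_zero` in `LF/J2.lean`).
The others: `Submodule.span_induction` on `f ∈ Ideal.span F` (see `along_J_lt` in `LF/J2.lean`).
For `ordGe_span` use `X ^ k ∣ along f γ`. In `mem_CA_span` the property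
`X ^ m ∣ along f γ ∧ (along f γ).coeff m = (along f γ₀).coeff n` is stable under sums and under
multiplication by `a`, because `eval (bp γ) a = eval (bp γ₀) a` (for `m = 0` too).
-/

open MvPolynomial

namespace MotMono
namespace CN

theorem coeff_mul_lt {N n : ℕ} (a f : MvPolynomial (Fin N) ℂ) (γ : Fin N × Fin (n + 1) → ℂ)
    (m : ℕ) (h : ∀ l < m, (along f γ).coeff l = 0) : ∀ l < m, (along (a * f) γ).coeff l = 0 := by
  rw [← Polynomial.X_pow_dvd_iff] at h ⊢
  have h1 : along (a * f) γ = along a γ * along f γ := by simp [along]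
  rw [h1]
  exact h.mul_left _

theorem coeff_mul_eq {N n : ℕ} (a f : MvPolynomial (Fin N) ℂ) (γ : Fin N × Fin (n + 1) → ℂ)
    (m : ℕ) (h : ∀ l < m, (along f γ).coeff l = 0) :
    (along (a * f) γ).coeff m = eval (bp γ) a * (along f γ).coeff m := by
  rw [← Polynomial.X_pow_dvd_iff] at h
  obtain ⟨Q, hQ⟩ := h
  have h1 : along (a * f) γ = Polynomial.X ^ m * (along a γ * Q) := by
    have h2 : along (a * f) γ = along a γ * along f γ := by simp [along]
    rw [h2, hQ]
    ring
  rw [h1, hQ, Polynomial.coeff_X_pow_mul', Polynomial.coeff_X_pow_mul', if_pos le_rfl,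
    if_pos le_rfl, Nat.sub_self, Polynomial.mul_coeff_zero, LF.coeff_along_zero]
  rfl

theorem ordGe_span {N n : ℕ} (F : Set (MvPolynomial (Fin N) ℂ)) (k : ℕ)
    (γ : Fin N × Fin n → ℂ) :
    OrdGe (Ideal.span F) k γ ↔ ∀ f ∈ F, ∀ l < k, (along f γ).coeff l = 0 := by
  constructor
  · intro h f hf
    exact h f (Ideal.subset_span hf)
  · intro h f hf
    rw [← Polynomial.X_pow_dvd_iff]
    induction hf using Submodule.span_induction with
    | mem x hx => exact Polynomial.X_pow_dvd_iff.2 (h x hx)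
    | zero => simp [along]
    | add x y _ _ hx hy =>
      have : along (x + y) γ = along x γ + along y γ := by simp [along]
      rw [this]
      exact dvd_add hx hy
    | smul a x _ hx =>
      have : along (a • x) γ = along a γ * along x γ := by simp [along]
      rw [this]
      exact hx.mul_left _

theorem exOrd_span {N k : ℕ} (F : Set (MvPolynomial (Fin N) ℂ))
    (γ : Fin N × Fin (k + 1) → ℂ) :
    γ ∈ ExOrd (Ideal.span F) k ↔
      (∀ f ∈ F, ∀ l < k, (along f γ).coeff l = 0) ∧ ∃ f ∈ F, (along f γ).coeff k ≠ 0 := by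
  have e : γ ∈ ExOrd (Ideal.span F) k ↔ OrdGe (Ideal.span F) k γ ∧
      ∃ f ∈ Ideal.span F, (along f γ).coeff k ≠ 0 := Iff.rfl
  rw [e, ordGe_span]
  refine and_congr_right fun h => ?_
  constructor
  · rintro ⟨f, hf, h1⟩
    by_contra hc
    push Not at hc
    apply h1
    have h2 : ∀ f ∈ F, ∀ l < k + 1, (along f γ).coeff l = 0 := by
      intro g hg l hl
      rcases Nat.lt_succ_iff_lt_or_eq.1 hl with h3 | h3
      · exact h g hg l h3
      · rw [h3]; exact hc g hg
    exact (ordGe_span F (k + 1) γ).2 h2 f hf k (Nat.lt_succ_self k)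
  · rintro ⟨f, hf, h1⟩
    exact ⟨f, Ideal.subset_span hf, h1⟩

theorem mem_CA_span {N n m : ℕ} (F : Set (MvPolynomial (Fin N) ℂ))
    (γ₀ : Fin N × Fin (n + 1) → ℂ) (h : OrdGe (Ideal.span F) n γ₀)
    (γ : Fin N × Fin (m + 1) → ℂ) :
    γ ∈ CA (Ideal.span F) (bp γ₀) (fun f => (along f γ₀).coeff n) m ↔
      bp γ = bp γ₀ ∧ ∀ f ∈ F, (∀ l < m, (along f γ).coeff l = 0) ∧
        (along f γ).coeff m = (along f γ₀).coeff n := by
  constructor
  · rintro ⟨h1, h2⟩
    exact ⟨funext h1, fun f hf => h2 f (Ideal.subset_span hf)⟩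
  · rintro ⟨h1, h2⟩
    refine ⟨fun i => congrFun h1 i, fun f hf => ?_⟩
    induction hf using Submodule.span_induction with
    | mem x hx => exact h2 x hx
    | zero => simp [along]
    | add x y _ _ hx hy =>
      have e1 : along (x + y) γ = along x γ + along y γ := by simp [along]
      have e2 : along (x + y) γ₀ = along x γ₀ + along y γ₀ := by simp [along]
      refine ⟨fun l hl => ?_, ?_⟩
      · rw [e1, Polynomial.coeff_add, hx.1 l hl, hy.1 l hl, add_zero]
      · show (along (x + y) γ).coeff m = (along (x + y) γ₀).coeff n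
        rw [e1, e2, Polynomial.coeff_add, Polynomial.coeff_add, hx.2, hy.2]
    | smul a x hx' hx =>
      refine ⟨coeff_mul_lt a x γ m hx.1, ?_⟩
      show (along (a * x) γ).coeff m = (along (a * x) γ₀).coeff n
      rw [coeff_mul_eq a x γ m hx.1, hx.2,
        coeff_mul_eq a x γ₀ n (fun l hl => h x hx' l hl), h1]

end CN
end MotMono
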