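import Pool.Agent.Lib.MP_4e5fcd_ag.CN.Base

/-!
# CN-P1: polynomials and constructible sets

`exists_alongPoly`: induction on `f` (`MvPolynomial.induction_on`); `along` is a ring homomorphism
in `f`, the coefficients of a product are `Polynomial.coeff_mul`, those of `arc γ i` are
`a1_arc_coeff`.
`constr_zeroLocus`: `MvPolynomial σ ℂ` is Noetherian, so `Ideal.span S = Ideal.span S'` for a finite
subset `S'` of `S`; a point is a zero of `S` iff it is a zero of the ideal iff it is a zero of `S'`.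
Everything else: the sets are of the form `{x | ∀ f ∈ S, eval x f = 0}`, or complements,
intersections and preimages (`Constr.preimage`, `Constr.comp`) of such sets.
-/

open MvPolynomial

namespace MotMono
namespace CN

theorem exists_alongPoly {N n : ℕ} (f : MvPolynomial (Fin N) ℂ) (l : ℕ) :
    ∃ P : MvPolynomial (Fin N × Fin n) ℂ, ∀ γ : Fin N × Fin n → ℂ,
      eval γ P = (along f γ).coeff l := by
  induction f using MvPolynomial.induction_on generalizing l with
  | C a =>
    refine ⟨C (if l = 0 then a else 0), fun γ => ?_⟩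
    rw [eval_C, along, aeval_C, Polynomial.algebraMap_eq, Polynomial.coeff_C]
  | add p q hp hq =>
    obtain ⟨P, hP⟩ := hp l
    obtain ⟨Q, hQ⟩ := hq l
    refine ⟨P + Q, fun γ => ?_⟩
    have h : along (p + q) γ = along p γ + along q γ := by simp [along]
    rw [map_add, hP, hQ, h, Polynomial.coeff_add]
  | mul_X p i hp =>
    choose P hP using hp
    refine ⟨∑ x ∈ Finset.HasAntidiagonal.antidiagonal l,
      P x.1 * (if h : x.2 < n then X (i, ⟨x.2, h⟩) else 0), fun γ => ?_⟩
    have h : along (p * X i) γ = along p γ * arc γ i := by simp [along]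
    rw [h, Polynomial.coeff_mul, map_sum]
    refine Finset.sum_congr rfl fun x _ => ?_
    rw [map_mul, hP, a1_arc_coeff]
    congr 1
    split_ifs with h1
    · rw [eval_X]
    · rw [map_zero]

theorem constr_zeroLocus {σ : Type} [Finite σ] (S : Set (MvPolynomial σ ℂ)) :
    Constr {x | ∀ f ∈ S, eval x f = 0} := by
  classical
  obtain ⟨S', hS', hspan⟩ := (Submodule.fg_span_iff_fg_span_finset_subset S).1
    (IsNoetherian.noetherian (Submodule.span (MvPolynomial σ ℂ) S))
  have e : {x : σ → ℂ | ∀ f ∈ S, eval x f = 0} = ⋂ f ∈ S', {x | eval x f = 0} := by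
    ext x
    simp only [Set.mem_ofPred_eq, Set.mem_iInter]
    constructor
    · intro h f hf
      exact h f (hS' hf)
    · intro h f hf
      have h1 : f ∈ Submodule.span (MvPolynomial σ ℂ) (S' : Set (MvPolynomial σ ℂ)) := by
        rw [← hspan]
        exact Submodule.subset_span hf
      clear hf
      induction h1 using Submodule.span_induction with
      | mem y hy => exact h y hy
      | zero => exact map_zero _
      | add y z _ _ hy hz => rw [map_add, hy, hz, add_zero]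
      | smul a y _ hy => rw [smul_eq_mul, map_mul, hy, mul_zero]
  rw [e]
  exact constr_biInter_finset S' fun f _ => Constr.zeroSet f

theorem constr_ordGe {N n : ℕ} (I : Ideal (MvPolynomial (Fin N) ℂ)) (k : ℕ) :
    Constr {γ : Fin N × Fin n → ℂ | OrdGe I k γ} := by
  classical
  choose P hP using fun (f : MvPolynomial (Fin N) ℂ) (l : ℕ) => exists_alongPoly (n := n) f l
  have h := constr_zeroLocus {Q | ∃ f ∈ I, ∃ l < k, Q = P f l}
  have e : {x : Fin N × Fin n → ℂ | ∀ f ∈ {Q | ∃ f ∈ I, ∃ l < k, Q = P f l}, eval x f = 0} =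
      {γ : Fin N × Fin n → ℂ | OrdGe I k γ} := by
    ext γ
    simp only [Set.mem_ofPred_eq, OrdGe]
    constructor
    · intro h f hf l hl
      rw [← hP]
      exact h _ ⟨f, hf, l, hl, rfl⟩
    · rintro h _ ⟨f, hf, l, hl, rfl⟩
      rw [hP]
      exact h f hf l hl
  rwa [e] at h

theorem constr_exOrd {N : ℕ} (I : Ideal (MvPolynomial (Fin N) ℂ)) (k : ℕ) :
    Constr (ExOrd I k) := by
  classical
  choose P hP using fun (f : MvPolynomial (Fin N) ℂ) (l : ℕ) => exists_alongPoly (n := k + 1) f l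
  have h := (constr_zeroLocus {Q | ∃ f ∈ I, Q = P f k}).compl
  have h2 := (constr_ordGe (n := k + 1) I k).inter h
  have e : {γ : Fin N × Fin (k + 1) → ℂ | OrdGe I k γ} ∩
      {x : Fin N × Fin (k + 1) → ℂ | ∀ f ∈ {Q | ∃ f ∈ I, Q = P f k}, eval x f = 0}ᶜ =
      ExOrd I k := by
    ext γ
    simp only [Set.mem_inter_iff, Set.mem_ofPred_eq, Set.mem_compl_iff, ExOrd]
    refine and_congr_right fun _ => ?_
    constructor
    · intro h
      push Not at h
      obtain ⟨_, ⟨f, hf, rfl⟩, h1⟩ := h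
      refine ⟨f, hf, ?_⟩
      rwa [hP] at h1
    · rintro ⟨f, hf, h1⟩ h
      apply h1
      rw [← hP]
      exact h _ ⟨f, hf, rfl⟩
  rwa [e] at h2

theorem constr_CA {N : ℕ} (I : Ideal (MvPolynomial (Fin N) ℂ)) (p : Fin N → ℂ)
    (η : MvPolynomial (Fin N) ℂ → ℂ) (m : ℕ) : Constr (CA I p η m) := by
  classical
  choose P hP using fun (f : MvPolynomial (Fin N) ℂ) (l : ℕ) => exists_alongPoly (n := m + 1) f l
  have h1 := constr_zeroLocus {Q : MvPolynomial (Fin N × Fin (m + 1)) ℂ |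
    ∃ i, Q = X (i, 0) - C (p i)}
  have h2 := constr_zeroLocus {Q | ∃ f ∈ I, Q = P f m - C (η f)}
  have h3 := (h1.inter (constr_ordGe (n := m + 1) I m)).inter h2
  have e : ({x : Fin N × Fin (m + 1) → ℂ | ∀ f ∈ {Q : MvPolynomial (Fin N × Fin (m + 1)) ℂ |
      ∃ i, Q = X (i, 0) - C (p i)}, eval x f = 0} ∩
      {γ : Fin N × Fin (m + 1) → ℂ | OrdGe I m γ}) ∩
      {x : Fin N × Fin (m + 1) → ℂ | ∀ f ∈ {Q | ∃ f ∈ I, Q = P f m - C (η f)}, eval x f = 0} =
      CA I p η m := by
    ext γ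
    simp only [Set.mem_inter_iff, Set.mem_ofPred_eq, CA, OrdGe]
    constructor
    · rintro ⟨⟨ha, hb⟩, hc⟩
      refine ⟨fun i => ?_, fun f hf => ⟨hb f hf, ?_⟩⟩
      · have := ha _ ⟨i, rfl⟩
        rw [map_sub, eval_X, eval_C, sub_eq_zero] at this
        exact this
      · have := hc _ ⟨f, hf, rfl⟩
        rw [map_sub, eval_C, hP, sub_eq_zero] at this
        exact this
    · rintro ⟨ha, hb⟩
      refine ⟨⟨?_, fun f hf => (hb f hf).1⟩, ?_⟩
      · rintro _ ⟨i, rfl⟩
        rw [map_sub, eval_X, eval_C, sub_eq_zero]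
        exact ha i
      · rintro _ ⟨f, hf, rfl⟩
        rw [map_sub, eval_C, hP, sub_eq_zero]
        exact (hb f hf).2
  rwa [e] at h3

theorem constr_fam {N : ℕ} {σ : Type} (I : Ideal (MvPolynomial (Fin N) ℂ))
    {Γ : Set (σ ⊕ Fin N → ℂ)} (hΓ : Constr Γ) (k : ℕ) : Constr (fam I Γ k) := by
  have h1 := hΓ.comp (σ := σ ⊕ (Fin N × Fin (k + 1)))
    (Sum.elim Sum.inl fun i => Sum.inr (i, 0))
  have h2 := (constr_exOrd I k).comp (σ := σ ⊕ (Fin N × Fin (k + 1))) Sum.inr
  have e : {x : σ ⊕ (Fin N × Fin (k + 1)) → ℂ |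
      (fun j => x (Sum.elim Sum.inl (fun i => Sum.inr (i, 0)) j)) ∈ Γ} ∩
      {x | (fun j => x (Sum.inr j)) ∈ ExOrd I k} = fam I Γ k := by
    ext z
    simp only [Set.mem_inter_iff, Set.mem_ofPred_eq, fam]
    have : (fun j => z (Sum.elim Sum.inl (fun i => Sum.inr (i, 0)) j)) =
        Sum.elim (fun s => z (Sum.inl s)) (fun i => z (Sum.inr (i, 0))) := by
      funext j
      rcases j with s | i <;> rfl
    rw [this]
  have h3 := h1.inter h2
  rwa [e] at h3

theorem constr_fib {N : ℕ} (F : Set (MvPolynomial (Fin N) ℂ)) (e : ℕ)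
    (y : MvPolynomial (Fin N) ℂ → ℂ) : Constr (fib F e y) := by
  have h1 := constr_zeroLocus {Q | ∃ f ∈ F, f.totalDegree < e ∧ Q = f}
  have h2 := constr_zeroLocus {Q | ∃ f ∈ F, f.totalDegree = e ∧ Q = f - C (y f)}
  have h3 := h1.inter h2
  have e' : {x | ∀ f ∈ {Q | ∃ f ∈ F, f.totalDegree < e ∧ Q = f}, eval x f = 0} ∩
      {x | ∀ f ∈ {Q | ∃ f ∈ F, f.totalDegree = e ∧ Q = f - C (y f)}, eval x f = 0} =
      fib F e y := by
    ext x
    simp only [Set.mem_inter_iff, Set.mem_ofPred_eq, fib]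
    constructor
    · rintro ⟨ha, hb⟩ f hf
      refine ⟨fun h => ha f ⟨f, hf, h, rfl⟩, fun h => ?_⟩
      have := hb _ ⟨f, hf, h, rfl⟩
      rw [map_sub, eval_C, sub_eq_zero] at this
      exact this
    · intro h
      refine ⟨?_, ?_⟩
      · rintro g ⟨f, hf, h1, hg⟩
        rw [hg]
        exact (h f hf).1 h1
      · rintro _ ⟨f, hf, h1, rfl⟩
        rw [map_sub, eval_C, sub_eq_zero]
        exact (h f hf).2 h1
  rwa [e'] at h3

theorem constr_push {N k : ℕ} {σ : Type} (v : Fin k → MvPolynomial (Fin N) ℂ)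
    {Γ : Set (σ ⊕ Fin N → ℂ)} (hΓ : Constr Γ) : Constr (push v Γ) := by
  have h1 := hΓ.comp (σ := (σ ⊕ Fin N) ⊕ Fin k) Sum.inl
  have h2 : Constr (⋂ i : Fin k, {z : (σ ⊕ Fin N) ⊕ Fin k → ℂ | eval z (X (Sum.inr i)) =
      eval z (aeval (fun j => X (Sum.inl (Sum.inr j))) (v i) :
        MvPolynomial ((σ ⊕ Fin N) ⊕ Fin k) ℂ)}) :=
    constr_iInter fun i => constr_eq _ _
  have h3 := h1.inter h2
  have e : {x : (σ ⊕ Fin N) ⊕ Fin k → ℂ | (fun j => x (Sum.inl j)) ∈ Γ} ∩
      (⋂ i : Fin k, {z : (σ ⊕ Fin N) ⊕ Fin k → ℂ | eval z (X (Sum.inr i)) =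
      eval z (aeval (fun j => X (Sum.inl (Sum.inr j))) (v i) :
        MvPolynomial ((σ ⊕ Fin N) ⊕ Fin k) ℂ)}) = push v Γ := by
    ext z
    simp only [Set.mem_inter_iff, Set.mem_ofPred_eq, Set.mem_iInter, push, eval_X]
    refine and_congr_right fun _ => forall_congr' fun i => ?_
    have : eval z (aeval (fun j => X (Sum.inl (Sum.inr j))) (v i) :
        MvPolynomial ((σ ⊕ Fin N) ⊕ Fin k) ℂ) =
        eval (fun j => z (Sum.inl (Sum.inr j))) (v i) := by
      generalize v i = f
      induction f using MvPolynomial.induction_on with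
      | C a => simp
      | add p q hp hq => rw [map_add, map_add, map_add, hp, hq]
      | mul_X p i hp => rw [map_mul, map_mul, map_mul, hp, aeval_X, eval_X, eval_X]
    rw [this]
  rwa [e] at h3

end CN
end MotMono
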