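import Pool.Agent.Lib.MP_4e5fcd_ag.CN.Base

/-!
# CN-V3: the inverse function theorem for polynomial maps
-/

open MvPolynomial

namespace MotMono
namespace CN

/-- the differential of a polynomial -/
private noncomputable def v3D {n : ℕ} (q : MvPolynomial (Fin n) ℂ) (p : Fin n → ℂ) :
    (Fin n → ℂ) →L[ℂ] ℂ :=
  ∑ j, MvPolynomial.eval p (MvPolynomial.pderiv j q) •
    (ContinuousLinearMap.proj j : (Fin n → ℂ) →L[ℂ] ℂ)

private theorem v3D_apply {n : ℕ} (q : MvPolynomial (Fin n) ℂ) (p v : Fin n → ℂ) :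
    v3D q p v = ∑ j, MvPolynomial.eval p (MvPolynomial.pderiv j q) * v j := by
  simp [v3D]

private theorem v3_deriv {n : ℕ} (q : MvPolynomial (Fin n) ℂ) (p : Fin n → ℂ) :
    HasStrictFDerivAt (fun z : Fin n → ℂ => MvPolynomial.eval z q) (v3D q p) p := by
  induction q using MvPolynomial.induction_on with
  | C a =>
    have h : v3D (MvPolynomial.C a) p = 0 := by
      ext v
      rw [v3D_apply]
      simp
    rw [h]
    simp only [MvPolynomial.eval_C]
    exact hasStrictFDerivAt_const _ _
  | add q₁ q₂ h₁ h₂ =>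
    have h : v3D (q₁ + q₂) p = v3D q₁ p + v3D q₂ p := by
      ext v
      rw [add_apply, v3D_apply, v3D_apply, v3D_apply, ← Finset.sum_add_distrib]
      refine Finset.sum_congr rfl fun j _ => ?_
      rw [map_add, map_add, add_mul]
    rw [h]
    have h2 : (fun z : Fin n → ℂ => MvPolynomial.eval z (q₁ + q₂)) =
        (fun z => MvPolynomial.eval z q₁) + fun z => MvPolynomial.eval z q₂ := by
      ext z
      rw [map_add]
      rfl
    rw [h2]
    exact h₁.add h₂
  | mul_X q i h =>
    have hX : HasStrictFDerivAt (fun z : Fin n → ℂ => z i)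
        (ContinuousLinearMap.proj i : (Fin n → ℂ) →L[ℂ] ℂ) p :=
      (ContinuousLinearMap.proj i : (Fin n → ℂ) →L[ℂ] ℂ).hasStrictFDerivAt
    have h1 := h.mul hX
    have h2 : (fun z : Fin n → ℂ => MvPolynomial.eval z (q * MvPolynomial.X i)) =
        (fun z => MvPolynomial.eval z q) * fun z => z i := by
      ext z
      rw [map_mul, MvPolynomial.eval_X]
      rfl
    rw [h2]
    refine h1.congr_fderiv ?_
    ext v
    rw [v3D_apply, add_apply, smul_apply,
      smul_apply, v3D_apply, ContinuousLinearMap.proj_apply]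
    have h3 : ∀ j, MvPolynomial.eval p (MvPolynomial.pderiv j (q * MvPolynomial.X i)) * v j =
        MvPolynomial.eval p q * (if i = j then v j else 0) +
          p i * (MvPolynomial.eval p (MvPolynomial.pderiv j q) * v j) := by
      intro j
      rw [Derivation.leibniz, MvPolynomial.pderiv_X, smul_eq_mul, smul_eq_mul, map_add, map_mul,
        map_mul, MvPolynomial.eval_X, Pi.single_apply]
      by_cases hij : i = j
      · subst hij
        simp
        ring
      · rw [if_neg hij, if_neg hij]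
        simp
        ring
    rw [Finset.sum_congr rfl fun j _ => h3 j, Finset.sum_add_distrib, ← Finset.mul_sum,
      ← Finset.mul_sum, Finset.sum_ite_eq, if_pos (Finset.mem_univ i), smul_eq_mul, smul_eq_mul]

theorem exists_near_preimage {N : ℕ} (u : Fin N → MvPolynomial (Fin N) ℂ) (p : Fin N → ℂ)
    (hj : eval p (jacDet u) ≠ 0) (ε : ℝ) (hε : 0 < ε) :
    ∃ δ : ℝ, 0 < δ ∧ ∀ q : Fin N → ℂ, ‖q - fun i => eval p (u i)‖ < δ →
      ∃ p' : Fin N → ℂ, ‖p' - p‖ < ε ∧ ∀ i, eval p' (u i) = q i := by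
  set U : (Fin N → ℂ) → (Fin N → ℂ) := fun z i => eval z (u i) with hU
  set D : (Fin N → ℂ) →L[ℂ] (Fin N → ℂ) := ContinuousLinearMap.pi fun i => v3D (u i) p with hD
  have hd : HasStrictFDerivAt U D p := by
    rw [hasStrictFDerivAt_pi']
    intro i
    exact v3_deriv (u i) p
  set M : Matrix (Fin N) (Fin N) ℂ := Matrix.of fun i j => eval p (pderiv j (u i)) with hM
  have hdet : M.det ≠ 0 := by
    have : eval p (jacDet u) = M.det := by
      unfold jacDet
      rw [RingHom.map_det]
      rfl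
    rwa [← this]
  have hDM : ∀ v, D v = M.mulVec v := by
    intro v
    ext i
    rw [hD, ContinuousLinearMap.pi_apply, v3D_apply, Matrix.mulVec, dotProduct]
    rfl
  have hsurj : D.range = ⊤ := by
    rw [LinearMap.range_eq_top]
    intro w
    refine ⟨M⁻¹.mulVec w, ?_⟩
    show D (M⁻¹.mulVec w) = w
    rw [hDM, Matrix.mulVec_mulVec, Matrix.mul_nonsing_inv _ (isUnit_iff_ne_zero.2 hdet),
      Matrix.one_mulVec]
  have hmap := hd.map_nhds_eq_of_surj hsurj
  have hb : U '' Metric.ball p ε ∈ nhds (U p) := by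
    rw [← hmap]
    exact Filter.image_mem_map (Metric.ball_mem_nhds p hε)
  obtain ⟨δ, hδ, hsub⟩ := Metric.mem_nhds_iff.1 hb
  refine ⟨δ, hδ, fun q hq => ?_⟩
  obtain ⟨p', hp', hq'⟩ := hsub (show q ∈ Metric.ball (U p) δ by
    rw [Metric.mem_ball, dist_eq_norm]; exact hq)
  refine ⟨p', ?_, fun i => ?_⟩
  · rwa [Metric.mem_ball, dist_eq_norm] at hp'
  · rw [← hq']

end CN
end MotMono
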