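import Pool.Agent.Lib.MP_4e5fcd_ag.CN.V2
import Pool.Agent.Lib.MP_4e5fcd_ag.CN.V3

/-!
# CN-V4: values visible near a point
-/

open MvPolynomial

namespace MotMono
namespace CN

theorem near_of_locPull {N k : ℕ} {χ : K0 →+* ℤ} (hχ : IsEulerCharF χ)
    (I : Ideal (MvPolynomial (Fin N) ℂ)) (p : Fin N → ℂ) (G : Ideal (MvPolynomial (Fin k) ℂ))
    (h : LocPull I p G) (lam : ℂ) (hn : Near χ G 0 lam) : Near χ I p lam := by
  obtain ⟨u, e, g, hinj, hg, hjac, h0, hpush, hpull⟩ := h
  intro ε hε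
  have c : Chart I G u e g := ⟨hinj, hpush, hpull⟩
  -- neighbourhood where `g` and the Jacobian do not vanish
  have hcont : Continuous fun z : Fin N → ℂ => (eval z g, eval z (jacDet u)) := by
    exact (MvPolynomial.continuous_eval g).prodMk (MvPolynomial.continuous_eval (jacDet u))
  have hopen : IsOpen {z : Fin N → ℂ | eval z g ≠ 0 ∧ eval z (jacDet u) ≠ 0} :=
    (isOpen_ne_fun (MvPolynomial.continuous_eval g) continuous_const).inter
      (isOpen_ne_fun (MvPolynomial.continuous_eval (jacDet u)) continuous_const)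
  obtain ⟨r, hr, hball⟩ := Metric.isOpen_iff.1 hopen p ⟨hg, hjac⟩
  obtain ⟨δ, hδ, hδ'⟩ := exists_near_preimage u p hjac (min ε r) (lt_min hε hr)
  obtain ⟨q', hq', hvis⟩ := hn δ hδ
  have hq : ‖Function.extend e q' (fun j => eval p (u j)) - fun i => eval p (u i)‖ < δ := by
    rw [pi_norm_lt_iff hδ]
    intro j
    by_cases hj : ∃ i, e i = j
    · obtain ⟨i, rfl⟩ := hj
      rw [Pi.sub_apply, hinj.extend_apply, h0 i, sub_zero]
      rw [sub_zero] at hq'
      exact lt_of_le_of_lt (norm_le_pi_norm q' i) hq'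
    · rw [Pi.sub_apply, Function.extend_apply' _ _ _ hj, sub_self, norm_zero]
      exact hδ
  obtain ⟨p', hp', hpq⟩ := hδ' _ hq
  have hp'r := hball (show p' ∈ Metric.ball p r by
    rw [Metric.mem_ball, dist_eq_norm]; exact lt_of_lt_of_le hp' (min_le_right _ _))
  refine ⟨p', lt_of_lt_of_le hp' (min_le_left _ _), ?_⟩
  refine vis_chart hχ c p' hp'r.1 hp'r.2 lam ?_
  have : (fun i => eval p' (u (e i))) = q' := by
    funext i
    rw [hpq (e i), hinj.extend_apply]
  rw [this]
  exact hvis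

private theorem v4_comp {N : ℕ} (c : Fin N → ℂ) (f : MvPolynomial (Fin N) ℂ) :
    aeval (fun i => (X i - C (c i) : MvPolynomial (Fin N) ℂ))
      (aeval (fun i => (X i + C (c i) : MvPolynomial (Fin N) ℂ)) f) = f := by
  have h1 : ((aeval (fun i => (X i - C (c i) : MvPolynomial (Fin N) ℂ))).comp
      (aeval (fun i => (X i + C (c i) : MvPolynomial (Fin N) ℂ)))) =
      AlgHom.id ℂ (MvPolynomial (Fin N) ℂ) := by
    apply MvPolynomial.algHom_ext
    intro i
    simp
  have := congrArg (fun φ => φ f) h1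
  simpa using this

private theorem v4_jac {N : ℕ} (c : Fin N → ℂ) :
    jacDet (fun i => (X i - C (c i) : MvPolynomial (Fin N) ℂ)) = 1 := by
  unfold jacDet
  have : (Matrix.of fun i j => pderiv j (X i - C (c i) : MvPolynomial (Fin N) ℂ)) = 1 := by
    ext1 i j
    rw [Matrix.of_apply, map_sub, pderiv_X, pderiv_C, sub_zero, Matrix.one_apply,
      Pi.single_apply]
  rw [this, Matrix.det_one]

private theorem v4_push {N : ℕ} (I : Ideal (MvPolynomial (Fin N) ℂ)) (c : Fin N → ℂ)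
    (g : MvPolynomial (Fin N) ℂ) (hg : g ∈ germ I c) :
    aeval (fun i => (X i - C (c i) : MvPolynomial (Fin N) ℂ)) g ∈ I := by
  have hle : germ I c ≤ I.comap
      (aeval (fun i => (X i - C (c i) : MvPolynomial (Fin N) ℂ))) := by
    unfold germ
    rw [Ideal.span_le]
    rintro f' ⟨f, hf, rfl⟩
    rw [SetLike.mem_coe, Ideal.mem_comap, v4_comp]
    exact hf
  exact Ideal.mem_comap.1 (hle hg)

theorem locPull_germ {N : ℕ} (I : Ideal (MvPolynomial (Fin N) ℂ)) (c : Fin N → ℂ) :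
    LocPull I c (germ I c) := by
  refine ⟨fun i => X i - C (c i), id, 1, Function.injective_id, ?_, ?_, ?_, ?_, ?_⟩
  · rw [map_one]
    exact one_ne_zero
  · rw [v4_jac, map_one]
    exact one_ne_zero
  · intro i
    rw [map_sub, eval_X, eval_C, id, sub_self]
  · intro g hg
    rw [one_mul]
    simp only [id]
    exact v4_push I c g hg
  · intro f hf
    rw [one_mul]
    simp only [id]
    apply Ideal.subset_span
    exact ⟨aeval (fun i => (X i + C (c i) : MvPolynomial (Fin N) ℂ)) f,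
      Ideal.subset_span ⟨f, hf, rfl⟩, (v4_comp c f).symm⟩

private theorem v4_scale {N : ℕ} (a : ℂ) {f : MvPolynomial (Fin N) ℂ} {d : ℕ}
    (hf : f.IsHomogeneous d) :
    aeval (fun i => (C a * X i : MvPolynomial (Fin N) ℂ)) f = C (a ^ d) * f := by
  have h1 : ∀ v : Fin N → MvPolynomial (Fin N) ℂ, aeval v f =
      ∑ m ∈ f.support, C (coeff m f) * ∏ i, v i ^ m i := by
    intro v
    rw [aeval_def, eval₂_eq']
    rfl
  have h2 : f = ∑ m ∈ f.support, C (coeff m f) * ∏ i, (X i : MvPolynomial (Fin N) ℂ) ^ m i := by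
    rw [← h1 X, aeval_X_left_apply]
  rw [h1]
  conv_rhs => rw [h2]
  rw [Finset.mul_sum]
  refine Finset.sum_congr rfl fun m hm => ?_
  · have hd : ∑ i, m i = d := by
      have := hf (mem_support_iff.1 hm)
      rw [← this, Finsupp.weight_apply, Finsupp.sum_fintype _ _ (by simp)]
      simp
    have h3 : ∏ i, (C a * X i : MvPolynomial (Fin N) ℂ) ^ m i =
        C (a ^ d) * ∏ i, (X i : MvPolynomial (Fin N) ℂ) ^ m i := by
      simp only [mul_pow]
      rw [Finset.prod_mul_distrib, Finset.prod_pow_eq_pow_sum, hd, C_pow]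
    rw [h3]
    ring

theorem near_scale {N : ℕ} {χ : K0 →+* ℤ} (hχ : IsEulerCharF χ)
    (F : Set (MvPolynomial (Fin N) ℂ)) (hF : ∀ f ∈ F, ∃ d, f.IsHomogeneous d) (c : Fin N → ℂ)
    (lam : ℂ) (hn : Near χ (Ideal.span F) c lam) : Near χ (Ideal.span F) 0 lam := by
  intro ε hε
  obtain ⟨p', hp', hvis⟩ := hn 1 one_pos
  have hc0 : 0 ≤ ‖c‖ := norm_nonneg c
  set s : ℝ := ε / (2 * (‖c‖ + 2)) with hs
  have hs0 : 0 < s := by positivity
  have hsC : (s : ℂ) ≠ 0 := by exact_mod_cast hs0.ne'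
  have hch : Chart (Ideal.span F) (Ideal.span F)
      (fun i => (C ((s : ℂ)⁻¹) * X i : MvPolynomial (Fin N) ℂ)) id 1 := by
    refine ⟨Function.injective_id, ?_, ?_⟩
    · intro g hg
      rw [one_mul]
      have hle : Ideal.span F ≤ (Ideal.span F).comap
          (aeval (fun i => (C ((s : ℂ)⁻¹) * X i : MvPolynomial (Fin N) ℂ))).toRingHom := by
        rw [Ideal.span_le]
        intro f hf
        obtain ⟨d, hd⟩ := hF f hf
        show aeval (fun i => (C ((s : ℂ)⁻¹) * X i : MvPolynomial (Fin N) ℂ)) f ∈ Ideal.span F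
        rw [v4_scale _ hd]
        exact Ideal.mul_mem_left _ _ (Ideal.subset_span hf)
      exact hle hg
    · intro f hf
      rw [one_mul]
      have hle : Ideal.span F ≤ Ideal.span {f' | ∃ g ∈ Ideal.span F,
          f' = aeval (fun i => (C ((s : ℂ)⁻¹) * X (id i) : MvPolynomial (Fin N) ℂ)) g} := by
        rw [Ideal.span_le]
        intro f hf
        obtain ⟨d, hd⟩ := hF f hf
        apply Ideal.subset_span
        refine ⟨C ((s : ℂ) ^ d) * f, Ideal.mul_mem_left _ _ (Ideal.subset_span hf), ?_⟩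
        show f = aeval (fun i => (C ((s : ℂ)⁻¹) * X i : MvPolynomial (Fin N) ℂ))
          (C ((s : ℂ) ^ d) * f)
        rw [map_mul, v4_scale _ hd, aeval_C, ← mul_assoc]
        have : (algebraMap ℂ (MvPolynomial (Fin N) ℂ)) ((s : ℂ) ^ d) * C ((s : ℂ)⁻¹ ^ d) = 1 := by
          rw [MvPolynomial.algebraMap_eq, ← C_mul, inv_pow, mul_inv_cancel₀ (pow_ne_zero _ hsC), C_1]
        rw [this, one_mul]
      exact hle hf
  have hjac : eval (fun i => (s : ℂ) * p' i)
      (jacDet fun i => (C ((s : ℂ)⁻¹) * X i : MvPolynomial (Fin N) ℂ)) ≠ 0 := by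
    have : jacDet (fun i => (C ((s : ℂ)⁻¹) * X i : MvPolynomial (Fin N) ℂ)) =
        C ((s : ℂ)⁻¹) ^ N := by
      unfold jacDet
      have : (Matrix.of fun i j => pderiv j (C ((s : ℂ)⁻¹) * X i : MvPolynomial (Fin N) ℂ)) =
          (C ((s : ℂ)⁻¹) : MvPolynomial (Fin N) ℂ) •
            (1 : Matrix (Fin N) (Fin N) (MvPolynomial (Fin N) ℂ)) := by
        ext1 i j
        rw [Matrix.of_apply, pderiv_C_mul, pderiv_X, Matrix.smul_apply, Matrix.one_apply,
          Pi.single_apply, smul_eq_mul]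
      rw [this, Matrix.det_smul, Matrix.det_one, mul_one, Fintype.card_fin]
    rw [this, map_pow, eval_C]
    exact pow_ne_zero _ (inv_ne_zero hsC)
  have hv := vis_chart hχ hch (fun i => (s : ℂ) * p' i) (by simp) hjac lam (by
    have : (fun i => eval (fun i => (s : ℂ) * p' i)
        (C ((s : ℂ)⁻¹) * X (id i) : MvPolynomial (Fin N) ℂ)) = p' := by
      funext i
      rw [map_mul, eval_C, eval_X, id, ← mul_assoc, inv_mul_cancel₀ hsC, one_mul]
    rw [this]
    exact hvis)
  refine ⟨_, ?_, hv⟩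
  have h1 : ‖p'‖ < ‖c‖ + 1 := by
    have : p' = (p' - c) + c := by abel
    calc ‖p'‖ = ‖(p' - c) + c‖ := by rw [← this]
      _ ≤ ‖p' - c‖ + ‖c‖ := norm_add_le _ _
      _ < ‖c‖ + 1 := by linarith
  have h2 : (fun i => (s : ℂ) * p' i) = (s : ℂ) • p' := rfl
  rw [sub_zero, h2, norm_smul, Complex.norm_real, Real.norm_of_nonneg hs0.le]
  calc s * ‖p'‖ ≤ s * (‖c‖ + 1) := by gcongr
    _ < s * (2 * (‖c‖ + 2)) := by
      apply mul_lt_mul_of_pos_left _ hs0
      linarith
    _ = ε := by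
      rw [hs]
      field_simp

end CN
end MotMono
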