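import Pool.Agent.Lib.MP_4e5fcd_ag.CN.Base

/-!
# CN-E1: jets and polynomial maps

`along_trunc`: the coefficients `≤ l` of `f (γ)` depend only on the levels `≤ l`.
`along_cj`: `along (aeval v g) γ = aeval (fun i => along (v i) γ) g`, and the polynomials
`along (v i) γ` and `arc (cj v γ) i` agree mod `t^n`.
`coeff_along_level` (Taylor formula).
-/

open MvPolynomial

namespace MotMono
namespace CN

private theorem e1_key {σ : Type} (a b : σ → Polynomial ℂ) (n : ℕ)
    (h : ∀ i, (Polynomial.X : Polynomial ℂ) ^ n ∣ a i - b i) (f : MvPolynomial σ ℂ) :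
    (Polynomial.X : Polynomial ℂ) ^ n ∣ aeval a f - aeval b f := by
  induction f using MvPolynomial.induction_on with
  | C c => simp
  | add p q hp hq =>
    rw [map_add, map_add]
    have := dvd_add hp hq
    refine this.trans (dvd_of_eq ?_)
    ring
  | mul_X p i hp =>
    rw [map_mul, map_mul, aeval_X, aeval_X]
    have : aeval a p * a i - aeval b p * b i =
        (aeval a p - aeval b p) * a i + aeval b p * (a i - b i) := by ring
    rw [this]
    exact dvd_add (hp.mul_right _) ((h i).mul_left _)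

private theorem e1_coeff {p q : Polynomial ℂ} {n : ℕ}
    (h : (Polynomial.X : Polynomial ℂ) ^ n ∣ p - q) {l : ℕ} (hl : l < n) :
    p.coeff l = q.coeff l := by
  have := Polynomial.X_pow_dvd_iff.1 h l hl
  rw [Polynomial.coeff_sub] at this
  exact sub_eq_zero.1 this

private theorem e1_dvd {p q : Polynomial ℂ} {n : ℕ} (h : ∀ l < n, p.coeff l = q.coeff l) :
    (Polynomial.X : Polynomial ℂ) ^ n ∣ p - q := by
  refine Polynomial.X_pow_dvd_iff.2 fun l hl => ?_
  rw [Polynomial.coeff_sub, h l hl, sub_self]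

theorem along_trunc {N n m : ℕ} (f : MvPolynomial (Fin N) ℂ) (γ : Fin N × Fin n → ℂ)
    (γ' : Fin N × Fin m → ℂ) (l : ℕ) (h : ∀ i, ∀ l' ≤ l, (arc γ i).coeff l' = (arc γ' i).coeff l') :
    (along f γ).coeff l = (along f γ').coeff l := by
  refine e1_coeff (n := l + 1) ?_ (Nat.lt_succ_self l)
  exact e1_key _ _ _ (fun i => e1_dvd fun l' hl' => h i l' (Nat.le_of_lt_succ hl')) f

theorem along_cj {N k n : ℕ} (v : Fin k → MvPolynomial (Fin N) ℂ) (g : MvPolynomial (Fin k) ℂ)
    (γ : Fin N × Fin n → ℂ) (l : ℕ) (hl : l < n) :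
    (along (aeval v g) γ).coeff l = (along g (cj v γ)).coeff l := by
  have h1 : along (aeval v g) γ = aeval (fun i => along (v i) γ) g := by
    unfold along
    rw [← AlgHom.comp_apply, comp_aeval]
  rw [h1]
  refine e1_coeff (n := n) ?_ hl
  refine e1_key _ _ _ (fun i => e1_dvd fun l' hl' => ?_) g
  rw [a1_arc_coeff, dif_pos hl']
  rfl

theorem bp_cj {N k n : ℕ} (v : Fin k → MvPolynomial (Fin N) ℂ) (γ : Fin N × Fin (n + 1) → ℂ) :
    bp (cj v γ) = fun i => eval (bp γ) (v i) := by
  funext i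
  exact LF.coeff_along_zero (v i)

private theorem e1_taylor {N l : ℕ} (a b e : Fin N → Polynomial ℂ) (p δ : Fin N → ℂ)
    (ha : ∀ i, ∃ a', a i = Polynomial.C (p i) + Polynomial.X * a')
    (hb : ∀ i, b i = a i + Polynomial.X ^ (l + 1) * Polynomial.C (δ i) +
      Polynomial.X ^ (l + 2) * e i) (f : MvPolynomial (Fin N) ℂ) :
    ∃ E A' : Polynomial ℂ, aeval a f = Polynomial.C (eval p f) + Polynomial.X * A' ∧
      aeval b f = aeval a f +
      Polynomial.X ^ (l + 1) * Polynomial.C (∑ j, eval p (pderiv j f) * δ j) +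
      Polynomial.X ^ (l + 2) * E := by
  induction f using MvPolynomial.induction_on with
  | C c =>
    refine ⟨0, 0, ?_, ?_⟩
    · simp
    · simp
  | add f g hf hg =>
    obtain ⟨E1, A1, h1, h1'⟩ := hf
    obtain ⟨E2, A2, h2, h2'⟩ := hg
    refine ⟨E1 + E2, A1 + A2, ?_, ?_⟩
    · rw [map_add, map_add, h1, h2, Polynomial.C_add]
      ring
    · have h3 : (∑ j, eval p (pderiv j (f + g)) * δ j) =
        (∑ j, eval p (pderiv j f) * δ j) + ∑ j, eval p (pderiv j g) * δ j := by
        rw [← Finset.sum_add_distrib]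
        refine Finset.sum_congr rfl fun j _ => ?_
        rw [map_add, map_add, add_mul]
      rw [map_add, map_add, h1', h2', h3, Polynomial.C_add]
      ring
  | mul_X f i hf =>
    obtain ⟨E, A', h1, h2⟩ := hf
    obtain ⟨a', h3⟩ := ha i
    have h4 : (∑ j, eval p (pderiv j (f * X i)) * δ j) =
        (∑ j, eval p (pderiv j f) * δ j) * p i + eval p f * δ i := by
      rw [Finset.sum_mul]
      have : ∀ j, eval p (pderiv j (f * X i)) * δ j =
          eval p (pderiv j f) * δ j * p i + eval p f * ((Pi.single i 1 : Fin N → ℂ) j * δ j) := by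
        intro j
        rw [Derivation.leibniz, pderiv_X]
        rw [smul_eq_mul, smul_eq_mul, map_add, map_mul, map_mul, eval_X]
        by_cases hij : j = i
        · subst hij
          simp
          ring
        · rw [Pi.single_eq_of_ne hij, Pi.single_eq_of_ne (Ne.symm hij)]
          simp
          ring
      rw [Finset.sum_congr rfl fun j _ => this j, Finset.sum_add_distrib, ← Finset.mul_sum]
      congr 2
      rw [Finset.sum_eq_single i]
      · simp
      · intro j _ hj
        rw [Pi.single_eq_of_ne hj, zero_mul]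
      · intro h
        exact absurd (Finset.mem_univ _) h
    set D := ∑ j, eval p (pderiv j f) * δ j with hD
    refine ⟨aeval a f * e i + E * b i + Polynomial.X ^ l * Polynomial.C D * Polynomial.C (δ i) +
      Polynomial.X ^ (l + 1) * Polynomial.C D * e i + A' * Polynomial.C (δ i) +
      Polynomial.C D * a', Polynomial.C (eval p f) * a' + A' * Polynomial.C (p i) +
      Polynomial.X * A' * a', ?_, ?_⟩
    · rw [map_mul, aeval_X, h1, h3, map_mul, eval_X, Polynomial.C_mul]
      ring
    · rw [map_mul, aeval_X, map_mul, aeval_X, h4, h2, Polynomial.C_add, Polynomial.C_mul,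
        Polynomial.C_mul, hb i]
      have h5 : aeval a f * (Polynomial.X ^ (l + 1) * Polynomial.C (δ i)) =
          Polynomial.X ^ (l + 1) * (Polynomial.C (eval p f) * Polynomial.C (δ i)) +
          Polynomial.X ^ (l + 2) * (A' * Polynomial.C (δ i)) := by
        rw [h1]; ring
      have h6 : Polynomial.X ^ (l + 1) * Polynomial.C D * a i =
          Polynomial.X ^ (l + 1) * (Polynomial.C D * Polynomial.C (p i)) +
          Polynomial.X ^ (l + 2) * (Polynomial.C D * a') := by
        rw [h3]; ring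
      linear_combination h5 + h6

theorem coeff_along_level {N n : ℕ} (f : MvPolynomial (Fin N) ℂ) (γ γ' : Fin N × Fin (n + 1) → ℂ)
    (l : ℕ) (hl0 : 0 < l) (hl : l < n + 1)
    (h : ∀ i, ∀ m : Fin (n + 1), (m : ℕ) < l → γ' (i, m) = γ (i, m)) :
    (along f γ').coeff l - (along f γ).coeff l =
      ∑ j, eval (bp γ) (pderiv j f) * (γ' (j, ⟨l, hl⟩) - γ (j, ⟨l, hl⟩)) := by
  obtain ⟨k, rfl⟩ : ∃ k, l = k + 1 := ⟨l - 1, by omega⟩
  have hb : ∀ i, ∃ e, arc γ' i = arc γ i + Polynomial.X ^ (k + 1) *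
      Polynomial.C (γ' (i, ⟨k + 1, hl⟩) - γ (i, ⟨k + 1, hl⟩)) + Polynomial.X ^ (k + 2) * e := by
    intro i
    have h1 : (Polynomial.X : Polynomial ℂ) ^ (k + 2) ∣ arc γ' i - (arc γ i +
        Polynomial.X ^ (k + 1) * Polynomial.C (γ' (i, ⟨k + 1, hl⟩) - γ (i, ⟨k + 1, hl⟩))) := by
      refine e1_dvd fun m hm => ?_
      rw [Polynomial.coeff_add, Polynomial.coeff_X_pow_mul', a1_arc_coeff, a1_arc_coeff,
        dif_pos (by omega), dif_pos (by omega)]
      rcases Nat.lt_or_ge m (k + 1) with h2 | h2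
      · rw [if_neg (by omega), add_zero]
        exact h i ⟨m, by omega⟩ h2
      · have h3 : m = k + 1 := by omega
        subst h3
        rw [if_pos le_rfl, Nat.sub_self, Polynomial.coeff_C_zero]
        ring
    obtain ⟨e, he⟩ := h1
    exact ⟨e, by rw [← he]; ring⟩
  choose e he using hb
  have ha : ∀ i, ∃ a', arc γ i = Polynomial.C (bp γ i) + Polynomial.X * a' := by
    intro i
    have h1 : (Polynomial.X : Polynomial ℂ) ^ 1 ∣ arc γ i - Polynomial.C (bp γ i) := by
      refine e1_dvd fun m hm => ?_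
      have : m = 0 := by omega
      subst this
      rw [a1_arc_coeff, dif_pos (by omega), Polynomial.coeff_C_zero]
      rfl
    obtain ⟨a', ha'⟩ := h1
    exact ⟨a', by rw [← pow_one (Polynomial.X : Polynomial ℂ), ← ha']; ring⟩
  obtain ⟨E, A', _, h2⟩ := e1_taylor (l := k) (arc γ) (arc γ') e (bp γ)
    (fun i => γ' (i, ⟨k + 1, hl⟩) - γ (i, ⟨k + 1, hl⟩)) ha he f
  have h3 : along f γ' = along f γ + Polynomial.X ^ (k + 1) * Polynomial.C
      (∑ j, eval (bp γ) (pderiv j f) * (γ' (j, ⟨k + 1, hl⟩) - γ (j, ⟨k + 1, hl⟩))) +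
      Polynomial.X ^ (k + 2) * E := h2
  rw [h3, Polynomial.coeff_add, Polynomial.coeff_add, Polynomial.coeff_X_pow_mul',
    Polynomial.coeff_X_pow_mul', if_pos le_rfl, if_neg (by omega), Nat.sub_self,
    Polynomial.coeff_C_zero]
  ring

end CN
end MotMono
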