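import Pool.Agent.Lib.MP_4e5fcd_ag.CN.P1

/-!
# CN-P3: zeta functions of families: additivity, base points off `V(I)`, base points at the origin

`Zf_union`: `fam I (Γ ∪ Γ') k = fam I Γ k ∪ fam I Γ' k`, disjoint, constructible (`constr_fam`),
`cls_union`. `Zf_empty`: `cls_empty`.
`Zf_off`: for `k ≥ 1` the set `fam I Γ k` is empty, because the coefficient `0` of `along f γ` is
`eval (bp γ) f` (`LF.coeff_along_zero`). For `k = 0`, `fam I Γ 0` is `Γ` up to the reindexing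
`σ ⊕ Fin N ≃ σ ⊕ (Fin N × Fin 1)` (`RegIso.reindex`, `cls_iso`); `(0 + 1 : ℤ)`.
`Zf_zero`: `fam I Γ k` is isomorphic to `prodSet Γ (ordLocus I k)`: `(w, γ) ↦ ((w, 0), γ)`; all
coordinate functions are coordinates or `0` (`regFun_coord`, `regFun_const`). `cls_prodSet`.
`Constr (ordLocus I k)` follows from `constr_exOrd`: `ordLocus I k = {γ | γ(·,0) = 0} ∩ ExOrd I k`.
-/

open MvPolynomial

namespace MotMono
namespace CN

theorem Zf_union {N : ℕ} {σ : Type} [Finite σ] (I : Ideal (MvPolynomial (Fin N) ℂ))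
    {Γ Γ' : Set (σ ⊕ Fin N → ℂ)} (h : Constr Γ) (h' : Constr Γ') (hd : Disjoint Γ Γ') :
    Zf I (Γ ∪ Γ') = Zf I Γ + Zf I Γ' := by
  ext k
  unfold Zf
  rw [map_add, PowerSeries.coeff_mk, PowerSeries.coeff_mk, PowerSeries.coeff_mk, ← add_mul,
    ← map_add]
  congr 2
  have e : fam I (Γ ∪ Γ') k = fam I Γ k ∪ fam I Γ' k := by
    ext z
    simp only [fam, Set.mem_ofPred_eq, Set.mem_union]
    tauto
  rw [e]
  refine cls_union (constr_fam I h k) (constr_fam I h' k) ?_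
  rw [Set.disjoint_left] at hd ⊢
  intro z hz hz'
  exact hd hz.1 hz'.1

theorem Zf_empty {N : ℕ} {σ : Type} [Finite σ] (I : Ideal (MvPolynomial (Fin N) ℂ)) :
    Zf I (∅ : Set (σ ⊕ Fin N → ℂ)) = 0 := by
  ext k
  unfold Zf
  rw [PowerSeries.coeff_mk]
  have e : fam I (∅ : Set (σ ⊕ Fin N → ℂ)) k = ∅ := by
    ext z
    simp only [fam, Set.mem_ofPred_eq, Set.mem_empty_iff_false, false_and]
  rw [e, cls_empty, map_zero, zero_mul, map_zero]

private theorem p3_off_pos {N : ℕ} {σ : Type} [Finite σ] (I : Ideal (MvPolynomial (Fin N) ℂ))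
    {Γ : Set (σ ⊕ Fin N → ℂ)}
    (h : ∀ z ∈ Γ, ∃ f ∈ I, eval (fun i => z (Sum.inr i)) f ≠ 0) {k : ℕ} (hk : 0 < k) :
    fam I Γ k = ∅ := by
  ext z
  simp only [Set.mem_empty_iff_false, iff_false]
  rintro ⟨h1, h2, _⟩
  obtain ⟨f, hf, h3⟩ := h _ h1
  apply h3
  have h4 := h2 f hf 0 hk
  rw [LF.coeff_along_zero] at h4
  exact h4

private theorem p3_off_zero {N : ℕ} {σ : Type} [Finite σ] (I : Ideal (MvPolynomial (Fin N) ℂ))
    {Γ : Set (σ ⊕ Fin N → ℂ)} (hΓ : Constr Γ)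
    (h : ∀ z ∈ Γ, ∃ f ∈ I, eval (fun i => z (Sum.inr i)) f ≠ 0) :
    cls (fam I Γ 0) = cls Γ := by
  refine (cls_iso hΓ (constr_fam I hΓ 0) ?_).symm
  refine ⟨fun x s => Sum.elim (fun t => x (Sum.inl t)) (fun q => x (Sum.inr q.1)) s,
    fun z s => Sum.elim (fun t => z (Sum.inl t)) (fun i => z (Sum.inr (i, 0))) s, ?_, ?_, ?_, ?_,
    ?_, ?_⟩
  · rintro (t | q)
    · exact regFun_coord _ (Sum.inl t)
    · exact regFun_coord _ (Sum.inr q.1)
  · rintro (t | i)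
    · exact regFun_coord _ (Sum.inl t)
    · exact regFun_coord _ (Sum.inr (i, 0))
  · intro x hx
    have e1 : (Sum.elim (fun s => x (Sum.inl s)) (fun i => x (Sum.inr i)) : σ ⊕ Fin N → ℂ) = x := by
      funext s
      rcases s with t | i <;> rfl
    refine ⟨?_, ?_, ?_⟩
    · show (Sum.elim (fun s => x (Sum.inl s)) (fun i => x (Sum.inr i)) : σ ⊕ Fin N → ℂ) ∈ Γ
      rw [e1]; exact hx
    · intro f _ l hl
      exact absurd hl (Nat.not_lt_zero l)
    · obtain ⟨f, hf, h1⟩ := h x hx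
      refine ⟨f, hf, ?_⟩
      rw [LF.coeff_along_zero]
      exact h1
  · intro z hz
    exact hz.1
  · intro x _
    funext s
    rcases s with t | i <;> rfl
  · intro z _
    funext s
    rcases s with t | ⟨i, j⟩
    · rfl
    · have hj : j = 0 := Fin.ext (by have := j.2; omega)
      rw [hj]
      rfl

theorem Zf_off {N : ℕ} {σ : Type} [Finite σ] (I : Ideal (MvPolynomial (Fin N) ℂ))
    {Γ : Set (σ ⊕ Fin N → ℂ)} (hΓ : Constr Γ)
    (h : ∀ z ∈ Γ, ∃ f ∈ I, eval (fun i => z (Sum.inr i)) f ≠ 0) :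
    Zf I Γ = PowerSeries.C (algebraMap K0 MC (cls Γ) * ((Lu ^ (-(N : ℤ)) : MCˣ) : MC)) := by
  ext k
  unfold Zf
  rw [PowerSeries.coeff_mk, PowerSeries.coeff_C]
  split_ifs with hk
  · subst hk
    rw [p3_off_zero I hΓ h]
    congr 3
    push_cast
    ring
  · rw [p3_off_pos I h (Nat.pos_of_ne_zero hk), cls_empty, map_zero, zero_mul]

theorem constr_ordLocus {N : ℕ} (I : Ideal (MvPolynomial (Fin N) ℂ)) (k : ℕ) :
    Constr (ordLocus I k) := by
  have h1 : Constr (⋂ i : Fin N, {γ : Fin N × Fin (k + 1) → ℂ |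
      eval γ (X (i, 0) : MvPolynomial (Fin N × Fin (k + 1)) ℂ) = 0}) :=
    constr_iInter fun i => Constr.zeroSet _
  have h2 := h1.inter (constr_exOrd I k)
  have e : (⋂ i : Fin N, {γ : Fin N × Fin (k + 1) → ℂ |
      eval γ (X (i, 0) : MvPolynomial (Fin N × Fin (k + 1)) ℂ) = 0}) ∩ ExOrd I k =
      ordLocus I k := by
    ext γ
    simp only [Set.mem_inter_iff, Set.mem_iInter, Set.mem_ofPred_eq, eval_X, ExOrd, OrdGe,
      ordLocus]
  rwa [e] at h2

theorem Zf_zero {N : ℕ} {σ : Type} [Finite σ] (I : Ideal (MvPolynomial (Fin N) ℂ))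
    {Γ : Set (σ ⊕ Fin N → ℂ)} (hΓ : Constr Γ) (h : ∀ z ∈ Γ, ∀ i, z (Sum.inr i) = 0) :
    Zf I Γ = PowerSeries.C (algebraMap K0 MC (cls Γ)) * Zmot I := by
  ext k
  unfold Zf Zmot
  rw [PowerSeries.coeff_C_mul, PowerSeries.coeff_mk, PowerSeries.coeff_mk, ← mul_assoc, ← map_mul,
    ← cls_prodSet hΓ (constr_ordLocus I k)]
  congr 2
  refine cls_iso (constr_fam I hΓ k) (hΓ.prodSet (constr_ordLocus I k)) ?_
  refine ⟨fun z s => Sum.elim (Sum.elim (fun t => z (Sum.inl t)) (fun i => z (Sum.inr (i, 0))))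
      (fun q => z (Sum.inr q)) s,
    fun w s => Sum.elim (fun t => w (Sum.inl (Sum.inl t))) (fun q => w (Sum.inr q)) s, ?_, ?_, ?_,
    ?_, ?_, ?_⟩
  · rintro ((t | i) | q)
    · exact regFun_coord _ (Sum.inl t)
    · exact regFun_coord _ (Sum.inr (i, 0))
    · exact regFun_coord _ (Sum.inr q)
  · rintro (t | q)
    · exact regFun_coord _ (Sum.inl (Sum.inl t))
    · exact regFun_coord _ (Sum.inr q)
  · rintro z ⟨h1, h2, h3⟩
    refine ⟨h1, fun i => ?_, h2, h3⟩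
    exact h _ h1 i
  · rintro w ⟨h1, h2, h3, h4⟩
    refine ⟨?_, h3, h4⟩
    have e1 : (Sum.elim (fun s => w (Sum.inl (Sum.inl s))) (fun i => w (Sum.inr (i, 0))) :
        σ ⊕ Fin N → ℂ) = fun s => w (Sum.inl s) := by
      funext s
      rcases s with t | i
      · rfl
      · show w (Sum.inr (i, 0)) = w (Sum.inl (Sum.inr i))
        rw [h _ h1 i]
        exact h2 i
    show (Sum.elim (fun s => w (Sum.inl (Sum.inl s))) (fun i => w (Sum.inr (i, 0))) :
        σ ⊕ Fin N → ℂ) ∈ Γ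
    rw [e1]
    exact h1
  · intro z _
    funext s
    rcases s with t | q <;> rfl
  · rintro w ⟨h1, h2, _⟩
    funext s
    rcases s with (t | i) | q
    · rfl
    · show w (Sum.inr (i, 0)) = w (Sum.inl (Sum.inr i))
      rw [h _ h1 i]
      exact h2 i
    · rfl

end CN
end MotMono
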