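import Pool.Agent.Lib.MP_4e5fcd_ag.CN.P2
import Pool.Agent.Lib.MP_4e5fcd_ag.CN.P3

/-!
# CN-P5: the cone identity

For `γ` with `γ(0) = 0` write `γ = t γ'`; for `f` homogeneous of degree `d`,
`f (γ) = t ^ d f (γ')`. Let `I = Ideal.span F`.
* `ordLocus I k = ∅` for `k < d` (`f(γ)` has order `≥ d`).
* for `k = d + m`: `ordLocus I (d + m)` is isomorphic to
  `prodSet (ExOrd I m) (univ : Set (Fin N × Fin (d - 1) → ℂ))`: the levels `1, …, m + 1` of `γ` are
  the levels `0, …, m` of `γ'`, the remaining `d - 1` levels `m + 2, …, m + d` are free (the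
  coefficients `≤ m` of `f (γ')` depend only on the levels `≤ m` of `γ'`). Linear isomorphism with
  coordinate functions equal to coordinates (or `0`).
* `ExOrd I m` is isomorphic to `fam I (univ : Set (Empty ⊕ Fin N → ℂ)) m`, and
  `Zf I univ = Zf I {∃ i, z i ≠ 0} + Zf I {∀ i, z i = 0}` (`Zf_union`), and the last term is
  `Zmot I` (`Zf_zero` with `cls = 1`: the set is a point, `cls_singleton`).
So `coeff (d + m) (Zmot I) = L^(-N) coeff m (Zf I univ)`: the exponent of `L` is
`N (d - 1) - N (d + m + 1) = - N (m + 1) - N`. Hence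
`Zmot I = C (L^(-N)) X^d (Zmot I + Zf I {≠ 0})`, which is the claim.
Use `exOrd_span` (CN-P2), and `coeff_along_shift` (first theorem) for `f (t γ') = t^d f (γ')`:
`along f γ` for `γ (i, l + 1) = γ' (i, l)`: `aeval` of a homogeneous polynomial at `X * a_i`
(`MvPolynomial.IsHomogeneous`, induction over monomials).
-/

open MvPolynomial

namespace MotMono
namespace CN

/-- homogeneity along multiples -/
theorem p5_hom {N d : ℕ} (f : MvPolynomial (Fin N) ℂ) (hf : f.IsHomogeneous d)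
    (P : Polynomial ℂ) (δ : Fin N → Polynomial ℂ) :
    aeval (fun i => P * δ i) f = P ^ d * aeval δ f := by
  rw [aeval_def, aeval_def, eval₂_eq', eval₂_eq', Finset.mul_sum]
  refine Finset.sum_congr rfl fun s hs => ?_
  have h1 : ∑ i, s i = d := by
    have h2 := hf (mem_support_iff.mp hs)
    rw [Finsupp.weight_apply, Finsupp.sum_fintype _ _ (by simp)] at h2
    simpa using h2
  simp only [mul_pow]
  rw [Finset.prod_mul_distrib, Finset.prod_pow_eq_pow_sum, h1]
  ring

/-- congruence of the values -/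
theorem p5_congr {N : ℕ} (t : ℕ) (δ ε : Fin N → Polynomial ℂ)
    (h : ∀ i, (Polynomial.X ^ t : Polynomial ℂ) ∣ δ i - ε i) (f : MvPolynomial (Fin N) ℂ) :
    (Polynomial.X ^ t : Polynomial ℂ) ∣ aeval δ f - aeval ε f := by
  induction f using MvPolynomial.induction_on with
  | C a => simp
  | add p q hp hq =>
    rw [map_add, map_add]
    have h1 : aeval δ p + aeval δ q - (aeval ε p + aeval ε q) =
        (aeval δ p - aeval ε p) + (aeval δ q - aeval ε q) := by ring
    rw [h1]
    exact dvd_add hp hq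
  | mul_X p i hp =>
    rw [map_mul, map_mul, aeval_X, aeval_X]
    have h1 : aeval δ p * δ i - aeval ε p * ε i =
        (aeval δ p - aeval ε p) * δ i + aeval ε p * (δ i - ε i) := by ring
    rw [h1]
    exact dvd_add (Dvd.dvd.mul_right hp _) (Dvd.dvd.mul_left (h i) _)

theorem coeff_along_shift {N n m d : ℕ} (f : MvPolynomial (Fin N) ℂ) (hf : f.IsHomogeneous d)
    (γ : Fin N × Fin (n + 1) → ℂ) (γ' : Fin N × Fin (m + 1) → ℂ) (h0 : ∀ i, γ (i, 0) = 0)
    (h : ∀ i (l : ℕ) (h1 : l + 1 < n + 1) (h2 : l < m + 1), γ (i, ⟨l + 1, h1⟩) = γ' (i, ⟨l, h2⟩)) :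
    (∀ l < d, (along f γ).coeff l = 0) ∧
      ∀ l, l < n → l ≤ m → (along f γ).coeff (d + l) = (along f γ').coeff l := by
  obtain ⟨δ, hδ⟩ : ∃ δ : Fin N → Polynomial ℂ, δ = fun i => Polynomial.divX (arc γ i) := ⟨_, rfl⟩
  have h1 : ∀ i, arc γ i = Polynomial.X * δ i := by
    intro i
    have h2 := Polynomial.divX_mul_X_add (arc γ i)
    have h3 : (arc γ i).coeff 0 = 0 := by
      rw [a1_arc_coeff, dif_pos (by omega)]
      exact h0 i
    rw [h3, Polynomial.C_0, add_zero] at h2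
    rw [hδ, mul_comm]
    exact h2.symm
  have h4 : along f γ = Polynomial.X ^ d * aeval δ f := by
    unfold along
    rw [← p5_hom f hf Polynomial.X δ]
    congr 2
    funext i
    exact h1 i
  refine ⟨fun l hl => ?_, fun l hln hlm => ?_⟩
  · rw [h4, Polynomial.coeff_X_pow_mul', if_neg (by omega)]
  · rw [h4, Nat.add_comm d l, Polynomial.coeff_X_pow_mul]
    have h5 := p5_congr (min n (m + 1)) δ (arc γ') (by
      intro i
      rw [Polynomial.X_pow_dvd_iff]
      intro k hk
      rw [Polynomial.coeff_sub, hδ]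
      simp only
      rw [Polynomial.coeff_divX, a1_arc_coeff, a1_arc_coeff, dif_pos (by omega), dif_pos (by omega),
        h i k (by omega) (by omega), sub_self]) f
    rw [Polynomial.X_pow_dvd_iff] at h5
    have h6 := h5 l (by omega)
    rw [Polynomial.coeff_sub] at h6
    exact sub_eq_zero.mp h6

private theorem p5_LL : algebraMap K0 MC LL = ((Lu : MCˣ) : MC) := by
  unfold Lu
  rw [IsUnit.unit_spec]

private theorem p5_LL_pow (k : ℕ) : algebraMap K0 MC (LL ^ k) = ((Lu ^ (k : ℤ) : MCˣ) : MC) := by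
  rw [map_pow, p5_LL, zpow_natCast, Units.val_pow_eq_pow_val]

private theorem p5_mem {N k : ℕ} (I : Ideal (MvPolynomial (Fin N) ℂ))
    (γ : Fin N × Fin (k + 1) → ℂ) : γ ∈ ordLocus I k ↔ (∀ i, γ (i, 0) = 0) ∧ γ ∈ ExOrd I k :=
  Iff.rfl

private theorem p5_empty {N d : ℕ} (F : Set (MvPolynomial (Fin N) ℂ))
    (hF : ∀ f ∈ F, f.IsHomogeneous d) {k : ℕ} (hk : k < d) : ordLocus (Ideal.span F) k = ∅ := by
  rw [Set.eq_empty_iff_forall_notMem]
  intro γ hγ
  rw [p5_mem, exOrd_span] at hγ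
  obtain ⟨h0, _, f, hf, hne⟩ := hγ
  apply hne
  exact (coeff_along_shift (m := k) f (hF f hf) γ
    (fun q => if h : (q.2 : ℕ) + 1 < k + 1 then γ (q.1, ⟨q.2 + 1, h⟩) else 0) h0
    (fun i l h1 h2 => by simp only; rw [dif_pos h1])).1 k hk

private theorem p5_shift_mem {N d m : ℕ} (hd : 0 < d) (F : Set (MvPolynomial (Fin N) ℂ))
    (hF : ∀ f ∈ F, f.IsHomogeneous d) (γ : Fin N × Fin (d + m + 1) → ℂ)
    (γ' : Fin N × Fin (m + 1) → ℂ) (h0 : ∀ i, γ (i, 0) = 0)
    (h : ∀ i (l : ℕ) (h1 : l + 1 < d + m + 1) (h2 : l < m + 1),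
      γ (i, ⟨l + 1, h1⟩) = γ' (i, ⟨l, h2⟩)) :
    γ ∈ ordLocus (Ideal.span F) (d + m) ↔ γ' ∈ ExOrd (Ideal.span F) m := by
  rw [p5_mem, exOrd_span, exOrd_span]
  constructor
  · rintro ⟨_, h1, f, hf, h2⟩
    refine ⟨fun g hg l hl => ?_, f, hf, ?_⟩
    · rw [← (coeff_along_shift g (hF g hg) γ γ' h0 h).2 l (by omega) (by omega)]
      exact h1 g hg (d + l) (by omega)
    · rw [← (coeff_along_shift f (hF f hf) γ γ' h0 h).2 m (by omega) (by omega)]
      exact h2
  · rintro ⟨h1, f, hf, h2⟩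
    refine ⟨h0, fun g hg l hl => ?_, f, hf, ?_⟩
    · rcases Nat.lt_or_ge l d with hld | hld
      · exact (coeff_along_shift g (hF g hg) γ γ' h0 h).1 l hld
      · obtain ⟨l', rfl⟩ := Nat.exists_eq_add_of_le hld
        rw [(coeff_along_shift g (hF g hg) γ γ' h0 h).2 l' (by omega) (by omega)]
        exact h1 g hg l' (by omega)
    · rw [(coeff_along_shift f (hF f hf) γ γ' h0 h).2 m (by omega) (by omega)]
      exact h2

/-- from the jet to the shifted jet and the free levels -/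
private def p5_phi {N : ℕ} (d m : ℕ) (hd : 0 < d) (γ : Fin N × Fin (d + m + 1) → ℂ) :
    (Fin N × Fin (m + 1)) ⊕ (Fin N × Fin (d - 1)) → ℂ :=
  Sum.elim (fun q => γ (q.1, ⟨q.2 + 1, by omega⟩)) (fun q => γ (q.1, ⟨q.2 + (m + 2), by omega⟩))

private def p5_psi {N : ℕ} (d m : ℕ)
    (z : (Fin N × Fin (m + 1)) ⊕ (Fin N × Fin (d - 1)) → ℂ) : Fin N × Fin (d + m + 1) → ℂ :=
  fun q => if (q.2 : ℕ) = 0 then 0 else
    if h : (q.2 : ℕ) - 1 < m + 1 then z (Sum.inl (q.1, ⟨q.2 - 1, h⟩))
    else z (Sum.inr (q.1, ⟨q.2 - (m + 2), by omega⟩))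

private theorem p5_iso {N d : ℕ} (hd : 0 < d) (F : Set (MvPolynomial (Fin N) ℂ))
    (hF : ∀ f ∈ F, f.IsHomogeneous d) (m : ℕ) :
    RegIso (ordLocus (Ideal.span F) (d + m))
      (prodSet (ExOrd (Ideal.span F) m) (Set.univ : Set (Fin N × Fin (d - 1) → ℂ))) := by
  refine ⟨p5_phi d m hd, p5_psi d m, ?_, ?_, ?_, ?_, ?_, ?_⟩
  · intro j
    rcases j with q | q
    · exact regFun_coord _ _
    · exact regFun_coord _ _
  · intro q
    unfold p5_psi
    by_cases h0 : (q.2 : ℕ) = 0
    · simp only [if_pos h0]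
      exact regFun_const _ _
    · simp only [if_neg h0]
      by_cases h1 : (q.2 : ℕ) - 1 < m + 1
      · simp only [dif_pos h1]
        exact regFun_coord _ _
      · simp only [dif_neg h1]
        exact regFun_coord _ _
  · intro γ hγ
    refine ⟨?_, Set.mem_univ _⟩
    exact (p5_shift_mem hd F hF γ _ hγ.1 (fun i l h1 h2 => rfl)).mp hγ
  · intro z hz
    refine (p5_shift_mem hd F hF _ (fun q => z (Sum.inl q)) (fun i => ?_) (fun i l h1 h2 => ?_)).mpr hz.1
    · unfold p5_psi
      simp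
    · unfold p5_psi
      simp only
      rw [if_neg (by omega), dif_pos (by omega)]
      rfl
  · intro γ hγ
    funext q
    obtain ⟨i, l, hl⟩ := q
    unfold p5_psi p5_phi
    by_cases h0 : l = 0
    · subst h0
      simp only [if_true]
      exact (hγ.1 i).symm
    · simp only [if_neg h0]
      by_cases h1 : l - 1 < m + 1
      · simp only [dif_pos h1, Sum.elim_inl]
        congr 2
        exact Fin.ext (by simp only; omega)
      · simp only [dif_neg h1, Sum.elim_inr]
        congr 2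
        exact Fin.ext (by simp only; omega)
  · intro z _
    funext q
    rcases q with ⟨i, l, hl⟩ | ⟨i, l, hl⟩
    · unfold p5_psi p5_phi
      simp only [Sum.elim_inl]
      rw [if_neg (by omega), dif_pos (by omega)]
      rfl
    · unfold p5_psi p5_phi
      simp only [Sum.elim_inr]
      rw [if_neg (by omega), dif_neg (by omega)]
      congr 2
      simp only [Prod.mk.injEq, true_and]
      exact Fin.ext (by simp only; omega)

private theorem p5_cls {N d : ℕ} (hd : 0 < d) (F : Set (MvPolynomial (Fin N) ℂ))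
    (hF : ∀ f ∈ F, f.IsHomogeneous d) (m : ℕ) :
    cls (ordLocus (Ideal.span F) (d + m)) = cls (ExOrd (Ideal.span F) m) * LL ^ (N * (d - 1)) := by
  rw [cls_iso (constr_ordLocus _ _) ((constr_exOrd _ _).prodSet constr_univ) (p5_iso hd F hF m),
    cls_prodSet (constr_exOrd _ _) constr_univ, cls_univ]
  simp

private theorem p5_fam {N : ℕ} (I : Ideal (MvPolynomial (Fin N) ℂ)) (m : ℕ) :
    cls (fam I (Set.univ : Set (Empty ⊕ Fin N → ℂ)) m) = cls (ExOrd I m) := by
  have h1 := RegIso.reindex (Equiv.emptySum Empty (Fin N × Fin (m + 1))).symm (ExOrd I m)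
  have h2 : {y : Empty ⊕ (Fin N × Fin (m + 1)) → ℂ |
      (fun i => y ((Equiv.emptySum Empty (Fin N × Fin (m + 1))).symm i)) ∈ ExOrd I m} =
      fam I (Set.univ : Set (Empty ⊕ Fin N → ℂ)) m := by
    ext y
    unfold fam
    simp only [Set.mem_univ, true_and, Set.mem_ofPred_eq]
    rfl
  rw [h2] at h1
  exact (cls_iso (constr_exOrd I m) (constr_fam I constr_univ m) h1).symm

theorem cone_step {N d : ℕ} (hd : 0 < d) (F : Set (MvPolynomial (Fin N) ℂ))
    (hF : ∀ f ∈ F, f.IsHomogeneous d) :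
    Zmot (Ideal.span F) *
        (1 - PowerSeries.C ((Lu ^ (-(N : ℤ)) : MCˣ) : MC) * PowerSeries.X ^ d) =
      PowerSeries.C ((Lu ^ (-(N : ℤ)) : MCˣ) : MC) * PowerSeries.X ^ d *
        Zf (Ideal.span F) ({z | ∃ i, z (Sum.inr i) ≠ 0} : Set (Empty ⊕ Fin N → ℂ)) := by
  obtain ⟨c, hc⟩ : ∃ c : MC, c = ((Lu ^ (-(N : ℤ)) : MCˣ) : MC) := ⟨_, rfl⟩
  rw [← hc]
  have h1 : Zmot (Ideal.span F) = PowerSeries.C c * PowerSeries.X ^ d *
      Zf (Ideal.span F) (Set.univ : Set (Empty ⊕ Fin N → ℂ)) := by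
    ext k
    rw [mul_comm (PowerSeries.C c), mul_assoc, PowerSeries.coeff_X_pow_mul']
    unfold Zmot
    rw [PowerSeries.coeff_mk]
    by_cases hk : d ≤ k
    · obtain ⟨m, rfl⟩ := Nat.exists_eq_add_of_le hk
      rw [if_pos hk, Nat.add_sub_cancel_left, PowerSeries.coeff_C_mul]
      unfold Zf
      rw [PowerSeries.coeff_mk, p5_cls hd F hF m, p5_fam, map_mul, p5_LL_pow, hc]
      have h2 : (((Lu ^ ((N * (d - 1) : ℕ) : ℤ) : MCˣ) : MC)) *
          ((Lu ^ (-(N * ((d + m : ℕ) + 1) : ℤ)) : MCˣ) : MC) =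
          ((Lu ^ (-(N : ℤ)) : MCˣ) : MC) * ((Lu ^ (-(N * (m + 1) : ℤ)) : MCˣ) : MC) := by
        rw [← Units.val_mul, ← Units.val_mul, ← zpow_add, ← zpow_add]
        congr 2
        have h3 : ((d - 1 : ℕ) : ℤ) = d - 1 := by omega
        push_cast
        rw [h3]
        ring
      rw [mul_assoc, h2]
      ring
    · rw [if_neg hk, p5_empty F hF (by omega), cls_empty, map_zero, zero_mul]
  have h4 : (Set.univ : Set (Empty ⊕ Fin N → ℂ)) =
      {z | ∃ i, z (Sum.inr i) ≠ 0} ∪ {0} := by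
    ext z
    simp only [Set.mem_univ, Set.mem_union, Set.mem_ofPred_eq, Set.mem_singleton_iff, true_iff]
    by_cases h : ∃ i, z (Sum.inr i) ≠ 0
    · exact Or.inl h
    · right
      push Not at h
      funext q
      rcases q with q | q
      · exact q.elim
      · exact h q
  have h5 : ({z | ∃ i, z (Sum.inr i) ≠ 0} : Set (Empty ⊕ Fin N → ℂ)) = {0}ᶜ := by
    ext z
    simp only [Set.mem_ofPred_eq, Set.mem_compl_iff, Set.mem_singleton_iff]
    constructor
    · rintro ⟨i, hi⟩ h0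
      apply hi
      rw [h0]
      rfl
    · intro h
      by_contra hcon
      push Not at hcon
      apply h
      funext q
      rcases q with q | q
      · exact q.elim
      · exact hcon q
  have h6 : Constr ({z | ∃ i, z (Sum.inr i) ≠ 0} : Set (Empty ⊕ Fin N → ℂ)) := by
    rw [h5]
    exact (constr_singleton 0).compl
  have h7 : Zf (Ideal.span F) (Set.univ : Set (Empty ⊕ Fin N → ℂ)) =
      Zf (Ideal.span F) ({z | ∃ i, z (Sum.inr i) ≠ 0} : Set (Empty ⊕ Fin N → ℂ)) +
        Zmot (Ideal.span F) := by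
    rw [h4, Zf_union _ h6 (constr_singleton 0) (by rw [h5]; exact disjoint_compl_left),
      Zf_zero (Γ := {0}) _ (constr_singleton 0) (by
        intro z hz i
        rw [Set.mem_singleton_iff] at hz
        rw [hz]
        rfl), cls_singleton, map_one, map_one, one_mul]
  rw [h7] at h1
  have h8 := h1
  rw [mul_add] at h8
  rw [mul_sub, mul_one]
  linear_combination h8

end CN
end MotMono
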