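import Pool.Agent.Lib.MP_4e5fcd_ag.CN.P1
import Pool.Agent.Lib.MP_4e5fcd_ag.CN.P2
import Pool.Agent.Lib.MP_4e5fcd_ag.CN.E1
import Pool.Agent.Lib.MP_4e5fcd_ag.CN.P5

/-!
# CN-C3: contact loci of an ideal generated by forms: the strata

For `γ ∈ CA (span F) 0 η m` (`η` the functional of the jet `t c`, i.e. `η f = y f` for `deg f = e`,
`η f = 0` for the other `f ∈ F`), let `j ≥ 1` be the order of `γ`: `γ = t^j γ'`, `γ'` an
`(m - j)`-jet with `bp γ' ≠ 0`, and `f (γ) = t^(j deg f) f (γ')`. (The zero jet is impossible, and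
so is `j e > m`, because of `f₀`: coefficient `m` of `f₀ (γ)` must be `y f₀ ≠ 0`.)
`BB F e y m j` is the set of the `γ'`: for all `f ∈ F` and all `l` with `l + j deg f ≤ m`,
coefficient `l` of `f (γ')` is `y f` if `deg f = e` and `l + j e = m`, and `0` otherwise.
`cls_CA`: partition of `CA` by the order `j ∈ [1, m]`; the part of order `j` is isomorphic to
`BB F e y m j` (reindexing of the levels, other levels zero; coordinates and constants:
`RegIso`), use `coeff_along_shift` (CN-P5) `j` times or prove directly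
`coeff_along_shiftj` (below): `X ^ (j * d) * along f γ' = along f γ` up to high order.
The condition `j * e ≤ m` is implied by membership: if `j e > m` the part is empty.
-/

open MvPolynomial

namespace MotMono
namespace CN

def BB {N : ℕ} (F : Set (MvPolynomial (Fin N) ℂ)) (e : ℕ) (y : MvPolynomial (Fin N) ℂ → ℂ)
    (m j : ℕ) : Set (Fin N × Fin (m - j + 1) → ℂ) :=
  {γ | bp γ ≠ 0 ∧ ∀ f ∈ F, ∀ l, l + j * f.totalDegree ≤ m →
    (along f γ).coeff l = if f.totalDegree = e ∧ l + j * e = m then y f else 0}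

theorem constr_BB {N : ℕ} (F : Set (MvPolynomial (Fin N) ℂ)) (e : ℕ)
    (y : MvPolynomial (Fin N) ℂ → ℂ) (m j : ℕ) : Constr (BB F e y m j) := by
  classical
  have hP : ∀ (f : MvPolynomial (Fin N) ℂ) (l : ℕ),
      ∃ P : MvPolynomial (Fin N × Fin (m - j + 1)) ℂ, ∀ γ : Fin N × Fin (m - j + 1) → ℂ,
        eval γ P = (along f γ).coeff l := fun f l => exists_alongPoly f l
  choose P hP using hP
  have h1 := constr_zeroLocus {g : MvPolynomial (Fin N × Fin (m - j + 1)) ℂ |
    ∃ i : Fin N, g = X (i, 0)}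
  have h2 := constr_zeroLocus {g : MvPolynomial (Fin N × Fin (m - j + 1)) ℂ |
    ∃ f ∈ F, ∃ l, l + j * f.totalDegree ≤ m ∧
      g = P f l - C (if f.totalDegree = e ∧ l + j * e = m then y f else 0)}
  have h3 : BB F e y m j =
      {x | ∀ f ∈ {g : MvPolynomial (Fin N × Fin (m - j + 1)) ℂ | ∃ i : Fin N, g = X (i, 0)},
        eval x f = 0}ᶜ ∩
      {x | ∀ f ∈ {g : MvPolynomial (Fin N × Fin (m - j + 1)) ℂ |
        ∃ f ∈ F, ∃ l, l + j * f.totalDegree ≤ m ∧
          g = P f l - C (if f.totalDegree = e ∧ l + j * e = m then y f else 0)}, eval x f = 0} := by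
    ext γ
    simp only [BB, Set.mem_ofPred_eq, Set.mem_inter_iff, Set.mem_compl_iff]
    apply and_congr
    · apply not_congr
      constructor
      · rintro h g ⟨i, rfl⟩
        rw [eval_X]
        exact congrFun h i
      · intro h
        funext i
        have := h (X (i, 0)) ⟨i, rfl⟩
        rwa [eval_X] at this
    · constructor
      · rintro h g ⟨f, hf, l, hl, rfl⟩
        rw [map_sub, hP, eval_C, h f hf l hl, sub_self]
      · intro h f hf l hl
        have := h _ ⟨f, hf, l, hl, rfl⟩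
        rw [map_sub, hP, eval_C] at this
        exact sub_eq_zero.mp this
  rw [h3]
  exact h1.compl.inter h2

theorem coeff_along_shiftj {N n m d j : ℕ} (f : MvPolynomial (Fin N) ℂ) (hf : f.IsHomogeneous d)
    (γ : Fin N × Fin (n + 1) → ℂ) (γ' : Fin N × Fin (m + 1) → ℂ) (hj : j + m = n)
    (h0 : ∀ i (l : Fin (n + 1)), (l : ℕ) < j → γ (i, l) = 0)
    (h : ∀ i (l : ℕ) (h1 : l + j < n + 1) (h2 : l < m + 1), γ (i, ⟨l + j, h1⟩) = γ' (i, ⟨l, h2⟩)) :
    (∀ l < j * d, (along f γ).coeff l = 0) ∧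
      ∀ l, (along f γ).coeff (l + j * d) = (along f γ').coeff l := by
  have h1 : ∀ i, arc γ i = Polynomial.X ^ j * arc γ' i := by
    intro i
    ext l
    rw [Polynomial.coeff_X_pow_mul', a1_arc_coeff]
    by_cases hl : j ≤ l
    · obtain ⟨k, rfl⟩ := Nat.exists_eq_add_of_le hl
      rw [if_pos hl, Nat.add_sub_cancel_left, a1_arc_coeff]
      by_cases hk : k < m + 1
      · rw [dif_pos (by omega), dif_pos hk]
        have h2 := h i k (by omega) hk
        rw [← h2]
        congr 2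
        exact Fin.ext (Nat.add_comm j k)
      · rw [dif_neg (by omega), dif_neg hk]
    · rw [if_neg hl]
      split_ifs with h2
      · exact h0 i ⟨l, h2⟩ (by simp only; omega)
      · rfl
  have h4 : along f γ = Polynomial.X ^ (j * d) * along f γ' := by
    unfold along
    rw [pow_mul, ← p5_hom f hf (Polynomial.X ^ j) (arc γ')]
    congr 2
    funext i
    exact h1 i
  refine ⟨fun l hl => ?_, fun l => ?_⟩
  · rw [h4, Polynomial.coeff_X_pow_mul', if_neg (by omega)]
  · rw [h4, Polynomial.coeff_X_pow_mul]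

/-- the part of order `j` -/
private def c3_E {N : ℕ} (F : Set (MvPolynomial (Fin N) ℂ)) {n : ℕ}
    (γ₀ : Fin N × Fin (n + 1) → ℂ) (m j : ℕ) : Set (Fin N × Fin (m + 1) → ℂ) :=
  CA (Ideal.span F) 0 (fun f => (along f γ₀).coeff n) m ∩
    ({γ | ∀ q : Fin N × Fin (m + 1), (q.2 : ℕ) < j → γ q = 0} ∩
      {γ | ∀ q : Fin N × Fin (m + 1), (q.2 : ℕ) = j → γ q = 0}ᶜ)

private theorem c3_constr_E {N : ℕ} (F : Set (MvPolynomial (Fin N) ℂ)) {n : ℕ}
    (γ₀ : Fin N × Fin (n + 1) → ℂ) (m j : ℕ) : Constr (c3_E F γ₀ m j) := by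
  have h : ∀ p : Fin N × Fin (m + 1) → Prop,
      Constr {γ : Fin N × Fin (m + 1) → ℂ | ∀ q : Fin N × Fin (m + 1), p q → γ q = 0} := by
    intro p
    have h1 := constr_zeroLocus {g : MvPolynomial (Fin N × Fin (m + 1)) ℂ | ∃ q, p q ∧ g = X q}
    have h2 : {γ : Fin N × Fin (m + 1) → ℂ | ∀ q : Fin N × Fin (m + 1), p q → γ q = 0} =
        {x | ∀ f ∈ {g : MvPolynomial (Fin N × Fin (m + 1)) ℂ | ∃ q, p q ∧ g = X q}, eval x f = 0} := by
      ext γ
      simp only [Set.mem_ofPred_eq]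
      constructor
      · rintro h g ⟨q, hq, rfl⟩
        rw [eval_X]
        exact h q hq
      · intro h q hq
        have := h _ ⟨q, hq, rfl⟩
        rwa [eval_X] at this
    rw [h2]
    exact h1
  exact (constr_CA _ _ _ _).inter ((h _).inter (h _).compl)

/-- membership in the part of order `j` -/
private theorem c3_mem {N : ℕ} (F : Set (MvPolynomial (Fin N) ℂ)) (hF : ∀ f ∈ F, IsForm f) (e : ℕ)
    (y : MvPolynomial (Fin N) ℂ → ℂ) {n : ℕ} (γ₀ : Fin N × Fin (n + 1) → ℂ)
    (hb : bp γ₀ = 0) (ho : OrdGe (Ideal.span F) n γ₀)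
    (hη : ∀ f ∈ F, (along f γ₀).coeff n = if f.totalDegree = e then y f else 0) {m j : ℕ}
    (hj0 : 1 ≤ j) (hjm : j ≤ m) (hje : j * e ≤ m) (γ : Fin N × Fin (m + 1) → ℂ)
    (γ' : Fin N × Fin (m - j + 1) → ℂ)
    (h : ∀ i (l : ℕ) (h1 : l + j < m + 1) (h2 : l < m - j + 1),
      γ (i, ⟨l + j, h1⟩) = γ' (i, ⟨l, h2⟩))
    (h0 : ∀ q : Fin N × Fin (m + 1), (q.2 : ℕ) < j → γ q = 0) :
    γ ∈ c3_E F γ₀ m j ↔ γ' ∈ BB F e y m j := by
  have hsh : ∀ f ∈ F, (∀ l < j * f.totalDegree, (along f γ).coeff l = 0) ∧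
      ∀ l, (along f γ).coeff (l + j * f.totalDegree) = (along f γ').coeff l := fun f hf =>
    coeff_along_shiftj f (hF f hf).2.2 γ γ' (by omega) (fun i l hl => h0 (i, l) hl) h
  have hCA := mem_CA_span F γ₀ ho γ
  rw [hb] at hCA
  have hbp : bp γ' ≠ 0 ↔
      γ ∈ {γ : Fin N × Fin (m + 1) → ℂ | ∀ q : Fin N × Fin (m + 1), (q.2 : ℕ) = j → γ q = 0}ᶜ := by
    rw [Set.mem_compl_iff, Set.mem_ofPred_eq]
    apply not_congr
    constructor
    · intro h3 q hq
      obtain ⟨i, l, hl⟩ := q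
      simp only at hq
      subst hq
      have h4 := h i 0 (by omega) (by omega)
      have h5 : γ' (i, ⟨0, by omega⟩) = 0 := congrFun h3 i
      rw [h5] at h4
      rw [← h4]
      congr 2
      exact Fin.ext (Nat.zero_add l).symm
    · intro h3
      funext i
      have h4 := h i 0 (by omega) (by omega)
      have h5 : bp γ' i = γ' (i, ⟨0, by omega⟩) := rfl
      rw [h5, ← h4]
      exact h3 _ (Nat.zero_add j)
  have hbp0 : bp γ = 0 := by
    funext i
    exact h0 (i, 0) (show ((0 : Fin (m + 1)) : ℕ) < j by rw [Fin.val_zero]; omega)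
  constructor
  · rintro ⟨h1, h2, h3⟩
    have h4 := (hCA.mp h1).2
    refine ⟨hbp.mpr h3, fun f hf l hl => ?_⟩
    rw [← (hsh f hf).2 l]
    rcases Nat.lt_or_ge (l + j * f.totalDegree) m with h5 | h5
    · rw [(h4 f hf).1 _ h5, if_neg]
      rintro ⟨h6, h7⟩
      rw [h6] at h5
      omega
    · have h6 : l + j * f.totalDegree = m := by omega
      rw [h6, (h4 f hf).2, hη f hf]
      by_cases h7 : f.totalDegree = e
      · rw [if_pos h7, if_pos ⟨h7, by rw [← h7]; exact h6⟩]
      · rw [if_neg h7, if_neg (fun h8 => h7 h8.1)]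
  · rintro ⟨h1, h2⟩
    refine ⟨hCA.mpr ⟨hbp0, fun f hf => ⟨fun l hl => ?_, ?_⟩⟩, h0, hbp.mp h1⟩
    · rcases Nat.lt_or_ge l (j * f.totalDegree) with h3 | h3
      · exact (hsh f hf).1 l h3
      · obtain ⟨l', rfl⟩ := Nat.exists_eq_add_of_le h3
        rw [Nat.add_comm (j * f.totalDegree) l', (hsh f hf).2 l', h2 f hf l' (by omega), if_neg]
        rintro ⟨h6, h7⟩
        rw [h6] at hl
        omega
    · rw [hη f hf]
      rcases Nat.lt_or_ge m (j * f.totalDegree) with h3 | h3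
      · rw [(hsh f hf).1 m h3, if_neg]
        intro h4
        rw [h4] at h3
        omega
      · obtain ⟨l', hl'⟩ := Nat.exists_eq_add_of_le h3
        have h4 : l' + j * f.totalDegree = m := by omega
        have h5 := (hsh f hf).2 l'
        rw [h4] at h5
        rw [h5, h2 f hf l' (by omega)]
        by_cases h7 : f.totalDegree = e
        · rw [if_pos h7, if_pos ⟨h7, by rw [← h7]; exact h4⟩]
        · rw [if_neg h7, if_neg (fun h8 => h7 h8.1)]

private theorem c3_iso {N : ℕ} (F : Set (MvPolynomial (Fin N) ℂ)) (hF : ∀ f ∈ F, IsForm f) (e : ℕ)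
    (y : MvPolynomial (Fin N) ℂ → ℂ) {n : ℕ} (γ₀ : Fin N × Fin (n + 1) → ℂ)
    (hb : bp γ₀ = 0) (ho : OrdGe (Ideal.span F) n γ₀)
    (hη : ∀ f ∈ F, (along f γ₀).coeff n = if f.totalDegree = e then y f else 0) {m j : ℕ}
    (hj0 : 1 ≤ j) (hjm : j ≤ m) (hje : j * e ≤ m) :
    RegIso (c3_E F γ₀ m j) (BB F e y m j) := by
  refine ⟨fun γ q => γ (q.1, ⟨q.2 + j, by omega⟩),
    fun γ' q => if (q.2 : ℕ) < j then 0 else γ' (q.1, ⟨q.2 - j, by omega⟩), ?_, ?_, ?_, ?_, ?_, ?_⟩
  · intro q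
    exact regFun_coord _ _
  · intro q
    by_cases h : (q.2 : ℕ) < j
    · simp only [if_pos h]
      exact regFun_const _ _
    · simp only [if_neg h]
      exact regFun_coord _ _
  · intro γ hγ
    exact (c3_mem F hF e y γ₀ hb ho hη hj0 hjm hje γ _ (fun i l h1 h2 => rfl) hγ.2.1).mp hγ
  · intro γ' hγ'
    refine (c3_mem F hF e y γ₀ hb ho hη hj0 hjm hje _ γ' (fun i l h1 h2 => ?_) (fun q hq => ?_)).mpr hγ'
    · simp only
      rw [if_neg (by omega)]
      congr 2
      exact Fin.ext (by simp only; omega)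
    · simp only
      rw [if_pos hq]
  · intro γ hγ
    funext q
    obtain ⟨i, l, hl⟩ := q
    simp only
    split_ifs with h
    · exact (hγ.2.1 (i, ⟨l, hl⟩) h).symm
    · congr 2
      exact Fin.ext (by simp only; omega)
  · intro γ' _
    funext q
    obtain ⟨i, l, hl⟩ := q
    simp only
    rw [if_neg (by omega)]
    congr 2
    exact Fin.ext (by simp only; omega)

theorem cls_CA {N : ℕ} (F : Set (MvPolynomial (Fin N) ℂ)) (hF : ∀ f ∈ F, IsForm f) (e : ℕ)
    (y : MvPolynomial (Fin N) ℂ → ℂ) (f₀ : MvPolynomial (Fin N) ℂ) (hf₀ : f₀ ∈ F)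
    (he : f₀.totalDegree = e) (hy : y f₀ ≠ 0) {n : ℕ} (γ₀ : Fin N × Fin (n + 1) → ℂ)
    (hb : bp γ₀ = 0) (ho : OrdGe (Ideal.span F) n γ₀)
    (hη : ∀ f ∈ F, (along f γ₀).coeff n = if f.totalDegree = e then y f else 0) (m : ℕ)
    (hm : 1 ≤ m) :
    cls (CA (Ideal.span F) 0 (fun f => (along f γ₀).coeff n) m) =
      ∑ j ∈ (Finset.Icc 1 m).filter (fun j => j * e ≤ m), cls (BB F e y m j) := by
  classical
  have h1 : CA (Ideal.span F) 0 (fun f => (along f γ₀).coeff n) m =
      ⋃ j ∈ (Finset.Icc 1 m).filter (fun j => j * e ≤ m), c3_E F γ₀ m j := by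
    ext γ
    simp only [Set.mem_iUnion, exists_prop]
    constructor
    · intro hγ
      have hCA := mem_CA_span F γ₀ ho γ
      rw [hb] at hCA
      obtain ⟨hb1, hc1⟩ := hCA.mp hγ
      have hval : (along f₀ γ).coeff m = y f₀ := by
        rw [(hc1 f₀ hf₀).2, hη f₀ hf₀, if_pos he]
      -- some level is not zero
      have hex : ∃ j : ℕ, ∃ q : Fin N × Fin (m + 1), (q.2 : ℕ) = j ∧ γ q ≠ 0 := by
        by_contra hcon
        push Not at hcon
        apply hy
        rw [← hval]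
        have h2 : ∀ i (l : Fin (m + 1)), (l : ℕ) < m + 1 → γ (i, l) = 0 := fun i l _ =>
          hcon l (i, l) rfl
        have h3 : arc γ = fun i => (0 : Polynomial ℂ) * (0 : Polynomial ℂ) := by
          funext i
          ext l
          rw [a1_arc_coeff, zero_mul, Polynomial.coeff_zero]
          split_ifs with h4
          · exact h2 i _ h4
          · rfl
        unfold along
        rw [h3, p5_hom f₀ (hF f₀ hf₀).2.2 0 (fun _ => 0), zero_pow (hF f₀ hf₀).2.1.ne', zero_mul,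
          Polynomial.coeff_zero]
      obtain ⟨q, hq, hqne⟩ := Nat.find_spec hex
      obtain ⟨j, hj⟩ : ∃ j, j = Nat.find hex := ⟨_, rfl⟩
      rw [← hj] at hq
      have hmin : ∀ q : Fin N × Fin (m + 1), (q.2 : ℕ) < j → γ q = 0 := by
        intro q' hq'
        by_contra hne
        rw [hj] at hq'
        exact Nat.find_min hex hq' ⟨q', rfl, hne⟩
      have hj0 : 1 ≤ j := by
        by_contra h0
        have h2 : (q.2 : ℕ) = 0 := by omega
        apply hqne
        have h3 : q = (q.1, 0) := Prod.ext rfl (Fin.ext h2)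
        rw [h3]
        exact congrFun hb1 q.1
      have hjm : j ≤ m := by omega
      have hmem : γ ∈ c3_E F γ₀ m j :=
        ⟨hγ, hmin, fun h => hqne (h q hq)⟩
      refine ⟨j, Finset.mem_filter.mpr ⟨Finset.mem_Icc.mpr ⟨hj0, hjm⟩, ?_⟩, hmem⟩
      by_contra hje
      push Not at hje
      apply hy
      rw [← hval]
      refine (coeff_along_shiftj (m := m - j) (j := j) f₀ (hF f₀ hf₀).2.2 γ
        (fun q => γ (q.1, ⟨q.2 + j, by omega⟩)) (by omega) (fun i l hl => hmin (i, l) hl)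
        (fun i l h1 h2 => rfl)).1 m ?_
      rw [he]
      exact hje
    · rintro ⟨j, _, hγ⟩
      exact hγ.1
  rw [h1, cls_biUnion _ (fun j _ => c3_constr_E F γ₀ m j)]
  · refine Finset.sum_congr rfl fun j hj => ?_
    rw [Finset.mem_filter, Finset.mem_Icc] at hj
    exact cls_iso (c3_constr_E F γ₀ m j) (constr_BB F e y m j)
      (c3_iso F hF e y γ₀ hb ho hη hj.1.1 hj.1.2 hj.2)
  · intro i _ j _ hij
    rw [Set.disjoint_left]
    intro γ hi hj
    rcases Nat.lt_or_gt_of_ne hij with h | h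
    · exact hi.2.2 fun q hq => hj.2.1 q (by omega)
    · exact hj.2.2 fun q hq => hi.2.1 q (by omega)

end CN
end MotMono
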