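import Pool.Agent.Lib.MP_4e5fcd_ag.CN.C1
import Pool.Agent.Lib.MP_4e5fcd_ag.CN.C3

/-!
# CN-C4: Euler characteristics of the strata

`coeff_along_weight`: for `f` homogeneous of degree `d` and `γ_s (i, l) = s^(a l + b) γ (i, l)`:
the arc of `γ_s` is `s^b` times the arc of `γ` at `s^a t`, so coefficient `l` of `f (γ_s)` is
`s^(a l + b d)` times that of `f (γ)`. (Induction over monomials: `along` of a monomial is
`C c * ∏ (arc γ i)^(m i)`; or: `s ↦` use the ring homomorphism of polynomials
`g ↦ g.comp (C (s^a) * X)` (`Polynomial.scaleRoots`-free version) and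
`MvPolynomial.IsHomogeneous`.)
`chi_BB_lt` (`j e < m`): `chi_cstar` (CN-C1) with the weights `w (i, l) = e l - (m - j e)`:
coefficient `l` of `f (γ_s)` is multiplied by `s^(e l - (m - j e) deg f)`; this preserves the
vanishing conditions, and for `deg f = e`, `l = m - j e` the factor is `s^0 = 1`. The weight of the
level `0` is `- (m - j e) ≠ 0` and `bp γ ≠ 0`.
`chi_BB_eq` (`j e = m`): the conditions are: `f (bp γ) = 0` for `deg f < e`, `= y f` for
`deg f = e` (in this case `l + j e ≤ m` means `l = 0`), and coefficients `l ≥ 1` with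
`l + j deg f ≤ m` vanish (`deg f < e`). Split into the constant jets (isomorphic to
`fib F e y`; the coefficients `≥ 1` of `f` along a constant jet vanish; `bp γ ≠ 0` is automatic since
`y f₀ ≠ 0`, `f₀ (0) = 0`) and the others, which are stable under the weights `w (i, l) = l` and
have a non-zero coordinate of level `≥ 1`: `chi_cstar`.
-/

open MvPolynomial

namespace MotMono
namespace CN

private theorem c4_aeval_smul {N d : ℕ} (f : MvPolynomial (Fin N) ℂ) (hf : f.IsHomogeneous d)
    (c : ℂ) (g : Fin N → Polynomial ℂ) :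
    aeval (fun i => Polynomial.C c * g i) f = Polynomial.C (c ^ d) * aeval g f := by
  rw [aeval_def, aeval_def, eval₂_eq, eval₂_eq, Finset.mul_sum]
  refine Finset.sum_congr rfl fun m hm => ?_
  have hd : ∑ i ∈ m.support, m i = d := by
    have h := hf (mem_support_iff.1 hm)
    rw [Finsupp.weight_apply] at h
    simpa [Finsupp.sum] using h
  simp only [mul_pow]
  rw [Finset.prod_mul_distrib, Finset.prod_pow_eq_pow_sum, hd, map_pow]
  ring

theorem coeff_along_weight {N n d : ℕ} (f : MvPolynomial (Fin N) ℂ) (hf : f.IsHomogeneous d)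
    (γ : Fin N × Fin n → ℂ) (s : ℂ) (hs : s ≠ 0) (a b : ℤ) (l : ℕ) :
    (along f (fun q : Fin N × Fin n => s ^ (a * (q.2 : ℕ) + b) * γ q)).coeff l =
      s ^ (a * l + b * d) * (along f γ).coeff l := by
  let φ : Polynomial ℂ →ₐ[ℂ] Polynomial ℂ :=
    Polynomial.aeval (Polynomial.C (s ^ a) * Polynomial.X)
  have hφ : ∀ g : Polynomial ℂ, ∀ k, (φ g).coeff k = g.coeff k * (s ^ a) ^ k := by
    intro g k
    have h1 : φ g = g.comp (Polynomial.C (s ^ a) * Polynomial.X) := by
      show Polynomial.aeval _ g = _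
      rw [Polynomial.aeval_def, Polynomial.comp, Polynomial.algebraMap_eq]
    rw [h1, Polynomial.comp_C_mul_X_coeff]
  have harc : arc (fun q : Fin N × Fin n => s ^ (a * (q.2 : ℕ) + b) * γ q) =
      fun i => Polynomial.C (s ^ b) * φ (arc γ i) := by
    funext i
    ext k
    rw [Polynomial.coeff_C_mul, hφ, a1_arc_coeff, a1_arc_coeff]
    by_cases h : k < n
    · rw [dif_pos h, dif_pos h, zpow_add₀ hs, zpow_mul, zpow_natCast]
      ring
    · rw [dif_neg h, dif_neg h, zero_mul, mul_zero]
  rw [along, harc, c4_aeval_smul f hf, Polynomial.coeff_C_mul]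
  have h2 : aeval (fun i => φ (arc γ i)) f = φ (aeval (arc γ) f) := by
    rw [← MvPolynomial.comp_aeval_apply]
  rw [h2, hφ, zpow_add₀ hs, zpow_mul, zpow_natCast, zpow_mul, zpow_natCast, along]
  ring

theorem chi_BB_lt {χ : K0 →+* ℤ} (hχ : IsEulerCharF χ) {N : ℕ}
    (F : Set (MvPolynomial (Fin N) ℂ)) (hF : ∀ f ∈ F, IsForm f) (e : ℕ)
    (y : MvPolynomial (Fin N) ℂ → ℂ) (m j : ℕ) (hj : j * e < m) :
    χ (cls (BB F e y m j)) = 0 := by
  refine chi_cstar hχ (fun q : Fin N × Fin (m - j + 1) => (e : ℤ) * (q.2 : ℕ) +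
    (-((m : ℤ) - j * e))) _ (constr_BB F e y m j) ?_ ?_
  · intro s hs γ hγ
    obtain ⟨h1, h2⟩ := hγ
    refine ⟨?_, ?_⟩
    · intro h0
      apply h1
      funext i
      have h3 := congrFun h0 i
      simp only [bp, Pi.zero_apply, mul_eq_zero] at h3 ⊢
      exact h3.resolve_left (zpow_ne_zero _ hs)
    · intro f hf l hl
      rw [coeff_along_weight f (hF f hf).2.2 γ s hs (e : ℤ) (-((m : ℤ) - j * e)) l, h2 f hf l hl]
      by_cases h3 : f.totalDegree = e ∧ l + j * e = m
      · rw [if_pos h3]
        have h4 : (e : ℤ) * l + (-((m : ℤ) - j * e)) * (f.totalDegree : ℕ) = 0 := by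
          rw [h3.1]
          have h5 : (m : ℤ) = l + j * e := by exact_mod_cast h3.2.symm
          rw [h5]
          ring
        rw [h4, zpow_zero, one_mul]
      · rw [if_neg h3, mul_zero]
  · intro γ hγ
    obtain ⟨h1, -⟩ := hγ
    have h2 : ∃ i, bp γ i ≠ 0 := by
      by_contra hcon
      push Not at hcon
      exact h1 (funext hcon)
    obtain ⟨i, hi⟩ := h2
    refine ⟨(i, 0), ?_, hi⟩
    have h3 : (j : ℤ) * e < m := by exact_mod_cast hj
    simp only [Fin.val_zero, Nat.cast_zero, mul_zero, zero_add]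
    omega

private theorem c4_along_const {N n : ℕ} (c : Fin N → ℂ) (f : MvPolynomial (Fin N) ℂ) :
    along f (fun q : Fin N × Fin (n + 1) => if q.2 = 0 then c q.1 else 0) =
      Polynomial.C (eval c f) := by
  have h : arc (fun q : Fin N × Fin (n + 1) => if q.2 = 0 then c q.1 else 0) =
      fun i => Polynomial.C (c i) := by
    funext i
    unfold arc
    rw [Finset.sum_eq_single (0 : Fin (n + 1))]
    · simp
    · intro l _ hl
      simp [hl]
    · intro h
      exact absurd (Finset.mem_univ _) h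
  rw [along, h]
  induction f using MvPolynomial.induction_on with
  | C a => simp
  | add a b ha hb => rw [map_add, ha, hb, map_add, map_add]
  | mul_X a i ha => rw [map_mul, ha, aeval_X, map_mul, eval_X, map_mul]

private theorem c4_eval_zero {N d : ℕ} (hd : 0 < d) (f : MvPolynomial (Fin N) ℂ)
    (hf : f.IsHomogeneous d) : eval 0 f = 0 := by
  rw [eval_eq]
  refine Finset.sum_eq_zero fun m hm => ?_
  have h := hf (mem_support_iff.1 hm)
  rw [Finsupp.weight_apply] at h
  have h1 : ∑ i ∈ m.support, m i = d := by simpa [Finsupp.sum] using h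
  have h2 : m.support.Nonempty := by
    rw [Finset.nonempty_iff_ne_empty]
    intro h3
    rw [h3, Finset.sum_empty] at h1
    omega
  obtain ⟨i, hi⟩ := h2
  rw [Finset.prod_eq_zero hi, mul_zero]
  rw [Pi.zero_apply, zero_pow (Finsupp.mem_support_iff.1 hi)]

theorem chi_BB_eq {χ : K0 →+* ℤ} (hχ : IsEulerCharF χ) {N : ℕ}
    (F : Set (MvPolynomial (Fin N) ℂ)) (hF : ∀ f ∈ F, IsForm f) (e : ℕ)
    (y : MvPolynomial (Fin N) ℂ → ℂ) (f₀ : MvPolynomial (Fin N) ℂ) (hf₀ : f₀ ∈ F)
    (he : f₀.totalDegree = e) (hy : y f₀ ≠ 0) (m j : ℕ) (hj0 : 0 < j) (hj : j * e = m) :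
    χ (cls (BB F e y m j)) = χ (cls (fib F e y)) := by
  classical
  set Cs : Set (Fin N × Fin (m - j + 1) → ℂ) := {γ | ∀ q, q.2 ≠ 0 → γ q = 0} with hCs
  have hCsc : Constr Cs := by
    have e1 : Cs = {γ | ∀ g ∈ {g : MvPolynomial (Fin N × Fin (m - j + 1)) ℂ |
        ∃ q : Fin N × Fin (m - j + 1), q.2 ≠ 0 ∧ g = X q}, eval γ g = 0} := by
      ext γ
      rw [hCs, Set.mem_ofPred_eq, Set.mem_ofPred_eq]
      constructor
      · rintro h g ⟨q, hq, rfl⟩
        rw [eval_X]
        exact h q hq
      · intro h q hq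
        have h1 := h (X q) ⟨q, hq, rfl⟩
        rwa [eval_X] at h1
    rw [e1]
    exact constr_zeroLocus _
  have hB := constr_BB F e y m j
  have hsplit : BB F e y m j = (BB F e y m j ∩ Cs) ∪ (BB F e y m j \ Cs) :=
    (Set.inter_union_sdiff _ _).symm
  have h0 : χ (cls (BB F e y m j \ Cs)) = 0 := by
    refine chi_cstar hχ (fun q : Fin N × Fin (m - j + 1) => ((q.2 : ℕ) : ℤ)) _ (hB.diff hCsc)
      ?_ ?_
    · rintro s hs γ ⟨⟨h1, h2⟩, h3⟩
      have hfun : (fun q : Fin N × Fin (m - j + 1) => s ^ (((q.2 : ℕ) : ℤ)) * γ q) =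
          fun q : Fin N × Fin (m - j + 1) => s ^ ((1 : ℤ) * (q.2 : ℕ) + 0) * γ q := by
        funext q
        rw [one_mul, add_zero]
      refine ⟨⟨?_, ?_⟩, ?_⟩
      · intro h4
        apply h1
        funext i
        have h5 := congrFun h4 i
        simpa [bp] using h5
      · intro f hf l hl
        rw [hfun, coeff_along_weight f (hF f hf).2.2 γ s hs 1 0 l, h2 f hf l hl]
        by_cases h4 : f.totalDegree = e ∧ l + j * e = m
        · have h5 : l = 0 := by omega
          rw [if_pos h4, h5]
          simp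
        · rw [if_neg h4, mul_zero]
      · intro h4
        apply h3
        intro q hq
        have h5 := h4 q hq
        exact (mul_eq_zero.1 h5).resolve_left (zpow_ne_zero _ hs)
    · rintro γ ⟨_, h3⟩
      rw [hCs, Set.mem_ofPred_eq] at h3
      push Not at h3
      obtain ⟨q, hq, hq'⟩ := h3
      refine ⟨q, ?_, hq'⟩
      intro h4
      apply hq
      apply Fin.ext
      simpa using h4
  have hiso : cls (BB F e y m j ∩ Cs) = cls (fib F e y) := by
    refine cls_iso (hB.inter hCsc) (constr_fib F e y) ?_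
    refine ⟨fun γ i => γ (i, 0), fun x q => if q.2 = 0 then x q.1 else 0,
      fun i => regFun_coord _ _, fun q => ?_, ?_, ?_, ?_, ?_⟩
    · by_cases hq : q.2 = 0
      · simp only [hq, if_true]
        exact regFun_coord _ _
      · simp only [hq, if_false]
        exact regFun_const _ 0
    · rintro γ ⟨⟨_, h2⟩, _⟩ f hf
      have h3 := LF.coeff_along_zero (γ := γ) f
      refine ⟨fun h4 => ?_, fun h4 => ?_⟩
      · have h5 := h2 f hf 0 (by
          rw [zero_add, ← hj]
          exact Nat.mul_le_mul_left j h4.le)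
        rw [if_neg (by omega), h3] at h5
        exact h5
      · have h5 := h2 f hf 0 (by rw [zero_add, h4, hj])
        rw [if_pos ⟨h4, by omega⟩, h3] at h5
        exact h5
    · intro x hx
      refine ⟨⟨?_, ?_⟩, ?_⟩
      · intro h4
        have h5 : x = 0 := by
          funext i
          have h6 := congrFun h4 i
          simpa [bp] using h6
        have h6 := (hx f₀ hf₀).2 he
        rw [h5, c4_eval_zero (hF f₀ hf₀).2.1 f₀ (hF f₀ hf₀).2.2] at h6
        exact hy h6.symm
      · intro f hf l hl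
        rw [c4_along_const, Polynomial.coeff_C]
        by_cases hl0 : l = 0
        · subst hl0
          rw [if_pos rfl]
          have h4 : f.totalDegree ≤ e := by
            rw [zero_add, ← hj] at hl
            exact Nat.le_of_mul_le_mul_left hl hj0
          rcases lt_or_eq_of_le h4 with h5 | h5
          · rw [if_neg (by omega)]
            exact (hx f hf).1 h5
          · rw [if_pos ⟨h5, by omega⟩]
            exact (hx f hf).2 h5
        · rw [if_neg hl0, if_neg]
          rintro ⟨_, h6⟩
          omega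
      · intro q hq
        show (if q.2 = 0 then x q.1 else 0) = 0
        rw [if_neg hq]
    · rintro γ ⟨_, h3⟩
      funext q
      by_cases hq : q.2 = 0
      · show (if q.2 = 0 then γ (q.1, 0) else 0) = γ q
        rw [if_pos hq, ← hq]
      · show (if q.2 = 0 then γ (q.1, 0) else 0) = γ q
        rw [if_neg hq, h3 q hq]
    · intro x _
      funext i
      simp
  rw [hsplit, cls_union (hB.inter hCsc) (hB.diff hCsc) (Set.disjoint_sdiff_inter.symm), map_add,
    h0, add_zero, hiso]

end CN
end MotMono
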