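import Pool.Agent.Lib.MP_4e5fcd_ag.CN.Base

/-!
# CN-C1: actions of the multiplicative group without fixed points

`E ⊆ ℂ^τ` is stable under `z ↦ (s^(w q) z q)` (`s ≠ 0`), and every point of `E` has a non-zero
coordinate of non-zero weight. Then `χ (E) = 0`.
Let `T = {q | w q ≠ 0}`, choose an injection `r : τ → ℕ` (`Finite`, `Fintype.equivFin`). For `q ∈ T`
let `E_q = {z ∈ E | z q ≠ 0 ∧ ∀ q' ∈ T, r q' < r q → z q' = 0}`. `E` is the disjoint union of the
`E_q` (`cls_biUnion`), each is stable. `χ (E_q) = 0`: let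
`X = {z : τ ⊕ Unit → ℂ | z ∘ inl ∈ E_q ∧ z (inr ()) = z (inl q)}`, isomorphic to `E_q`; the
fibre over `a ≠ 0` is `{z ∈ E_q | z q = a}`, isomorphic to `{z ∈ E_q | z q = 1}` by
`z ↦ (s^(w q') z q')` with `s^(w q) = a⁻¹` (`IsAlgClosed.exists_pow_nat_eq`, for negative `w q` take
the inverse), inverse map with `s⁻¹` (both are coordinates times constants: `RegIso`); the fibre
over `0` is empty. `LF.chi_fib_const` with `Y = {a | a () ≠ 0}`, `n = χ (fibre over 1)`, and
`χ (Y) = χ LL - 1 = 0` (`cls_diff`, `cls_singleton`).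
-/

open MvPolynomial

namespace MotMono
namespace CN

private theorem c1_root (a : ℂ) (ha : a ≠ 0) (k : ℤ) (hk : k ≠ 0) :
    ∃ s : ℂ, s ≠ 0 ∧ s ^ k = a := by
  have hm : 0 < k.natAbs := Int.natAbs_pos.2 hk
  rcases Int.natAbs_eq k with h | h
  · obtain ⟨s, hs⟩ := IsAlgClosed.exists_pow_nat_eq a hm
    refine ⟨s, ?_, ?_⟩
    · rintro rfl
      rw [zero_pow hm.ne'] at hs
      exact ha hs.symm
    · rw [h, zpow_natCast]; exact hs
  · obtain ⟨s, hs⟩ := IsAlgClosed.exists_pow_nat_eq a⁻¹ hm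
    refine ⟨s, ?_, ?_⟩
    · rintro rfl
      rw [zero_pow hm.ne'] at hs
      exact inv_ne_zero ha hs.symm
    · rw [h, zpow_neg, zpow_natCast, hs, inv_inv]

private theorem c1_one {χ : K0 →+* ℤ} (hχ : IsEulerCharF χ) {τ : Type} [Finite τ] (w : τ → ℤ)
    (E : Set (τ → ℂ)) (hE : Constr E)
    (hs : ∀ s : ℂ, s ≠ 0 → ∀ z ∈ E, (fun q => s ^ (w q) * z q) ∈ E)
    (q : τ) (hw : w q ≠ 0) (hq : ∀ z ∈ E, z q ≠ 0) : χ (cls E) = 0 := by
  set X : Set (τ ⊕ Unit → ℂ) := {z | (fun j => z (Sum.inl j)) ∈ E} ∩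
    {z | eval z (X (Sum.inr ()) : MvPolynomial (τ ⊕ Unit) ℂ) =
      eval z (X (Sum.inl q) : MvPolynomial (τ ⊕ Unit) ℂ)} with hX
  have hXc : Constr X := (hE.comp (Sum.inl : τ → τ ⊕ Unit)).inter (constr_eq _ _)
  have hXm : ∀ z : τ ⊕ Unit → ℂ, z ∈ X ↔ (fun j => z (Sum.inl j)) ∈ E ∧
      z (Sum.inr ()) = z (Sum.inl q) := by
    intro z
    simp only [hX, Set.mem_inter_iff, Set.mem_ofPred_eq, eval_X]
  have hiso : RegIso E X := by
    refine ⟨fun x => Sum.elim x (fun _ => x q), fun z j => z (Sum.inl j), ?_, ?_, ?_, ?_, ?_, ?_⟩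
    · rintro (j | j)
      · exact regFun_coord E j
      · exact regFun_coord E q
    · intro j
      exact regFun_coord X (Sum.inl j)
    · intro x hx
      exact (hXm _).2 ⟨hx, rfl⟩
    · intro z hz
      exact ((hXm _).1 hz).1
    · intro x _
      rfl
    · intro z hz
      funext j
      rcases j with j | j
      · rfl
      · exact ((hXm _).1 hz).2.symm
  rw [cls_iso hE hXc hiso]
  have hYc : Constr {y : Unit → ℂ | y () ≠ 0} := by
    have h := constr_ne (MvPolynomial.X () : MvPolynomial Unit ℂ)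
    simpa using h
  have hY : χ (cls {y : Unit → ℂ | y () ≠ 0}) = 0 := by
    have e : {y : Unit → ℂ | y () ≠ 0} = Set.univ \ {0} := by
      ext y
      simp only [Set.mem_ofPred_eq, Set.mem_sdiff, Set.mem_univ, true_and, Set.mem_singleton_iff]
      constructor
      · intro h h0
        exact h (by rw [h0]; rfl)
      · intro h h0
        exact h (funext fun _ => h0)
    rw [e, cls_diff constr_univ (constr_singleton 0) (Set.subset_univ _), cls_singleton, map_sub,
      map_one]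
    have := hχ.line
    unfold LL at this
    rw [this, sub_self]
  have hE1 : Constr {x : τ → ℂ | x ∈ E ∧ x q = 1} := by
    have h := hE.inter (constr_eq (MvPolynomial.X q : MvPolynomial τ ℂ) (C 1))
    have e : E ∩ {x | eval x (MvPolynomial.X q : MvPolynomial τ ℂ) =
        eval x (C 1 : MvPolynomial τ ℂ)} = {x : τ → ℂ | x ∈ E ∧ x q = 1} := by
      ext x
      simp only [Set.mem_inter_iff, Set.mem_ofPred_eq, eval_X, eval_C]
    rwa [e] at h
  have key := LF.chi_fib_const hχ hXc hYc (χ (cls {x : τ → ℂ | x ∈ E ∧ x q = 1})) ?_ ?_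
  · rw [key, hY, mul_zero]
  · intro y hy
    have hy0 : y () ≠ 0 := hy
    have hfm : ∀ x : τ → ℂ, x ∈ {x : τ → ℂ | Sum.elim x y ∈ X} ↔ x ∈ E ∧ y () = x q := by
      intro x
      rw [Set.mem_ofPred_eq, hXm]
      rfl
    have hfc : Constr {x : τ → ℂ | Sum.elim x y ∈ X} := by
      have h := hE.inter (constr_eq (C (y ())) (MvPolynomial.X q : MvPolynomial τ ℂ))
      have e : E ∩ {x | eval x (C (y ()) : MvPolynomial τ ℂ) =
          eval x (MvPolynomial.X q : MvPolynomial τ ℂ)} = {x : τ → ℂ | Sum.elim x y ∈ X} := by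
        ext x
        rw [hfm]
        simp only [Set.mem_inter_iff, Set.mem_ofPred_eq, eval_X, eval_C]
      rwa [e] at h
    obtain ⟨s, hs0, hsq⟩ := c1_root (y ())⁻¹ (inv_ne_zero hy0) (w q) hw
    congr 1
    refine cls_iso hfc hE1 ?_
    refine ⟨fun x j => s ^ (w j) * x j, fun x j => s⁻¹ ^ (w j) * x j, ?_, ?_, ?_, ?_, ?_, ?_⟩
    · intro j
      exact (regFun_const _ _).mul (regFun_coord _ j)
    · intro j
      exact (regFun_const _ _).mul (regFun_coord _ j)
    · intro x hx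
      obtain ⟨hx1, hx2⟩ := (hfm x).1 hx
      refine ⟨hs s hs0 x hx1, ?_⟩
      show s ^ (w q) * x q = 1
      rw [hsq, ← hx2, inv_mul_cancel₀ hy0]
    · intro x hx
      obtain ⟨hx1, hx2⟩ := hx
      refine (hfm _).2 ⟨hs s⁻¹ (inv_ne_zero hs0) x hx1, ?_⟩
      show y () = s⁻¹ ^ (w q) * x q
      rw [inv_zpow, hsq, inv_inv, hx2, mul_one]
    · intro x _
      funext j
      show s⁻¹ ^ (w j) * (s ^ (w j) * x j) = x j
      rw [inv_zpow, ← mul_assoc, inv_mul_cancel₀ (zpow_ne_zero _ hs0), one_mul]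
    · intro x _
      funext j
      show s ^ (w j) * (s⁻¹ ^ (w j) * x j) = x j
      rw [inv_zpow, ← mul_assoc, mul_inv_cancel₀ (zpow_ne_zero _ hs0), one_mul]
  · intro y hy x hx
    have hy0 : y () = 0 := by
      by_contra h
      exact hy h
    obtain ⟨h1, h2⟩ := (hXm _).1 hx
    have h3 : y () = x q := h2
    exact hq x h1 (by rw [← h3]; exact hy0)

private theorem c1_all {χ : K0 →+* ℤ} (hχ : IsEulerCharF χ) {τ : Type} [Finite τ] (w : τ → ℤ)
    (T : Finset τ) : ∀ (E : Set (τ → ℂ)), Constr E →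
    (∀ s : ℂ, s ≠ 0 → ∀ z ∈ E, (fun q => s ^ (w q) * z q) ∈ E) →
    (∀ z ∈ E, ∃ q ∈ T, w q ≠ 0 ∧ z q ≠ 0) → χ (cls E) = 0 := by
  classical
  induction T using Finset.induction_on with
  | empty =>
    intro E _ _ hn
    have : E = ∅ := by
      ext z
      simp only [Set.mem_empty_iff_false, iff_false]
      intro hz
      obtain ⟨q, hq, _⟩ := hn z hz
      simp at hq
    rw [this, cls_empty, map_zero]
  | insert a T _ ih =>
    intro E hE hs hn
    by_cases hw : w a = 0
    · refine ih E hE hs (fun z hz => ?_)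
      obtain ⟨q, hq, h1, h2⟩ := hn z hz
      rw [Finset.mem_insert] at hq
      rcases hq with rfl | hq
      · exact absurd hw h1
      · exact ⟨q, hq, h1, h2⟩
    · have hc := constr_ne (MvPolynomial.X a : MvPolynomial τ ℂ)
      set F : Set (τ → ℂ) := {x | eval x (MvPolynomial.X a : MvPolynomial τ ℂ) ≠ 0} with hF
      have hFm : ∀ x, x ∈ F ↔ x a ≠ 0 := by
        intro x
        simp only [hF, Set.mem_ofPred_eq, eval_X]
      have e : E = (E ∩ F) ∪ (E \ F) := (Set.inter_union_sdiff E F).symm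
      have hd : Disjoint (E ∩ F) (E \ F) := by
        rw [Set.disjoint_left]
        intro x hx hx'
        exact hx'.2 hx.2
      have h1 : χ (cls (E ∩ F)) = 0 := by
        refine c1_one hχ w (E ∩ F) (hE.inter hc) ?_ a hw ?_
        · intro s hs0 z hz
          refine ⟨hs s hs0 z hz.1, (hFm _).2 ?_⟩
          exact mul_ne_zero (zpow_ne_zero _ hs0) ((hFm _).1 hz.2)
        · intro z hz
          exact (hFm _).1 hz.2
      have h2 : χ (cls (E \ F)) = 0 := by
        refine ih (E \ F) (hE.diff hc) ?_ ?_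
        · intro s hs0 z hz
          refine ⟨hs s hs0 z hz.1, fun h => hz.2 ((hFm _).2 ?_)⟩
          have h3 := (hFm _).1 h
          exact right_ne_zero_of_mul h3
        · intro z hz
          obtain ⟨q, hq, h3, h4⟩ := hn z hz.1
          rw [Finset.mem_insert] at hq
          rcases hq with rfl | hq
          · exact absurd ((hFm z).2 h4) hz.2
          · exact ⟨q, hq, h3, h4⟩
      rw [e, cls_union (hE.inter hc) (hE.diff hc) hd, map_add, h1, h2, add_zero]

theorem chi_cstar {χ : K0 →+* ℤ} (hχ : IsEulerCharF χ) {τ : Type} [Finite τ] (w : τ → ℤ)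
    (E : Set (τ → ℂ)) (hE : Constr E)
    (hs : ∀ s : ℂ, s ≠ 0 → ∀ z ∈ E, (fun q => s ^ (w q) * z q) ∈ E)
    (hn : ∀ z ∈ E, ∃ q, w q ≠ 0 ∧ z q ≠ 0) : χ (cls E) = 0 := by
  classical
  have := Fintype.ofFinite τ
  refine c1_all hχ w Finset.univ E hE hs (fun z hz => ?_)
  obtain ⟨q, h⟩ := hn z hz
  exact ⟨q, Finset.mem_univ q, h⟩

end CN
end MotMono
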