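import Pool.Agent.Lib.MP_4e5fcd_ag.CN.P3

/-!
# CN-P4: the ring of power series with poles different from `s₀`

`polarRing s₀` is `Subring.closure` of the polynomials and of the inverses of the
`1 - C (L^(-a)) X^b`, `-a/b ≠ s₀`. `C a` and `X ^ n` are polynomials (`Polynomial.coe_C`, ...).
`mem_polar_of_mul`: let `g` be the inverse of `D = 1 - C (L^(-a)) X^b` (it exists: constant
coefficient `1`, `PowerSeries.isUnit_iff_constantCoeff`, or
`PowerSeries.invOfUnit`); `g ∈ polarRing s₀`, and `Z = (Z * D) * g`.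
`cover_polar`: induction on the finset `S` (for all `Γ`): for `S = insert h S'` split
`Γ = (Γ ∩ {h ≠ 0}) ∪ (Γ ∩ {h = 0})` (`Zf_union`, `constr_ne` with
`rename Sum.inr h`, `eval_rename`); `S = ∅`: `Γ = ∅`, `Zf_empty`.
-/

open MvPolynomial

namespace MotMono
namespace CN

theorem C_mem_polar (s₀ : ℚ) (a : MC) : PowerSeries.C a ∈ polarRing s₀ :=
  Subring.subset_closure (Or.inl ⟨Polynomial.C a, (Polynomial.coe_C a).symm⟩)

theorem X_pow_mem_polar (s₀ : ℚ) (n : ℕ) : (PowerSeries.X : PowerSeries MC) ^ n ∈ polarRing s₀ :=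
  Subring.subset_closure (Or.inl ⟨Polynomial.X ^ n, by rw [Polynomial.coe_pow, Polynomial.coe_X]⟩)

theorem mem_polar_of_mul (s₀ : ℚ) (a : ℤ) (b : ℕ) (hb : 0 < b) (h : -(a : ℚ) / b ≠ s₀)
    (Z : PowerSeries MC)
    (hZ : Z * (1 - PowerSeries.C ((Lu ^ (-a) : MCˣ) : MC) * PowerSeries.X ^ b) ∈ polarRing s₀) :
    Z ∈ polarRing s₀ := by
  have h1 : IsUnit (1 - PowerSeries.C ((Lu ^ (-a) : MCˣ) : MC) *
      (PowerSeries.X : PowerSeries MC) ^ b) := by
    rw [PowerSeries.isUnit_iff_constantCoeff]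
    have h2 : PowerSeries.constantCoeff (1 - PowerSeries.C ((Lu ^ (-a) : MCˣ) : MC) *
        (PowerSeries.X : PowerSeries MC) ^ b) = 1 := by
      rw [map_sub, map_one, map_mul, map_pow PowerSeries.constantCoeff PowerSeries.X,
        PowerSeries.constantCoeff_X, zero_pow hb.ne', mul_zero, sub_zero]
    rw [h2]
    exact isUnit_one
  obtain ⟨g, hg⟩ := h1.exists_left_inv
  have hg' : g ∈ polarRing s₀ := Subring.subset_closure (Or.inr ⟨a, b, hb, h, hg⟩)
  have e : Z = Z * (1 - PowerSeries.C ((Lu ^ (-a) : MCˣ) : MC) * PowerSeries.X ^ b) * g := by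
    rw [mul_assoc, mul_comm _ g, hg, mul_one]
  rw [e]
  exact Subring.mul_mem _ hZ hg'

theorem cover_polar {N : ℕ} {σ : Type} [Finite σ] (I : Ideal (MvPolynomial (Fin N) ℂ)) (s₀ : ℚ)
    (S : Finset (MvPolynomial (Fin N) ℂ))
    (hS : ∀ h ∈ S, ∀ Γ : Set (σ ⊕ Fin N → ℂ), Constr Γ →
      (∀ z ∈ Γ, eval (fun i => z (Sum.inr i)) h ≠ 0) → Zf I Γ ∈ polarRing s₀)
    (Γ : Set (σ ⊕ Fin N → ℂ)) (hΓ : Constr Γ)
    (hc : ∀ z ∈ Γ, ∃ h ∈ S, eval (fun i => z (Sum.inr i)) h ≠ 0) : Zf I Γ ∈ polarRing s₀ := by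
  classical
  induction S using Finset.induction_on generalizing Γ with
  | empty =>
    have e : Γ = ∅ := by
      rw [Set.eq_empty_iff_forall_notMem]
      intro z hz
      obtain ⟨h, hh, -⟩ := hc z hz
      exact absurd hh (Finset.notMem_empty h)
    rw [e, Zf_empty]
    exact Subring.zero_mem _
  | insert h S' hh ih =>
    have hA : Constr {z : σ ⊕ Fin N → ℂ | eval (fun i => z (Sum.inr i)) h = 0} :=
      (Constr.zeroSet h).comp Sum.inr
    have e : Γ = (Γ ∩ {z | eval (fun i => z (Sum.inr i)) h = 0}) ∪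
        (Γ \ {z | eval (fun i => z (Sum.inr i)) h = 0}) := (Set.inter_union_sdiff _ _).symm
    rw [e, Zf_union I (hΓ.inter hA) (hΓ.diff hA) (Set.disjoint_sdiff_inter.symm)]
    refine Subring.add_mem _ ?_ ?_
    · refine ih (fun h' hh' => hS h' (Finset.mem_insert_of_mem hh')) _ (hΓ.inter hA) ?_
      rintro z ⟨hz1, hz2⟩
      obtain ⟨h', hh', hne⟩ := hc z hz1
      rw [Finset.mem_insert] at hh'
      rcases hh' with rfl | hh'
      · exact absurd hz2 hne
      · exact ⟨h', hh', hne⟩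
    · refine hS h (Finset.mem_insert_self _ _) _ (hΓ.diff hA) ?_
      rintro z ⟨_, hz2⟩
      exact hz2

end CN
end MotMono
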