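import Pool.Agent.Lib.MP_4e5fcd_ag.CN.E1
import Pool.Agent.Lib.MP_4e5fcd_ag.CN.P2

/-!
# CN-E3: contact orders in a chart

Put `δ = cj (u ∘ e) γ`. By `along_cj`, coefficient `l ≤ n` of `(aeval (u ∘ e) g) (γ)` is
coefficient `l` of `g (δ)`. The factor `h` has `eval (bp γ) h ≠ 0`, so `along h γ` has a non-zero
constant coefficient and multiplication by it does not change the order and multiplies the leading
coefficient by `eval (bp γ) h` (`coeff_mul_lt`, `coeff_mul_eq` of CN-P2; for the converse direction: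
if all coefficients `< k` of `h f` vanish then so do those of `f`: strong induction, or
`X ^ k ∣ along h γ * along f γ` and `along h γ` is coprime to `X`).
* `ordGe_chart`, `→`: `g ∈ G`: `h * aeval g ∈ I`. `←`: `f ∈ I`: `h * f` is in the span of the
  `aeval g`, `g ∈ G` (`ordGe_span`).
* `ne_chart`: `→`: if all coefficients `n` of `g (δ)` vanish, then `OrdGe G (n+1) δ`, hence
  `OrdGe I (n+1) γ` by `ordGe_chart` (`k = n + 1`). Same for `←`.
* `mem_CA_chart`: `→`: for `g ∈ G` apply the hypothesis to `h * aeval g ∈ I`: leading coefficients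
  `eval p h * coeff_m (g (cj γ)) = eval p h * coeff_n (g (cj γ₀))` (`p = bp γ = bp γ₀`).
  `←`: for `f ∈ I` use `h * f ∈ Ideal.span S`, `S = {aeval g}`; by `mem_CA_span` for the set `S`
  (`OrdGe (Ideal.span S) n γ₀` from `ordGe_span` and `ordGe_chart`), the leading coefficients of
  `h * f` along `γ` and `γ₀` agree; divide by `eval p h`.
-/

open MvPolynomial

namespace MotMono
namespace CN

variable {N k : ℕ} {I : Ideal (MvPolynomial (Fin N) ℂ)} {G : Ideal (MvPolynomial (Fin k) ℂ)}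
  {u : Fin N → MvPolynomial (Fin N) ℂ} {e : Fin k → Fin N} {h : MvPolynomial (Fin N) ℂ}

private theorem e3_cancel {N n : ℕ} (a f : MvPolynomial (Fin N) ℂ) (γ : Fin N × Fin (n + 1) → ℂ)
    (ha : eval (bp γ) a ≠ 0) (m : ℕ) (h : ∀ l < m, (along (a * f) γ).coeff l = 0) :
    ∀ l < m, (along f γ).coeff l = 0 := by
  intro l
  induction l using Nat.strong_induction_on with
  | _ l ih =>
    intro hl
    have h1 := coeff_mul_eq a f γ l (fun l' hl' => ih l' hl' (hl'.trans hl))
    rw [h l hl] at h1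
    exact (mul_eq_zero.mp h1.symm).resolve_left ha

theorem ordGe_chart (c : Chart I G u e h) {n m : ℕ} (γ : Fin N × Fin (n + 1) → ℂ)
    (hp : eval (bp γ) h ≠ 0) (hm : m ≤ n + 1) :
    OrdGe I m γ ↔ OrdGe G m (cj (fun i => u (e i)) γ) := by
  constructor
  · intro ho g hg l hl
    rw [← along_cj _ _ _ _ (lt_of_lt_of_le hl hm)]
    exact e3_cancel h _ γ hp m (fun l' hl' => ho _ (c.push g hg) l' hl') l hl
  · intro ho f hf l hl
    have h1 : OrdGe (Ideal.span {f' | ∃ g ∈ G, f' = aeval (fun i => u (e i)) g}) m γ := by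
      rw [ordGe_span]
      rintro f' ⟨g, hg, rfl⟩ l' hl'
      rw [along_cj _ _ _ _ (lt_of_lt_of_le hl' hm)]
      exact ho g hg l' hl'
    exact e3_cancel h f γ hp m (fun l' hl' => h1 _ (c.pull f hf) l' hl') l hl

theorem ne_chart (c : Chart I G u e h) {n : ℕ} (γ : Fin N × Fin (n + 1) → ℂ)
    (hp : eval (bp γ) h ≠ 0) (ho : OrdGe I n γ) :
    (∃ f ∈ I, (along f γ).coeff n ≠ 0) ↔
      ∃ g ∈ G, (along g (cj (fun i => u (e i)) γ)).coeff n ≠ 0 := by
  have ho' := (ordGe_chart c γ hp (Nat.le_succ n)).mp ho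
  have h1 := ordGe_chart c γ hp (m := n + 1) le_rfl
  constructor
  · rintro ⟨f, hf, hne⟩
    by_contra hcon
    push Not at hcon
    apply hne
    refine h1.mpr ?_ f hf n (Nat.lt_succ_self n)
    intro g hg l hl
    rcases Nat.lt_succ_iff_lt_or_eq.mp hl with h2 | h2
    · exact ho' g hg l h2
    · rw [h2]
      exact hcon g hg
  · rintro ⟨g, hg, hne⟩
    by_contra hcon
    push Not at hcon
    apply hne
    refine h1.mp ?_ g hg n (Nat.lt_succ_self n)
    intro f hf l hl
    rcases Nat.lt_succ_iff_lt_or_eq.mp hl with h2 | h2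
    · exact ho f hf l h2
    · rw [h2]
      exact hcon f hf

theorem mem_CA_chart (c : Chart I G u e h) {n m : ℕ} (γ₀ : Fin N × Fin (n + 1) → ℂ)
    (hp : eval (bp γ₀) h ≠ 0) (ho : OrdGe I n γ₀) (γ : Fin N × Fin (m + 1) → ℂ)
    (hb : bp γ = bp γ₀) :
    γ ∈ CA I (bp γ₀) (fun f => (along f γ₀).coeff n) m ↔
      cj (fun i => u (e i)) γ ∈ CA G (bp (cj (fun i => u (e i)) γ₀))
        (fun g => (along g (cj (fun i => u (e i)) γ₀)).coeff n) m := by
  have hp' : eval (bp γ) h ≠ 0 := by rw [hb]; exact hp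
  have ho' := (ordGe_chart c γ₀ hp (Nat.le_succ n)).mp ho
  constructor
  · rintro ⟨_, h2⟩
    refine ⟨fun i => ?_, fun g hg => ?_⟩
    · have h3 : bp (cj (fun i => u (e i)) γ) = bp (cj (fun i => u (e i)) γ₀) := by
        rw [bp_cj, bp_cj, hb]
      exact congrFun h3 i
    · obtain ⟨h3, h4⟩ := h2 _ (c.push g hg)
      have h5 := e3_cancel h _ γ hp' m h3
      have h6 := e3_cancel h _ γ₀ hp n (fun l hl => ho _ (c.push g hg) l hl)
      refine ⟨fun l hl => ?_, ?_⟩
      · rw [← along_cj _ _ _ _ (hl.trans (Nat.lt_succ_self m))]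
        exact h5 l hl
      · beta_reduce at h4 ⊢
        rw [← along_cj _ _ _ _ (Nat.lt_succ_self m), ← along_cj _ _ _ _ (Nat.lt_succ_self n)]
        rw [coeff_mul_eq _ _ _ _ h5, coeff_mul_eq _ _ _ _ h6, hb] at h4
        exact mul_left_cancel₀ hp h4
  · rintro ⟨_, h2⟩
    refine ⟨fun i => congrFun hb i, fun f hf => ?_⟩
    have h3 : OrdGe (Ideal.span {f' | ∃ g ∈ G, f' = aeval (fun i => u (e i)) g}) n γ₀ := by
      rw [ordGe_span]
      rintro f' ⟨g, hg, rfl⟩ l' hl'
      rw [along_cj _ _ _ _ (hl'.trans (Nat.lt_succ_self n))]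
      exact ho' g hg l' hl'
    have h4 := (mem_CA_span {f' | ∃ g ∈ G, f' = aeval (fun i => u (e i)) g} γ₀ h3 γ).mpr ⟨hb, by
      rintro f' ⟨g, hg, rfl⟩
      obtain ⟨h5, h6⟩ := h2 g hg
      refine ⟨fun l hl => ?_, ?_⟩
      · rw [along_cj _ _ _ _ (hl.trans (Nat.lt_succ_self m))]
        exact h5 l hl
      · rw [along_cj _ _ _ _ (Nat.lt_succ_self m), along_cj _ _ _ _ (Nat.lt_succ_self n)]
        exact h6⟩
    obtain ⟨h5, h6⟩ := h4.2 _ (c.pull f hf)
    have h7 := e3_cancel h _ γ hp' m h5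
    have h8 := fun l hl => ho f hf l hl
    refine ⟨h7, ?_⟩
    beta_reduce at h6 ⊢
    rw [coeff_mul_eq _ _ _ _ h7, coeff_mul_eq _ _ _ _ h8, hb] at h6
    exact mul_left_cancel₀ hp h6

end CN
end MotMono
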