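import Pool.Agent.Lib.MP_4e5fcd_ag.CN.E2
import Pool.Agent.Lib.MP_4e5fcd_ag.CN.E3
import Pool.Agent.Lib.MP_4e5fcd_ag.CN.P1

/-!
# CN-E4: zeta functions of families in a chart

Let `v = u ∘ e`, `ι = {i // i ∉ Set.range e}` (cardinality `N - k`). For every `K` there is a
`RegIso` between `fam I Γ K` and `prodSet (fam G (push v Γ) K) (univ : Set (ι × Fin K → ℂ))`:
`(w, γ) ↦ (((w, bp γ), cj v γ), (i, l) ↦ cj u γ (i, l + 1))`, inverse
`(((w, p), δ), ρ) ↦ (w, Ψ (p, δ'))`, `δ' (e i, l) = δ (i, l)`, `δ' (i, l + 1) = ρ (i, l)` for `i` not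
in the range (and `δ' (i, 0) = 0`), `Ψ` from `exists_lift` (CN-E2). By `ordGe_chart`, `ne_chart`
(with `n = K`), `γ ∈ ExOrd I K ↔ cj v γ ∈ ExOrd G K`. `bp_cj` gives the base point condition in
`push`. Regularity: `exists_alongPoly`, `regFun_poly`, `RegFun.comp`. `Γ ⊆ {jacDet u ≠ 0}`.
`cls_prodSet`, `cls_univ` (`LL ^ Fintype.card`), so `[fam I Γ K] = [fam G (push v Γ) K] L^((N-k)K)`;
in `MC` the class `L` is `Lu`. The exponents: `(N-k)K - N(K+1) = - k(K+1) + (k - N)`.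
-/

open MvPolynomial

namespace MotMono
namespace CN

variable {N k : ℕ} {I : Ideal (MvPolynomial (Fin N) ℂ)} {G : Ideal (MvPolynomial (Fin k) ℂ)}
  {u : Fin N → MvPolynomial (Fin N) ℂ} {e : Fin k → Fin N} {h : MvPolynomial (Fin N) ℂ}

/-- the coordinates which are not among the first -/
private abbrev E4i (e : Fin k → Fin N) : Type := {j : Fin N // j ∉ Set.range e}

open Classical in
/-- the data for the lift -/
private noncomputable def E4Z {σ : Type} (e : Fin k → Fin N) (K : ℕ)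
    (y : ((σ ⊕ Fin N) ⊕ (Fin k × Fin (K + 1))) ⊕ (E4i e × Fin K) → ℂ) :
    Fin N ⊕ (Fin N × Fin (K + 1)) → ℂ :=
  Sum.elim (fun i => y (Sum.inl (Sum.inl (Sum.inr i)))) fun q =>
    if h : q.1 ∈ Set.range e then y (Sum.inl (Sum.inr (h.choose, q.2)))
    else Fin.cases (motive := fun _ => ℂ) 0 (fun l => y (Sum.inr (⟨q.1, h⟩, l))) q.2

private theorem E4Z_inl {σ : Type} (e : Fin k → Fin N) (K : ℕ)
    (y : ((σ ⊕ Fin N) ⊕ (Fin k × Fin (K + 1))) ⊕ (E4i e × Fin K) → ℂ) (i : Fin N) :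
    E4Z e K y (Sum.inl i) = y (Sum.inl (Sum.inl (Sum.inr i))) := rfl

private theorem E4Z_range {σ : Type} {e : Fin k → Fin N} (he : Function.Injective e) (K : ℕ)
    (y : ((σ ⊕ Fin N) ⊕ (Fin k × Fin (K + 1))) ⊕ (E4i e × Fin K) → ℂ) (i : Fin k)
    (l : Fin (K + 1)) : E4Z e K y (Sum.inr (e i, l)) = y (Sum.inl (Sum.inr (i, l))) := by
  have h : e i ∈ Set.range e := ⟨i, rfl⟩
  have h1 : E4Z e K y (Sum.inr (e i, l)) = y (Sum.inl (Sum.inr (h.choose, l))) := dif_pos h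
  rw [h1, he h.choose_spec]

private theorem E4Z_succ {σ : Type} {e : Fin k → Fin N} (K : ℕ)
    (y : ((σ ⊕ Fin N) ⊕ (Fin k × Fin (K + 1))) ⊕ (E4i e × Fin K) → ℂ) (j : E4i e) (l : Fin K) :
    E4Z e K y (Sum.inr (j.1, l.succ)) = y (Sum.inr (j, l)) :=
  dif_neg j.2

private theorem E4Z_pos {σ : Type} (e : Fin k → Fin N) (K : ℕ)
    (y : ((σ ⊕ Fin N) ⊕ (Fin k × Fin (K + 1))) ⊕ (E4i e × Fin K) → ℂ) (j : Fin N)
    (l : Fin (K + 1)) (h : j ∈ Set.range e) :
    E4Z e K y (Sum.inr (j, l)) = y (Sum.inl (Sum.inr (h.choose, l))) := dif_pos h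

private theorem E4Z_zero {σ : Type} (e : Fin k → Fin N) (K : ℕ)
    (y : ((σ ⊕ Fin N) ⊕ (Fin k × Fin (K + 1))) ⊕ (E4i e × Fin K) → ℂ) (j : Fin N)
    (h : j ∉ Set.range e) :
    E4Z e K y (Sum.inr (j, 0)) = 0 := dif_neg h

private theorem E4Z_reg {σ : Type} (e : Fin k → Fin N) (K : ℕ)
    (F : Set (((σ ⊕ Fin N) ⊕ (Fin k × Fin (K + 1))) ⊕ (E4i e × Fin K) → ℂ)) :
    RegularOn F (E4Z e K) := by
  classical
  rintro (i | ⟨j, l⟩)
  · exact regFun_coord _ _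
  · by_cases h : j ∈ Set.range e
    · refine (regFun_coord F (Sum.inl (Sum.inr (h.choose, l)))).congr fun y _ => ?_
      exact (E4Z_pos e K y j l h).symm
    · refine Fin.cases ?_ (fun l => ?_) l
      · refine (regFun_const F 0).congr fun y _ => ?_
        exact (E4Z_zero e K y j h).symm
      · refine (regFun_coord F (Sum.inr (⟨j, h⟩, l))).congr fun y _ => ?_
        exact (E4Z_succ K y ⟨j, h⟩ l).symm

private theorem E4_cj_reg {τ : Type} {M n : ℕ} (F : Set (τ → ℂ)) (a : Fin N × Fin n → τ)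
    (v : Fin M → MvPolynomial (Fin N) ℂ) (q : Fin M × Fin n) :
    RegFun F (fun z => cj v (fun q => z (a q)) q) := by
  obtain ⟨P, hP⟩ := exists_alongPoly (n := n) (v q.1) (q.2 : ℕ)
  refine (regFun_poly F (rename a P)).congr fun z _ => ?_
  rw [eval_rename]
  exact hP _

/-- the forward map -/
private noncomputable def E4f {σ : Type} (u : Fin N → MvPolynomial (Fin N) ℂ) (e : Fin k → Fin N)
    (K : ℕ) (z : σ ⊕ (Fin N × Fin (K + 1)) → ℂ) :
    ((σ ⊕ Fin N) ⊕ (Fin k × Fin (K + 1))) ⊕ (E4i e × Fin K) → ℂ :=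
  Sum.elim (Sum.elim (Sum.elim (fun s => z (Sum.inl s)) fun i => z (Sum.inr (i, 0)))
    fun q => cj (fun i => u (e i)) (fun q => z (Sum.inr q)) q)
    fun q => cj u (fun q => z (Sum.inr q)) (q.1.1, q.2.succ)

private theorem E4f_reg {σ : Type} (u : Fin N → MvPolynomial (Fin N) ℂ) (e : Fin k → Fin N)
    (K : ℕ) (F : Set (σ ⊕ (Fin N × Fin (K + 1)) → ℂ)) : RegularOn F (E4f u e K) := by
  rintro (((s | i) | q) | q)
  · exact regFun_coord _ _
  · exact regFun_coord _ _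
  · have : RegFun F (fun z => cj (fun i => u (e i)) (fun q => z (Sum.inr q)) q) :=
      E4_cj_reg F Sum.inr (fun i => u (e i)) q
    exact this
  · have : RegFun F (fun z => cj u (fun q => z (Sum.inr q)) (q.1.1, q.2.succ)) :=
      E4_cj_reg F Sum.inr u (q.1.1, q.2.succ)
    exact this

private theorem E4_ord (c : Chart I G u e h) (K : ℕ) (γ : Fin N × Fin (K + 1) → ℂ)
    (hγ : eval (bp γ) h ≠ 0) :
    γ ∈ ExOrd I K ↔ cj (fun i => u (e i)) γ ∈ ExOrd G K := by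
  have h1 := ordGe_chart c γ hγ (m := K) (Nat.le_succ K)
  constructor
  · rintro ⟨ha, hb⟩
    exact ⟨h1.1 ha, (ne_chart c γ hγ ha).1 hb⟩
  · rintro ⟨ha, hb⟩
    exact ⟨h1.2 ha, (ne_chart c γ hγ (h1.2 ha)).2 hb⟩

private theorem E4_cj0 (v : Fin k → MvPolynomial (Fin N) ℂ) (K : ℕ)
    (γ : Fin N × Fin (K + 1) → ℂ) (i : Fin k) : cj v γ (i, 0) = eval (bp γ) (v i) :=
  congrFun (bp_cj v γ) i

private theorem E4_cje (u : Fin N → MvPolynomial (Fin N) ℂ) (e : Fin k → Fin N) (K : ℕ)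
    (γ : Fin N × Fin (K + 1) → ℂ) (i : Fin k) (l : Fin (K + 1)) :
    cj (fun i => u (e i)) γ (i, l) = cj u γ (e i, l) := rfl

/-- the base point part of a point of the target -/
private def E4b {σ : Type} (e : Fin k → Fin N) (K : ℕ)
    (y : ((σ ⊕ Fin N) ⊕ (Fin k × Fin (K + 1))) ⊕ (E4i e × Fin K) → ℂ) : σ ⊕ Fin N → ℂ :=
  fun s => y (Sum.inl (Sum.inl s))

private theorem E4_mem {σ : Type} (e : Fin k → Fin N) (K : ℕ)
    (v : Fin k → MvPolynomial (Fin N) ℂ) (Γ : Set (σ ⊕ Fin N → ℂ))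
    (y : ((σ ⊕ Fin N) ⊕ (Fin k × Fin (K + 1))) ⊕ (E4i e × Fin K) → ℂ) :
    y ∈ prodSet (fam G (push v Γ) K) (Set.univ : Set (E4i e × Fin K → ℂ)) ↔
      E4b e K y ∈ Γ ∧
      (∀ i, y (Sum.inl (Sum.inr (i, 0))) = eval (fun j => E4b e K y (Sum.inr j)) (v i)) ∧
      (fun q => y (Sum.inl (Sum.inr q))) ∈ ExOrd G K := by
  constructor
  · rintro ⟨⟨⟨h1, h2⟩, h3⟩, -⟩
    exact ⟨h1, h2, h3⟩
  · rintro ⟨h1, h2, h3⟩
    exact ⟨⟨⟨h1, h2⟩, h3⟩, trivial⟩

private theorem E4_tar {σ : Type} (c : Chart I G u e h) {Γ : Set (σ ⊕ Fin N → ℂ)}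
    (hh : ∀ z ∈ Γ, eval (fun i => z (Sum.inr i)) h ≠ 0)
    (hj : ∀ z ∈ Γ, eval (fun i => z (Sum.inr i)) (jacDet u) ≠ 0) (K : ℕ)
    (Ψ : (Fin N ⊕ (Fin N × Fin (K + 1)) → ℂ) → (Fin N × Fin (K + 1) → ℂ))
    (hΨ2 : ∀ z, eval (fun i => z (Sum.inl i)) (jacDet u) ≠ 0 →
        (∀ i, Ψ z (i, 0) = z (Sum.inl i)) ∧
          ∀ i (l : Fin (K + 1)), l ≠ 0 → cj u (Ψ z) (i, l) = z (Sum.inr (i, l)))
    (y : ((σ ⊕ Fin N) ⊕ (Fin k × Fin (K + 1))) ⊕ (E4i e × Fin K) → ℂ)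
    (hy : y ∈ prodSet (fam G (push (fun i => u (e i)) Γ) K)
      (Set.univ : Set (E4i e × Fin K → ℂ))) :
    eval (fun i => E4Z e K y (Sum.inl i)) (jacDet u) ≠ 0 ∧
      (∀ i, Ψ (E4Z e K y) (i, 0) = y (Sum.inl (Sum.inl (Sum.inr i)))) ∧
      (∀ i (l : Fin (K + 1)), l ≠ 0 → cj u (Ψ (E4Z e K y)) (i, l) = E4Z e K y (Sum.inr (i, l))) ∧
      (cj (fun i => u (e i)) (Ψ (E4Z e K y)) = fun q => y (Sum.inl (Sum.inr q))) ∧
      (Sum.elim (fun s => y (Sum.inl (Sum.inl (Sum.inl s)))) (Ψ (E4Z e K y)) : _ → ℂ) ∈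
        fam I Γ K := by
  obtain ⟨hy1, hy2, hy3⟩ := (E4_mem e K _ Γ y).1 hy
  have hJ : eval (fun i => E4Z e K y (Sum.inl i)) (jacDet u) ≠ 0 := by
    have := hj (E4b e K y) hy1
    exact this
  obtain ⟨ha, hb⟩ := hΨ2 (E4Z e K y) hJ
  have hbp : bp (Ψ (E4Z e K y)) = fun i => E4b e K y (Sum.inr i) := by
    funext i
    exact ha i
  have hcj : cj (fun i => u (e i)) (Ψ (E4Z e K y)) = fun q => y (Sum.inl (Sum.inr q)) := by
    funext q
    obtain ⟨i, l⟩ := q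
    by_cases hl : l = 0
    · subst hl
      rw [E4_cj0, hbp]
      exact (hy2 i).symm
    · rw [E4_cje, hb (e i) l hl, E4Z_range c.inj]
  refine ⟨hJ, ha, hb, hcj, ?_, ?_⟩
  · have : (Sum.elim (fun s => (Sum.elim (fun s => y (Sum.inl (Sum.inl (Sum.inl s))))
        (Ψ (E4Z e K y)) : σ ⊕ (Fin N × Fin (K + 1)) → ℂ) (Sum.inl s))
        fun i => (Sum.elim (fun s => y (Sum.inl (Sum.inl (Sum.inl s))))
        (Ψ (E4Z e K y)) : σ ⊕ (Fin N × Fin (K + 1)) → ℂ) (Sum.inr (i, 0))) = E4b e K y := by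
      funext s
      rcases s with s | i
      · rfl
      · exact ha i
    rw [this]
    exact hy1
  · have hh' : eval (bp (Ψ (E4Z e K y))) h ≠ 0 := by
      rw [hbp]
      exact hh (E4b e K y) hy1
    have h5 := (E4_ord c K (Ψ (E4Z e K y)) hh').2 (by rw [hcj]; exact hy3)
    exact h5

private theorem E4_iso {σ : Type} [Finite σ] (c : Chart I G u e h) {Γ : Set (σ ⊕ Fin N → ℂ)}
    (hh : ∀ z ∈ Γ, eval (fun i => z (Sum.inr i)) h ≠ 0)
    (hj : ∀ z ∈ Γ, eval (fun i => z (Sum.inr i)) (jacDet u) ≠ 0) (K : ℕ) :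
    RegIso (fam I Γ K) (prodSet (fam G (push (fun i => u (e i)) Γ) K)
      (Set.univ : Set (E4i e × Fin K → ℂ))) := by
  obtain ⟨Ψ, hΨ1, hΨ2, hΨ3⟩ := exists_lift u K
  have htar := E4_tar c hh hj K Ψ hΨ2
  have hbE : ∀ z : σ ⊕ (Fin N × Fin (K + 1)) → ℂ, E4b e K (E4f u e K z) =
      Sum.elim (fun s => z (Sum.inl s)) fun i => z (Sum.inr (i, 0)) := by
    intro z
    funext s
    rcases s with s | i <;> rfl
  refine ⟨E4f u e K, fun y =>
    Sum.elim (fun s => y (Sum.inl (Sum.inl (Sum.inl s)))) (Ψ (E4Z e K y)),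
    E4f_reg u e K _, ?_, ?_, fun y hy => (htar y hy).2.2.2.2, ?_, ?_⟩
  · rintro (s | q)
    · exact regFun_coord _ _
    · have := RegFun.comp (E := prodSet (fam G (push (fun i => u (e i)) Γ) K)
        (Set.univ : Set (E4i e × Fin K → ℂ))) (E4Z_reg e K _) (hΨ1 q)
        fun y hy => (htar y hy).1
      exact this
  · rintro z ⟨hz1, hz2⟩
    rw [E4_mem]
    rw [hbE]
    refine ⟨hz1, fun i => ?_, ?_⟩
    · have h1 := E4_cj0 (fun i => u (e i)) K (fun q => z (Sum.inr q)) i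
      exact h1
    · have h0 : eval (bp (fun q => z (Sum.inr q))) h ≠ 0 := by
        have := hh _ hz1
        exact this
      have h1 := (E4_ord c K (fun q => z (Sum.inr q)) h0).1 hz2
      exact h1
  · rintro z ⟨hz1, hz2⟩
    have hJ : eval (fun i => E4Z e K (E4f u e K z) (Sum.inl i)) (jacDet u) ≠ 0 := by
      have := hj _ hz1
      exact this
    have h1 : Ψ (E4Z e K (E4f u e K z)) = fun q => z (Sum.inr q) := by
      refine hΨ3 (E4Z e K (E4f u e K z)) (fun q => z (Sum.inr q)) hJ (fun i => rfl) ?_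
      intro j l hl
      by_cases hjr : j ∈ Set.range e
      · obtain ⟨i, rfl⟩ := hjr
        rw [E4Z_range c.inj]
        exact (E4_cje u e K (fun q => z (Sum.inr q)) i l).symm
      · obtain ⟨l, rfl⟩ := Fin.exists_succ_eq.2 hl
        exact (E4Z_succ K (E4f u e K z) ⟨j, hjr⟩ l).symm
    funext s
    rcases s with s | q
    · rfl
    · exact congrFun h1 q
  · intro y hy
    obtain ⟨hJ, ha, hb, hcj, -⟩ := htar y hy
    funext s
    rcases s with ((s | i) | q) | q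
    · rfl
    · exact ha i
    · exact congrFun hcj q
    · have h1 := hb q.1.1 q.2.succ (Fin.succ_ne_zero _)
      rw [E4Z_succ K y q.1 q.2] at h1
      exact h1

private theorem E4_card {e : Fin k → Fin N} (he : Function.Injective e) (K : ℕ)
    [Fintype (E4i e × Fin K)] :
    (Fintype.card (E4i e × Fin K) : ℤ) = ((N : ℤ) - k) * K := by
  classical
  have h1 : Fintype.card (E4i e × Fin K) = Fintype.card (E4i e) * K := by
    rw [← Nat.card_eq_fintype_card, Nat.card_prod, Nat.card_eq_fintype_card,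
      Nat.card_eq_fintype_card, Fintype.card_fin]
  have h2 : Fintype.card (E4i e) = N - k := by
    have := Fintype.card_subtype_compl (fun j : Fin N => j ∈ Set.range e)
    have h3 : Fintype.card {j : Fin N // j ∈ Set.range e} = k := by
      have := Set.card_range_of_injective he
      rw [Fintype.card_fin] at this
      exact this
    rw [h3, Fintype.card_fin] at this
    exact this
  have h3 : k ≤ N := by
    have := Fintype.card_le_of_injective e he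
    simpa using this
  rw [h1, h2]
  push_cast [h3]
  ring

theorem Zf_chart {σ : Type} [Finite σ] (c : Chart I G u e h) {Γ : Set (σ ⊕ Fin N → ℂ)}
    (hΓ : Constr Γ) (hh : ∀ z ∈ Γ, eval (fun i => z (Sum.inr i)) h ≠ 0)
    (hj : ∀ z ∈ Γ, eval (fun i => z (Sum.inr i)) (jacDet u) ≠ 0) :
    Zf I Γ = PowerSeries.C ((Lu ^ ((k : ℤ) - N) : MCˣ) : MC) *
      Zf G (push (fun i => u (e i)) Γ) := by
  classical
  have hLL : algebraMap K0 MC LL = ((Lu : MCˣ) : MC) := by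
    unfold Lu
    exact (IsUnit.unit_spec _).symm
  ext K
  rw [PowerSeries.coeff_C_mul]
  unfold Zf
  rw [PowerSeries.coeff_mk, PowerSeries.coeff_mk]
  have hfin : Fintype (E4i e × Fin K) := Fintype.ofFinite _
  have h1 : cls (fam I Γ K) = cls (fam G (push (fun i => u (e i)) Γ) K) *
      LL ^ Fintype.card (E4i e × Fin K) := by
    rw [← cls_univ, ← cls_prodSet (constr_fam G (constr_push _ hΓ) K) constr_univ]
    exact cls_iso (constr_fam I hΓ K)
      ((constr_fam G (constr_push _ hΓ) K).prodSet constr_univ) (E4_iso c hh hj K)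
  rw [h1, map_mul, map_pow, hLL]
  have h2 : ((Lu : MCˣ) : MC) ^ Fintype.card (E4i e × Fin K) =
      ((Lu ^ (((N : ℤ) - k) * K) : MCˣ) : MC) := by
    rw [← E4_card c.inj K, zpow_natCast, Units.val_pow_eq_pow_val]
  rw [h2, mul_assoc, ← Units.val_mul, ← zpow_add, mul_left_comm, ← Units.val_mul, ← zpow_add]
  congr 3
  ring

end CN
end MotMono
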