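import Pool.Agent.Lib.MP_4e5fcd_ag.CN.C2

/-!
# CN-C6: a fibre with non-zero Euler characteristic

Let `F` be a finite set of forms without common zeros `≠ 0`, `N > 0`. Suppose that all fibres
`fib F e y`, `y ≠ 0` in degree `e`, have Euler characteristic `0`. Fix an injection `r : F → ℕ`.
For `f₀ ∈ F` and `i : Fin N` let `Q f₀ i` be the set of the `x` with `x j = 0` (`j < i`), `x i = 1`,
`f (x) = 0` for all `f ∈ F` with `deg f < deg f₀`, and for all `f` with `deg f = deg f₀`,
`r f < r f₀`, and `f₀ (x) ≠ 0`. The set `P_i = {x | x j = 0 (j < i), x i = 1}` is the disjoint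
union of the `Q f₀ i`, `f₀ ∈ F` (its points are `≠ 0`, so some element of `F` does not vanish).
`χ (P_i) = 1` (`P_i` is an affine space: `RegIso` with `univ`, `cls_univ`, `χ LL = 1`).
For fixed `f₀`, `e = deg f₀`: `∑ i, χ (Q f₀ i) = 0` by `IsEulerCharF.fubini` with `ι = Fin N`,
`τ = F` (`↥F → ℂ` are the values), coefficients `1`, and
`X_i = {(x, v) | x ∈ Q f₀ i, v f * f₀ (x) = f (x) for deg f = e, v f = 0 for deg f ≠ e}`
(isomorphic to `Q f₀ i`: `v` is a regular function of `x`). The fibre of `X_i` over `v` is empty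
for all `i`, or (if `v f₀ = 1`, `v f = 0` for `deg f ≠ e` and for `deg f = e`, `r f < r f₀`) equal to
`PP F e y f₀ i`, `y f = v f`, and `e * ∑ i, χ (PP F e y f₀ i) = χ (fib F e y) = 0`
(`chi_fib`, CN-C2), `e > 0`. Sum over `f₀`: `N = ∑ i, χ (P_i) = 0`, contradiction.
-/

open MvPolynomial

namespace MotMono
namespace CN

/-- points with first non-zero coordinate `x i = 1` -/
private def C6P {N : ℕ} (i : Fin N) : Set (Fin N → ℂ) := {x | (∀ j < i, x j = 0) ∧ x i = 1}

private theorem C6_constrP {N : ℕ} (i : Fin N) : Constr (C6P i) := by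
  have h1 : C6P i = (⋂ j ∈ Finset.univ.filter (fun j => j < i), {x : Fin N → ℂ | x j = 0}) ∩
      {x | x i = 1} := by
    ext x
    simp only [C6P, Set.mem_ofPred_eq, Set.mem_inter_iff, Set.mem_iInter, Finset.mem_filter,
      Finset.mem_univ, true_and]
  rw [h1]
  refine (constr_biInter_finset _ fun j _ => ?_).inter ?_
  · have h2 := Constr.zeroSet (X j : MvPolynomial (Fin N) ℂ)
    simpa using h2
  · have h2 := constr_eq (X i : MvPolynomial (Fin N) ℂ) (C 1)
    simpa using h2

private theorem C6_chiP {χ : K0 →+* ℤ} (hχ : IsEulerCharF χ) {N : ℕ} (i : Fin N) :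
    χ (cls (C6P i)) = 1 := by
  classical
  have h1 : cls (C6P i) = cls (Set.univ : Set ({j : Fin N // i < j} → ℂ)) := by
    refine cls_iso (C6_constrP i) constr_univ ?_
    refine ⟨fun x j => x j.1, fun y j => if h : i < j then y ⟨j, h⟩ else if j = i then 1 else 0,
      fun j => regFun_coord _ _, fun j => ?_, fun _ _ => Set.mem_univ _, fun y _ => ?_,
      fun x hx => ?_, fun y _ => ?_⟩
    · by_cases h : i < j
      · refine (regFun_coord _ (⟨j, h⟩ : {j : Fin N // i < j})).congr fun y _ => ?_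
        simp only
        rw [dif_pos h]
      · refine (regFun_const _ (if j = i then 1 else 0)).congr fun y _ => ?_
        simp only
        rw [dif_neg h]
    · refine ⟨fun j hj => ?_, ?_⟩
      · simp only
        rw [dif_neg (not_lt.2 hj.le), if_neg hj.ne]
      · simp
    · funext j
      simp only
      rcases lt_trichotomy i j with h | h | h
      · rw [dif_pos h]
      · subst h
        rw [dif_neg (lt_irrefl i), if_pos rfl, hx.2]
      · rw [dif_neg (not_lt.2 h.le), if_neg h.ne, hx.1 j h]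
    · funext j
      simp only
      rw [dif_pos j.2]
  rw [h1, cls_univ, map_pow, hχ.line, one_pow]

/-- the part of `C6P i` where `f₀` is the first form of `F` which does not vanish -/
private def C6Q {N : ℕ} (F : Finset (MvPolynomial (Fin N) ℂ)) (o : MvPolynomial (Fin N) ℂ → ℕ)
    (f₀ : MvPolynomial (Fin N) ℂ) (i : Fin N) : Set (Fin N → ℂ) :=
  {x | x ∈ C6P i ∧ eval x f₀ ≠ 0 ∧ ∀ f ∈ F, o f < o f₀ → eval x f = 0}

private theorem C6_constrQ {N : ℕ} (F : Finset (MvPolynomial (Fin N) ℂ))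
    (o : MvPolynomial (Fin N) ℂ → ℕ) (f₀ : MvPolynomial (Fin N) ℂ) (i : Fin N) :
    Constr (C6Q F o f₀ i) := by
  classical
  have h1 : C6Q F o f₀ i = C6P i ∩ ({x | eval x f₀ ≠ 0} ∩
      ⋂ f ∈ F.filter (fun f => o f < o f₀), {x | eval x f = 0}) := by
    ext x
    simp only [C6Q, Set.mem_ofPred_eq, Set.mem_inter_iff, Set.mem_iInter, Finset.mem_filter, and_imp]
  rw [h1]
  exact (C6_constrP i).inter ((constr_ne f₀).inter
    (constr_biInter_finset _ fun f _ => Constr.zeroSet f))

/-- the graph of the quotients -/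
private def C6X {N : ℕ} (F : Finset (MvPolynomial (Fin N) ℂ)) (o : MvPolynomial (Fin N) ℂ → ℕ)
    (f₀ : MvPolynomial (Fin N) ℂ) (i : Fin N) : Set (Fin N ⊕ F → ℂ) :=
  {z | (fun j => z (Sum.inl j)) ∈ C6Q F o f₀ i ∧ ∀ f : F,
    ((f : MvPolynomial (Fin N) ℂ).totalDegree = f₀.totalDegree →
      z (Sum.inr f) * eval (fun j => z (Sum.inl j)) f₀ =
        eval (fun j => z (Sum.inl j)) (f : MvPolynomial (Fin N) ℂ)) ∧
    ((f : MvPolynomial (Fin N) ℂ).totalDegree ≠ f₀.totalDegree → z (Sum.inr f) = 0)}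

private theorem C6_eval_rename {N : ℕ} {τ : Type} (f : MvPolynomial (Fin N) ℂ)
    (z : Fin N ⊕ τ → ℂ) :
    eval z (rename Sum.inl f) = eval (fun j => z (Sum.inl j)) f := by
  rw [eval_rename]
  rfl

private theorem C6_constrX {N : ℕ} (F : Finset (MvPolynomial (Fin N) ℂ))
    (o : MvPolynomial (Fin N) ℂ → ℕ) (f₀ : MvPolynomial (Fin N) ℂ) (i : Fin N) :
    Constr (C6X F o f₀ i) := by
  classical
  have h1 : C6X F o f₀ i = {z : Fin N ⊕ F → ℂ | (fun j => z (Sum.inl j)) ∈ C6Q F o f₀ i} ∩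
      ⋂ f : F, {z : Fin N ⊕ F → ℂ |
        ((f : MvPolynomial (Fin N) ℂ).totalDegree = f₀.totalDegree →
          z (Sum.inr f) * eval (fun j => z (Sum.inl j)) f₀ =
          eval (fun j => z (Sum.inl j)) (f : MvPolynomial (Fin N) ℂ)) ∧
        ((f : MvPolynomial (Fin N) ℂ).totalDegree ≠ f₀.totalDegree → z (Sum.inr f) = 0)} := by
    ext z
    simp only [C6X, Set.mem_ofPred_eq, Set.mem_inter_iff, Set.mem_iInter]
  rw [h1]
  refine ((C6_constrQ F o f₀ i).comp Sum.inl).inter (constr_iInter fun f => ?_)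
  by_cases hf : (f : MvPolynomial (Fin N) ℂ).totalDegree = f₀.totalDegree
  · have h2 := constr_eq ((X (Sum.inr f) : MvPolynomial (Fin N ⊕ F) ℂ) * rename Sum.inl f₀)
      (rename Sum.inl (f : MvPolynomial (Fin N) ℂ))
    convert h2 using 1
    ext z
    simp only [Set.mem_ofPred_eq, map_mul, eval_X, C6_eval_rename]
    constructor
    · intro h
      exact h.1 hf
    · intro h
      exact ⟨fun _ => h, fun h' => absurd hf h'⟩
  · have h2 := Constr.zeroSet (X (Sum.inr f) : MvPolynomial (Fin N ⊕ F) ℂ)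
    convert h2 using 1
    ext z
    simp only [Set.mem_ofPred_eq, eval_X]
    constructor
    · intro h
      exact h.2 hf
    · intro h
      exact ⟨fun h' => absurd h' hf, fun _ => h⟩

private theorem C6_clsX {N : ℕ} (F : Finset (MvPolynomial (Fin N) ℂ))
    (o : MvPolynomial (Fin N) ℂ → ℕ) (f₀ : MvPolynomial (Fin N) ℂ) (i : Fin N) :
    cls (C6X F o f₀ i) = cls (C6Q F o f₀ i) := by
  classical
  refine cls_iso (C6_constrX F o f₀ i) (C6_constrQ F o f₀ i) ?_
  refine ⟨fun z j => z (Sum.inl j), fun x => Sum.elim x (fun f : F =>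
    if (f : MvPolynomial (Fin N) ℂ).totalDegree = f₀.totalDegree then
      eval x (f : MvPolynomial (Fin N) ℂ) * (eval x f₀)⁻¹ else 0),
    fun j => regFun_coord _ _, fun j => ?_, fun z hz => hz.1, fun x hx => ?_, fun z hz => ?_,
    fun x _ => rfl⟩
  · rcases j with j | f
    · exact regFun_coord _ _
    · by_cases hf : (f : MvPolynomial (Fin N) ℂ).totalDegree = f₀.totalDegree
      · refine ((regFun_poly _ (f : MvPolynomial (Fin N) ℂ)).mul
          ((regFun_poly _ f₀).inv fun x hx => hx.2.1)).congr fun x _ => ?_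
        simp only [Sum.elim_inr]
        rw [if_pos hf]
      · refine (regFun_const _ 0).congr fun x _ => ?_
        simp only [Sum.elim_inr]
        rw [if_neg hf]
  · refine ⟨hx, fun f => ⟨fun hf => ?_, fun hf => ?_⟩⟩
    · simp only [Sum.elim_inr, Sum.elim_inl]
      rw [if_pos hf, mul_assoc, inv_mul_cancel₀ hx.2.1, mul_one]
    · simp only [Sum.elim_inr]
      rw [if_neg hf]
  · funext s
    rcases s with j | f
    · rfl
    · simp only [Sum.elim_inr]
      by_cases hf : (f : MvPolynomial (Fin N) ℂ).totalDegree = f₀.totalDegree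
      · rw [if_pos hf, ← (hz.2 f).1 hf, mul_assoc, mul_inv_cancel₀ hz.1.2.1, mul_one]
      · rw [if_neg hf, (hz.2 f).2 hf]

private theorem C6_sumQ {χ : K0 →+* ℤ} (hχ : IsEulerCharF χ) {N : ℕ}
    (F : Finset (MvPolynomial (Fin N) ℂ)) (hF : ∀ f ∈ F, IsForm f)
    (o : MvPolynomial (Fin N) ℂ → ℕ)
    (o2 : ∀ f ∈ F, ∀ g ∈ F, f.totalDegree < g.totalDegree → o f < o g)
    (o3 : ∀ f ∈ F, ∀ g ∈ F, o f < o g → f.totalDegree ≤ g.totalDegree)
    (hno : ∀ (e : ℕ) (y : MvPolynomial (Fin N) ℂ → ℂ),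
      (∃ f ∈ (F : Set (MvPolynomial (Fin N) ℂ)), f.totalDegree = e ∧ y f ≠ 0) →
        χ (cls (fib (F : Set (MvPolynomial (Fin N) ℂ)) e y)) = 0)
    (f₀ : MvPolynomial (Fin N) ℂ) (hf₀ : f₀ ∈ F) : ∑ i, χ (cls (C6Q F o f₀ i)) = 0 := by
  classical
  have key := hχ.fubini (ι := Fin N) (τ := F) (fun _ => Fin N) (fun i => C6X F o f₀ i)
    (fun i => C6_constrX F o f₀ i) (fun _ => 1) ?_
  · simp only [one_mul] at key
    rw [← key]
    exact Finset.sum_congr rfl fun i _ => by rw [C6_clsX]
  · intro v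
    simp only [one_mul]
    by_cases hv : v ⟨f₀, hf₀⟩ = 1 ∧ ∀ f : F,
        ((f : MvPolynomial (Fin N) ℂ).totalDegree ≠ f₀.totalDegree → v f = 0) ∧
        ((f : MvPolynomial (Fin N) ℂ).totalDegree = f₀.totalDegree → o f < o f₀ → v f = 0)
    · obtain ⟨hv1, hv2⟩ := hv
      set y : MvPolynomial (Fin N) ℂ → ℂ := fun f => if h : f ∈ F then v ⟨f, h⟩ else 0 with hy
      have hyF : ∀ f (hf : f ∈ F), y f = v ⟨f, hf⟩ := by
        intro f hf
        rw [hy]
        exact dif_pos hf
      have hy0 : y f₀ = 1 := by rw [hyF f₀ hf₀, hv1]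
      have hfibre : ∀ i, {x : Fin N → ℂ | Sum.elim x v ∈ C6X F o f₀ i} =
          PP (F : Set (MvPolynomial (Fin N) ℂ)) f₀.totalDegree y f₀ i := by
        intro i
        ext x
        constructor
        · rintro ⟨⟨⟨h1, h2⟩, h3, h4⟩, h5⟩
          refine ⟨h1, h2, h3, fun f hf => ⟨fun hd => h4 f hf (o2 f hf f₀ hf₀ hd), fun hd => ?_⟩⟩
          have h6 := (h5 ⟨f, hf⟩).1 hd
          simp only [Sum.elim_inr, Sum.elim_inl] at h6
          rw [hy0, one_mul, hyF f hf]
          exact h6.symm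
        · rintro ⟨h1, h2, h3, h4⟩
          refine ⟨⟨⟨h1, h2⟩, h3, fun f hf hof => ?_⟩, fun f => ⟨fun hd => ?_, fun hd => (hv2 f).1 hd⟩⟩
          · rcases lt_or_eq_of_le (o3 f hf f₀ hf₀ hof) with hd | hd
            · exact (h4 f hf).1 hd
            · have h5 := (h4 f hf).2 hd
              rw [hy0, one_mul, hyF f hf, (hv2 ⟨f, hf⟩).2 hd hof, zero_mul] at h5
              exact h5
          · have h5 := (h4 f f.2).2 hd
            rw [hy0, one_mul, hyF f f.2] at h5
            simp only [Sum.elim_inr, Sum.elim_inl]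
            exact h5.symm
      have h1 := chi_fib hχ (F : Set (MvPolynomial (Fin N) ℂ)) hF f₀.totalDegree y f₀ hf₀ rfl
        (by rw [hy0]; exact one_ne_zero)
      rw [hno f₀.totalDegree y ⟨f₀, hf₀, rfl, by rw [hy0]; exact one_ne_zero⟩] at h1
      have h2 : ((f₀.totalDegree : ℕ) : ℤ) ≠ 0 := by
        have := (hF f₀ hf₀).2.1
        omega
      have h3 := (mul_eq_zero.1 h1.symm).resolve_left h2
      rw [← h3]
      exact Finset.sum_congr rfl fun i _ => by rw [hfibre i]
    · have hemp : ∀ i, {x : Fin N → ℂ | Sum.elim x v ∈ C6X F o f₀ i} = ∅ := by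
        intro i
        rw [Set.eq_empty_iff_forall_notMem]
        rintro x ⟨⟨h1, h3, h4⟩, h5⟩
        apply hv
        simp only [Sum.elim_inl, Sum.elim_inr] at h3 h4 h5
        refine ⟨?_, fun f => ⟨fun hd => (h5 f).2 hd, fun hd hof => ?_⟩⟩
        · have h6 := (h5 ⟨f₀, hf₀⟩).1 rfl
          exact mul_right_cancel₀ h3 (by rw [h6, one_mul])
        · have h6 := (h5 f).1 hd
          rw [h4 f f.2 hof] at h6
          exact (mul_eq_zero.1 h6).resolve_right h3
      refine Finset.sum_eq_zero fun i _ => ?_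
      rw [hemp i, cls_empty, map_zero]

theorem exists_fib {χ : K0 →+* ℤ} (hχ : IsEulerCharF χ) {N : ℕ} (hN : 0 < N)
    (F : Finset (MvPolynomial (Fin N) ℂ)) (hF : ∀ f ∈ F, IsForm f)
    (hV : ∀ x : Fin N → ℂ, (∀ f ∈ F, eval x f = 0) → x = 0) :
    ∃ (e : ℕ) (y : MvPolynomial (Fin N) ℂ → ℂ),
      (∃ f ∈ (F : Set (MvPolynomial (Fin N) ℂ)), f.totalDegree = e ∧ y f ≠ 0) ∧
        χ (cls (fib (F : Set (MvPolynomial (Fin N) ℂ)) e y)) ≠ 0 := by
  classical
  by_contra hcon
  push Not at hcon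
  -- the order
  set idx : MvPolynomial (Fin N) ℂ → ℕ := fun f => if h : f ∈ F then (F.equivFin ⟨f, h⟩ : ℕ) else 0
    with hidx
  have hidxF : ∀ f (hf : f ∈ F), idx f = (F.equivFin ⟨f, hf⟩ : ℕ) := by
    intro f hf
    rw [hidx]
    exact dif_pos hf
  have hlt : ∀ f ∈ F, idx f < F.card := by
    intro f hf
    rw [hidxF f hf]
    exact (F.equivFin ⟨f, hf⟩).2
  set o : MvPolynomial (Fin N) ℂ → ℕ := fun f => f.totalDegree * F.card + idx f with ho
  have o2 : ∀ f ∈ F, ∀ g ∈ F, f.totalDegree < g.totalDegree → o f < o g := by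
    intro f hf g hg h
    have h1 := hlt f hf
    have h2 : (f.totalDegree + 1) * F.card ≤ g.totalDegree * F.card := Nat.mul_le_mul_right _ h
    rw [add_mul, one_mul] at h2
    change f.totalDegree * F.card + idx f < g.totalDegree * F.card + idx g
    omega
  have o3 : ∀ f ∈ F, ∀ g ∈ F, o f < o g → f.totalDegree ≤ g.totalDegree := by
    intro f hf g hg h
    by_contra h'
    have := o2 g hg f hf (not_le.1 h')
    omega
  have o1 : ∀ f ∈ F, ∀ g ∈ F, o f = o g → f = g := by
    intro f hf g hg h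
    have hd : f.totalDegree = g.totalDegree := by
      rcases lt_trichotomy f.totalDegree g.totalDegree with h1 | h1 | h1
      · have := o2 f hf g hg h1
        omega
      · exact h1
      · have := o2 g hg f hf h1
        omega
    have h1 : idx f = idx g := by
      change f.totalDegree * F.card + idx f = g.totalDegree * F.card + idx g at h
      rw [hd] at h
      omega
    rw [hidxF f hf, hidxF g hg] at h1
    have h2 := F.equivFin.injective (Fin.ext h1)
    exact congrArg Subtype.val h2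
  have hQ := fun f₀ hf₀ => C6_sumQ hχ F hF o o2 o3 (fun e y h => by
    obtain ⟨f, hf, h1, h2⟩ := h
    exact hcon e y ⟨f, hf, h1, h2⟩) f₀ hf₀
  have hP : ∀ i : Fin N, (1 : ℤ) = ∑ f₀ ∈ F, χ (cls (C6Q F o f₀ i)) := by
    intro i
    rw [← C6_chiP hχ i, ← map_sum, ← cls_biUnion F (fun f₀ _ => C6_constrQ F o f₀ i)]
    · congr 2
      ext x
      simp only [Set.mem_iUnion, exists_prop]
      constructor
      · intro hx
        have hx0 : x ≠ 0 := by
          intro h
          have h1 := hx.2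
          rw [h] at h1
          exact zero_ne_one h1
        have hne : (F.filter fun f => eval x f ≠ 0).Nonempty := by
          by_contra h
          rw [Finset.not_nonempty_iff_eq_empty] at h
          apply hx0
          refine hV x fun f hf => ?_
          by_contra h1
          have h2 : f ∈ F.filter fun f => eval x f ≠ 0 := Finset.mem_filter.2 ⟨hf, h1⟩
          rw [h] at h2
          exact Finset.notMem_empty _ h2
        obtain ⟨f₀, hf₀, hmin⟩ := Finset.exists_min_image _ o hne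
        rw [Finset.mem_filter] at hf₀
        refine ⟨f₀, hf₀.1, hx, hf₀.2, fun f hf hof => ?_⟩
        by_contra h1
        have := hmin f (Finset.mem_filter.2 ⟨hf, h1⟩)
        omega
      · rintro ⟨f₀, _, hx⟩
        exact hx.1
    · intro f hf g hg hfg
      rw [Set.disjoint_left]
      rintro x ⟨_, h1, h2⟩ ⟨_, h3, h4⟩
      rcases lt_trichotomy (o f) (o g) with h | h | h
      · exact h1 (h4 f hf h)
      · exact hfg (o1 f hf g hg h)
      · exact h3 (h2 g hg h)
  have hsum : (N : ℤ) = 0 := by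
    have h1 : ∑ i : Fin N, (1 : ℤ) = N := by simp
    rw [← h1, Finset.sum_congr rfl fun i _ => hP i, Finset.sum_comm]
    exact Finset.sum_eq_zero fun f₀ hf₀ => hQ f₀ hf₀
  omega

end CN
end MotMono
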