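import Pool.Agent.Lib.MP_4e5fcd_ag.CN.C5
import Pool.Agent.Lib.MP_4e5fcd_ag.CN.C6
import Pool.Agent.Lib.MP_4e5fcd_ag.CN.V4

/-!
# CN-G3: cones: the value `1` is visible; visible degrees

`cone_near_one`: if `F` has a zero `c ≠ 0`: `Good χ (span F) c` gives `Near _ c 1`, `near_scale`.
Otherwise: `N > 0` (a non-zero form of degree `d > 0`); let `F' ⊆ F` be a finite subset without `0`
which generates the same ideal (see `LF/M3.lean`); its elements are forms
(`IsHomogeneous.totalDegree`), it has no zeros `≠ 0`; `exists_fib` (CN-C6) and `key` (CN-C5) with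
`lam = 1` give `Vis χ (span F') 0 1`, so `Near`.
`near_of_visDeg`: induction on `VisDeg`: `here`: `key`; `there`: `Near χ (germ (span F) c) 0 lam`,
`near_of_locPull` with `locPull_germ`, `near_scale` (`IsForm` is homogeneous); `pull`:
`near_of_locPull`.
-/

open MvPolynomial

namespace MotMono
namespace CN

private theorem g3_near_of_vis {N : ℕ} {χ : K0 →+* ℤ} {I : Ideal (MvPolynomial (Fin N) ℂ)}
    {lam : ℂ} (h : Vis χ I 0 lam) : Near χ I 0 lam := fun ε hε => ⟨0, by simpa using hε, h⟩

/-- a finite subset without zero which generates the same ideal -/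
private theorem g3_finite {N : ℕ} (F : Set (MvPolynomial (Fin N) ℂ)) :
    ∃ F' : Finset (MvPolynomial (Fin N) ℂ), (∀ f ∈ F', f ∈ F ∧ f ≠ 0) ∧
      Ideal.span F = Ideal.span (F' : Set (MvPolynomial (Fin N) ℂ)) := by
  classical
  obtain ⟨P', hP', hspan⟩ := (Submodule.fg_span_iff_fg_span_finset_subset F).1
    (IsNoetherian.noetherian (Submodule.span (MvPolynomial (Fin N) ℂ) F))
  refine ⟨P'.filter fun f => f ≠ 0, fun f hf => ?_, ?_⟩
  · rw [Finset.mem_filter] at hf
    exact ⟨hP' hf.1, hf.2⟩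
  · have h1 : Ideal.span F = Ideal.span (P' : Set (MvPolynomial (Fin N) ℂ)) := hspan
    rw [h1]
    apply le_antisymm
    · rw [Ideal.span_le]
      intro f hf
      by_cases hf0 : f = 0
      · rw [hf0]; exact Submodule.zero_mem _
      · exact Ideal.subset_span (by
          rw [Finset.mem_coe, Finset.mem_filter]
          exact ⟨hf, hf0⟩)
    · apply Ideal.span_mono
      intro f hf
      rw [Finset.mem_coe, Finset.mem_filter] at hf
      exact hf.1

/-- common zeros depend only on the ideal -/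
private theorem g3_zeros {N : ℕ} {F F' : Set (MvPolynomial (Fin N) ℂ)}
    (h : Ideal.span F = Ideal.span F') (x : Fin N → ℂ) (hx : ∀ f ∈ F', eval x f = 0) :
    ∀ f ∈ F, eval x f = 0 := by
  intro f hf
  have h1 : f ∈ Ideal.span F' := h ▸ Ideal.subset_span hf
  have h2 : Ideal.span F' ≤ RingHom.ker (eval x) := by
    rw [Ideal.span_le]
    exact fun g hg => hx g hg
  exact h2 h1

theorem cone_near_one {χ : K0 →+* ℤ} (hχ : IsEulerCharF χ) {N d : ℕ} (hd : 0 < d)
    (F : Set (MvPolynomial (Fin N) ℂ)) (hF : ∀ f ∈ F, f.IsHomogeneous d) (h0 : ∃ f ∈ F, f ≠ 0)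
    (hloc : ∀ c : Fin N → ℂ, c ≠ 0 → (∀ f ∈ F, eval c f = 0) → Good χ (Ideal.span F) c) :
    Near χ (Ideal.span F) 0 1 := by
  by_cases hc : ∃ c : Fin N → ℂ, c ≠ 0 ∧ ∀ f ∈ F, eval c f = 0
  · obtain ⟨c, hc0, hcF⟩ := hc
    exact near_scale hχ F (fun f hf => ⟨d, hF f hf⟩) c 1 (hloc c hc0 hcF).2
  · push Not at hc
    obtain ⟨F', hF', hspan⟩ := g3_finite F
    have hform : ∀ f ∈ F', IsForm f := by
      intro f hf
      obtain ⟨h1, h2⟩ := hF' f hf
      have h3 := (hF f h1).totalDegree h2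
      exact ⟨h2, by rw [h3]; exact hd, by rw [h3]; exact hF f h1⟩
    have hN : 0 < N := by
      rcases Nat.eq_zero_or_pos N with hN | hN
      · exfalso
        subst hN
        obtain ⟨f, hf, hf0⟩ := h0
        have h3 := (hF f hf).totalDegree hf0
        have h4 : f.totalDegree = 0 := by
          rw [MvPolynomial.eq_C_of_isEmpty f, MvPolynomial.totalDegree_C]
        omega
      · exact hN
    have hV : ∀ x : Fin N → ℂ, (∀ f ∈ F', eval x f = 0) → x = 0 := by
      intro x hx
      by_contra hx0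
      obtain ⟨f, hf, hf0⟩ := hc x hx0
      exact hf0 (g3_zeros hspan x (fun g hg => hx g hg) f hf)
    obtain ⟨e, y, hy, hχy⟩ := exists_fib hχ hN F' hform hV
    have h1 := key hχ (F' : Set (MvPolynomial (Fin N) ℂ)) (fun f hf => hform f hf) e y hy hχy 1
      (one_pow e)
    rw [hspan]
    exact g3_near_of_vis h1

theorem near_of_visDeg {χ : K0 →+* ℤ} (hχ : IsEulerCharF χ) {N : ℕ}
    (I : Ideal (MvPolynomial (Fin N) ℂ)) (e : ℕ) (h : VisDeg χ I e) (lam : ℂ)
    (hl : lam ^ e = 1) : Near χ I 0 lam := by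
  induction h with
  | here F e hF y hy hχy => exact g3_near_of_vis (key hχ F hF e y hy hχy lam hl)
  | there F e hF c _ ih =>
    exact near_scale hχ F (fun f hf => ⟨_, (hF f hf).2.2⟩) c lam
      (near_of_locPull hχ _ c _ (locPull_germ _ c) lam (ih hl))
  | pull I G e h _ ih => exact near_of_locPull hχ I 0 G h lam (ih hl)

end CN
end MotMono
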