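import Pool.Agent.Lib.MP_4e5fcd_ag.CN.Defs
import Pool.Agent.Lib.MP_4e5fcd_ag.K1
import Mathlib.RingTheory.AlgebraicIndependent.TranscendenceBasis
import Mathlib.Algebra.MvPolynomial.Funext

/-!
# CN-Sp: ideals of maximal analytic spread

If `N` of the forms of degree `d` are algebraically independent, some fibre is finite and not
empty, so `d` is a visible degree.
-/

open MvPolynomial

namespace MotMono
namespace CN

theorem exists_finite_fibre {N : ℕ} (i₀ : Fin N) (g : Fin N → MvPolynomial (Fin N) ℂ)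
    (hg : AlgebraicIndependent ℂ g) :
    ∃ x₀ : Fin N → ℂ, eval x₀ (g i₀) ≠ 0 ∧ {x | ∀ i, eval x (g i) = eval x₀ (g i)}.Finite := by
  classical
  have hb : IsTranscendenceBasis ℂ g := hg.isTranscendenceBasis_of_lift_trdeg_le_of_finite (by
    simp [MvPolynomial.trdeg_of_isDomain])
  have alg := hb.isAlgebraic
  have h1 : ∀ i : Fin N, ∃ p : Polynomial (Algebra.adjoin ℂ (Set.range g)), p ≠ 0 ∧
      Polynomial.aeval (X i : MvPolynomial (Fin N) ℂ) p = 0 := fun i => alg.isAlgebraic (X i)
  choose P hP0 hP using h1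
  have hne : g i₀ * ∏ i, ((P i).leadingCoeff : MvPolynomial (Fin N) ℂ) ≠ 0 := by
    refine mul_ne_zero (hg.ne_zero i₀) (Finset.prod_ne_zero_iff.2 fun i _ => ?_)
    intro h
    exact hP0 i (Polynomial.leadingCoeff_eq_zero.1 (Subtype.ext h))
  obtain ⟨x₀, hx₀⟩ : ∃ x₀ : Fin N → ℂ,
      eval x₀ (g i₀ * ∏ i, ((P i).leadingCoeff : MvPolynomial (Fin N) ℂ)) ≠ 0 := by
    by_contra hcon
    push Not at hcon
    exact hne (MvPolynomial.funext fun x => by rw [hcon x, map_zero])
  rw [map_mul, map_prod] at hx₀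
  have hx1 := left_ne_zero_of_mul hx₀
  have hx2 := Finset.prod_ne_zero_iff.1 (right_ne_zero_of_mul hx₀)
  refine ⟨x₀, hx1, ?_⟩
  let φ : Algebra.adjoin ℂ (Set.range g) →+* ℂ :=
    (eval x₀).comp (Algebra.adjoin ℂ (Set.range g)).val.toRingHom
  have hφ : ∀ i, (P i).map φ ≠ 0 := by
    intro i h
    have h2 : ((P i).map φ).coeff (P i).natDegree = 0 := by rw [h, Polynomial.coeff_zero]
    rw [Polynomial.coeff_map] at h2
    exact hx2 i (Finset.mem_univ i) h2
  refine ((Set.Finite.pi fun i => ((P i).map φ).roots.toFinset.finite_toSet)).subset ?_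
  · intro x hx
    rw [Set.mem_pi]
    intro i _
    rw [Finset.mem_coe, Multiset.mem_toFinset, Polynomial.mem_roots (hφ i), Polynomial.IsRoot.def]
    have h3 : ∀ a ∈ Algebra.adjoin ℂ (Set.range g), eval x a = eval x₀ a := by
      intro a ha
      induction ha using Algebra.adjoin_induction with
      | mem a ha =>
        obtain ⟨j, rfl⟩ := ha
        exact hx j
      | algebraMap c => rw [MvPolynomial.algebraMap_eq, eval_C, eval_C]
      | add a b _ _ ha hb => rw [map_add, map_add, ha, hb]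
      | mul a b _ _ ha hb => rw [map_mul, map_mul, ha, hb]
    have h4 := congrArg (eval x) (hP i)
    rw [map_zero, Polynomial.aeval_def, Polynomial.hom_eval₂, eval_X] at h4
    rw [Polynomial.eval_map]
    have h5 : (eval x).comp (algebraMap (Algebra.adjoin ℂ (Set.range g)) (MvPolynomial (Fin N) ℂ)) =
        φ := by
      ext a
      exact h3 a a.2
    rw [h5] at h4
    exact h4

theorem chi_finite {σ : Type} [Finite σ] (χ : K0 →+* ℤ) {S : Set (σ → ℂ)} (hS : S.Finite) :
    χ (cls S) = S.ncard := by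
  classical
  induction S, hS using Set.Finite.induction_on with
  | empty => rw [cls_empty, map_zero, Set.ncard_empty, Nat.cast_zero]
  | @insert a S ha hS ih =>
    have hc : Constr S := by
      have h2 := hS
      clear ih ha
      induction S, hS using Set.Finite.induction_on with
      | empty => exact constr_empty
      | @insert b S hb hS ih2 =>
        rw [Set.insert_eq]
        exact (constr_singleton b).union (ih2 hS)
    rw [Set.insert_eq, cls_union (constr_singleton a) hc (Set.disjoint_singleton_left.2 ha),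
      cls_singleton, map_add, map_one, ih, ← Set.insert_eq, Set.ncard_insert_of_notMem ha hS]
    push_cast
    ring

theorem visDeg_of_algebraicIndependent (χ : K0 →+* ℤ) {N d : ℕ} (hN : 0 < N) (hd : 0 < d)
    (F : Set (MvPolynomial (Fin N) ℂ)) (hF : ∀ f ∈ F, f.IsHomogeneous d)
    (g : Fin N → MvPolynomial (Fin N) ℂ) (hgF : ∀ i, g i ∈ F) (hg : AlgebraicIndependent ℂ g) :
    VisDeg χ (Ideal.span F) d := by
  have e1 : Ideal.span F = Ideal.span (F \ {0}) := (Ideal.span_sdiff_singleton_zero).symm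
  obtain ⟨x₀, hx₀, hfin⟩ := exists_finite_fibre ⟨0, hN⟩ g hg
  have hF' : ∀ f ∈ F \ {0}, f.totalDegree = d := fun f hf => (hF f hf.1).totalDegree hf.2
  rw [e1]
  refine VisDeg.here (F \ {0}) d (fun f hf => ⟨hf.2, ?_, ?_⟩) (fun f => eval x₀ f)
    ⟨g ⟨0, hN⟩, ⟨hgF _, hg.ne_zero _⟩, hF' _ ⟨hgF _, hg.ne_zero _⟩, hx₀⟩ ?_
  · rw [hF' f hf]
    exact hd
  · rw [hF' f hf]
    exact hF f hf.1
  · have h1 : fib (F \ {0}) d (fun f => eval x₀ f) ⊆ {x | ∀ i, eval x (g i) = eval x₀ (g i)} := by
      intro x hx i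
      have h2 : g i ∈ F \ {0} := ⟨hgF i, hg.ne_zero i⟩
      exact (hx (g i) h2).2 (hF' _ h2)
    have h2 := hfin.subset h1
    rw [chi_finite χ h2]
    have h3 : x₀ ∈ fib (F \ {0}) d (fun f => eval x₀ f) := by
      intro f hf
      refine ⟨fun h => absurd (hF' f hf) h.ne, fun _ => rfl⟩
    have h4 : 0 < (fib (F \ {0}) d (fun f => eval x₀ f)).ncard := (Set.ncard_pos h2).2 ⟨x₀, h3⟩
    exact_mod_cast h4.ne'

end CN
end MotMono
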