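import Pool.Agent.Lib.MP_4e5fcd_ag.CN.C2
import Pool.Agent.Lib.MP_4e5fcd_ag.CN.C4

/-!
# CN-C5: the key lemma

`fib F e y` is not empty (`χ ≠ 0`, `cls_empty`); take `c ∈ fib F e y` and the `e`-jet
`γ₀ (i, 1) = c i`, other levels `0` (`n = e = totalDegree f₀ ≥ 1`). `f (γ₀) = t^(deg f) f (c)`
(`coeff_along_shiftj` with `j = 1`, the constant jet `c`): so `OrdGe (span F) e γ₀`
(`ordGe_span`), and coefficient `e` of `f (γ₀)`, `f ∈ F`, is `y f` if `deg f = e`, `0` otherwise.
By `cls_CA` (CN-C3), `chi_BB_lt`, `chi_BB_eq` (CN-C4): for `m ≥ 1` the Lefschetz number is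
`χ (fib F e y)` if `e ∣ m` and `0` otherwise (if `e ∣ m` the only `j` with `j e = m` is `m / e`,
`1 ≤ m / e ≤ m`). `χ (fib F e y) = e * c'`, `c' ≠ 0` (`chi_fib`, CN-C2), and `exists_zeta` (Z1.lean)
with `n = e`, `c = c'`.
-/

open MvPolynomial

namespace MotMono
namespace CN

private theorem c5_along_const {N n : ℕ} (c : Fin N → ℂ) (f : MvPolynomial (Fin N) ℂ) :
    along f (fun q : Fin N × Fin (n + 1) => if q.2 = 0 then c q.1 else 0) =
      Polynomial.C (eval c f) := by
  have h : arc (fun q : Fin N × Fin (n + 1) => if q.2 = 0 then c q.1 else 0) =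
      fun i => Polynomial.C (c i) := by
    funext i
    unfold arc
    rw [Finset.sum_eq_single (0 : Fin (n + 1))]
    · simp
    · intro l _ hl
      simp [hl]
    · intro h
      exact absurd (Finset.mem_univ _) h
  rw [along, h]
  induction f using MvPolynomial.induction_on with
  | C a => simp
  | add a b ha hb => rw [map_add, ha, hb, map_add, map_add]
  | mul_X a i ha => rw [map_mul, ha, aeval_X, map_mul, eval_X, map_mul]

theorem key {χ : K0 →+* ℤ} (hχ : IsEulerCharF χ) {N : ℕ} (F : Set (MvPolynomial (Fin N) ℂ))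
    (hF : ∀ f ∈ F, IsForm f) (e : ℕ) (y : MvPolynomial (Fin N) ℂ → ℂ)
    (hy : ∃ f ∈ F, f.totalDegree = e ∧ y f ≠ 0) (hc : χ (cls (fib F e y)) ≠ 0) (lam : ℂ)
    (hl : lam ^ e = 1) : Vis χ (Ideal.span F) 0 lam := by
  classical
  obtain ⟨f₀, hf₀, he, hy0⟩ := hy
  have hepos : 0 < e := he ▸ (hF f₀ hf₀).2.1
  have hne : (fib F e y).Nonempty := by
    by_contra h
    rw [Set.not_nonempty_iff_eq_empty] at h
    exact hc (by rw [h, cls_empty, map_zero])
  obtain ⟨c, hcF⟩ := hne
  set γ₀ : Fin N × Fin (e + 1) → ℂ := fun q => if (q.2 : ℕ) = 1 then c q.1 else 0 with hγ₀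
  have hb : bp γ₀ = 0 := by
    funext i
    simp [bp, hγ₀]
  -- the polynomials along `γ₀`
  have hal : ∀ f ∈ F, (∀ l < f.totalDegree, (along f γ₀).coeff l = 0) ∧
      ∀ l, (along f γ₀).coeff (l + f.totalDegree) = if l = 0 then eval c f else 0 := by
    intro f hf
    have h1 := coeff_along_shiftj (n := e) (m := e - 1) (j := 1) f (hF f hf).2.2 γ₀
      (fun q : Fin N × Fin (e - 1 + 1) => if q.2 = 0 then c q.1 else 0) (by omega) (by
        intro i l hl1
        have : (l : ℕ) ≠ 1 := by omega
        simp [hγ₀, this]) (by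
        intro i l h1 h2
        by_cases hl0 : l = 0
        · subst hl0
          simp [hγ₀]
        · have h3 : (⟨l, h2⟩ : Fin (e - 1 + 1)) ≠ 0 := by
            intro h
            exact hl0 (by simpa using congrArg Fin.val h)
          simp [hγ₀, hl0, h3])
    rw [one_mul, c5_along_const] at h1
    refine ⟨h1.1, fun l => ?_⟩
    rw [h1.2 l, Polynomial.coeff_C]
  have ho : OrdGe (Ideal.span F) e γ₀ := by
    rw [ordGe_span]
    intro f hf l hl1
    obtain ⟨h1, h2⟩ := hal f hf
    rcases lt_or_ge l f.totalDegree with h3 | h3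
    · exact h1 l h3
    · have h4 := h2 (l - f.totalDegree)
      rw [Nat.sub_add_cancel h3] at h4
      rw [h4]
      by_cases h5 : l - f.totalDegree = 0
      · rw [if_pos h5]
        exact (hcF f hf).1 (by omega)
      · rw [if_neg h5]
  have hη : ∀ f ∈ F, (along f γ₀).coeff e = if f.totalDegree = e then y f else 0 := by
    intro f hf
    obtain ⟨h1, h2⟩ := hal f hf
    rcases lt_trichotomy f.totalDegree e with h3 | h3 | h3
    · have h4 := h2 (e - f.totalDegree)
      rw [Nat.sub_add_cancel h3.le] at h4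
      rw [h4, if_neg (by omega), if_neg (by omega)]
    · have h4 := h2 0
      rw [zero_add, if_pos rfl, h3] at h4
      rw [h4, if_pos h3]
      exact (hcF f hf).2 h3
    · rw [h1 e h3, if_neg (by omega)]
  refine ⟨e, γ₀, hepos, hb, ho, ⟨f₀, Ideal.subset_span hf₀, ?_⟩, ?_⟩
  · rw [hη f₀ hf₀, if_pos he]
    exact hy0
  · obtain hfib := chi_fib hχ F hF e y f₀ hf₀ he hy0
    set c' : ℤ := ∑ i, χ (cls (PP F e y f₀ i)) with hc'
    have hc'0 : c' ≠ 0 := by
      intro h
      rw [h, mul_zero] at hfib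
      exact hc hfib
    refine exists_zeta e hepos c' hc'0 lam hl _ fun m hm => ?_
    rw [cls_CA F hF e y f₀ hf₀ he hy0 γ₀ hb ho hη m hm, map_sum]
    by_cases hdiv : e ∣ m
    · rw [if_pos hdiv]
      obtain ⟨j, hj⟩ := hdiv
      have hj0 : 0 < j := by
        rcases Nat.eq_zero_or_pos j with h | h
        · subst h
          omega
        · exact h
      have hjm : j ≤ m := by
        rw [hj]
        exact Nat.le_mul_of_pos_left j hepos
      rw [Finset.sum_eq_single j]
      · rw [chi_BB_eq hχ F hF e y f₀ hf₀ he hy0 m j hj0 (by rw [hj, mul_comm]), hfib]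
      · intro j' hj' hne'
        rw [Finset.mem_filter, Finset.mem_Icc] at hj'
        refine chi_BB_lt hχ F hF e y m j' ?_
        rcases lt_or_eq_of_le hj'.2 with h | h
        · exact h
        · exfalso
          apply hne'
          have h6 : j' * e = j * e := by rw [h, hj, mul_comm]
          exact Nat.eq_of_mul_eq_mul_right hepos h6
      · intro hj'
        exfalso
        apply hj'
        rw [Finset.mem_filter, Finset.mem_Icc]
        exact ⟨⟨hj0, hjm⟩, by rw [hj, mul_comm]⟩
    · rw [if_neg hdiv]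
      refine Finset.sum_eq_zero fun j hj => ?_
      rw [Finset.mem_filter, Finset.mem_Icc] at hj
      refine chi_BB_lt hχ F hF e y m j ?_
      rcases lt_or_eq_of_le hj.2 with h | h
      · exact h
      · exact absurd ⟨j, by rw [← h, mul_comm]⟩ hdiv

end CN
end MotMono
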