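import Pool.Agent.Lib.MP_4e5fcd_ag.CN.L0
import Pool.Agent.Lib.MP_4e5fcd_ag.CN.C5
import Pool.Agent.Lib.MP_4e5fcd_ag.CN.C6
import Pool.Agent.Lib.MP_4e5fcd_ag.CN.V4

/-!
# CN-L4: the value `1` is visible: isolated case

`hK`: the only common zeros of the ideal `I = LI lam (res W K) 1` are the common zeros of the forms
with index in `K`. Let `b_1, …, b_r` be a basis of `span {lam i | i ∈ K}` (`r ≥ 1` since `K` is not
empty), extended to a basis `b_1, …, b_N` of `Fin N → ℂ`; `u_j = linForm (b_j)`, `e` the inclusion of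
the first `r` indices; `jacDet u` is the determinant of the matrix of the `b_j`, not zero.
`lam i = ∑ j, c i j • b_j` for `i ∈ K`. `F' =` the set of the
`g' = ∏ i ∈ K, (linForm (c i)) ^ W g i` in `r` variables: `LocPull I 0 (span F')` (`h = 1`).
They are non-zero products of non-zero linear forms, homogeneous of positive degree
(`IsForm`). A zero `z` of `F'`: take `x` with `b_j ⬝ᵥ x = z_j` (`j ≤ r`), then `x` is a zero of `I`,
so `lam i ⬝ᵥ x = 0` for `i ∈ K` by `hK`, so `z = 0` (the `b_j` are combinations of the `lam i`).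
`exists_fib` (CN-C6, `N = r`), `key` (CN-C5) with `lam = 1`, `near_of_locPull` (CN-V4).
-/

open MvPolynomial

namespace MotMono
namespace CN

open Matrix in
private theorem L4_basis {N : ℕ} (V : Submodule ℂ (Fin N → ℂ)) :
    ∃ (r : ℕ) (B : Matrix (Fin N) (Fin N) ℂ) (e : Fin r → Fin N), r = Module.finrank ℂ V ∧
      Function.Injective e ∧ IsUnit B.det ∧ (∀ j, B (e j) ∈ V) ∧
      ∀ v ∈ V, ∃ c : Fin r → ℂ, v = ∑ j, c j • B (e j) := by
  obtain ⟨V', hV'⟩ := Submodule.exists_isCompl V
  let b := Module.finBasis ℂ V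
  let b' := Module.finBasis ℂ V'
  let bb : Module.Basis (Fin (Module.finrank ℂ V) ⊕ Fin (Module.finrank ℂ V')) ℂ (Fin N → ℂ) :=
    (b.prod b').map (Submodule.prodEquivOfIsCompl V V' hV')
  have hcard : Fintype.card (Fin (Module.finrank ℂ V) ⊕ Fin (Module.finrank ℂ V')) =
      Fintype.card (Fin N) := by
    rw [← Module.finrank_eq_card_basis bb, Module.finrank_fintype_fun_eq_card]
  let σ := Fintype.equivOfCardEq hcard
  let B : Module.Basis (Fin N) ℂ (Fin N → ℂ) := bb.reindex σ
  have hBe : ∀ j, B (σ (Sum.inl j)) = (b j : Fin N → ℂ) := by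
    intro j
    simp [B, bb]
  refine ⟨Module.finrank ℂ V, Matrix.of fun i => B i, fun j => σ (Sum.inl j), rfl, ?_, ?_, ?_, ?_⟩
  · intro i j hij
    exact Sum.inl_injective (σ.injective hij)
  · have h1 : LinearIndependent ℂ (Matrix.of fun i => B i).row := B.linearIndependent
    rw [Matrix.linearIndependent_rows_iff_isUnit] at h1
    exact (Matrix.isUnit_iff_isUnit_det _).1 h1
  · intro j
    have h1 : (Matrix.of fun i => B i) (σ (Sum.inl j)) = (b j : Fin N → ℂ) := hBe j
    rw [h1]
    exact (b j).2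
  · intro v hv
    refine ⟨fun j => b.repr ⟨v, hv⟩ j, ?_⟩
    have h1 := b.sum_repr ⟨v, hv⟩
    have h2 : ∑ j, V.subtype (b.repr ⟨v, hv⟩ j • b j) = v := by
      rw [← map_sum, h1]
      rfl
    refine h2.symm.trans ?_
    refine Finset.sum_congr rfl fun j _ => ?_
    have h4 : (Matrix.of fun i => B i) (σ (Sum.inl j)) = (b j : Fin N → ℂ) := hBe j
    rw [h4, map_smul]
    rfl

private theorem L4_linForm_sum {N r : ℕ} (c : Fin r → ℂ) (b : Fin r → Fin N → ℂ) :
    aeval (fun j => linForm (b j)) (linForm c) = linForm (∑ j, c j • b j) := by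
  unfold linForm
  rw [map_sum]
  have h1 : ∀ j, aeval (fun j => ∑ i, C (b j i) * X i) (C (c j) * X j : MvPolynomial (Fin r) ℂ) =
      ∑ i, C (c j * b j i) * (X i : MvPolynomial (Fin N) ℂ) := by
    intro j
    rw [map_mul, aeval_X, aeval_C, algebraMap_eq, Finset.mul_sum]
    refine Finset.sum_congr rfl fun i _ => ?_
    rw [C_mul, mul_assoc]
  rw [Finset.sum_congr rfl fun j _ => h1 j, Finset.sum_comm]
  refine Finset.sum_congr rfl fun i _ => ?_
  rw [← Finset.sum_mul, ← map_sum]
  congr 2
  rw [Finset.sum_apply]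
  rfl

private theorem L4_linForm_homog {r : ℕ} (c : Fin r → ℂ) : (linForm c).IsHomogeneous 1 := by
  unfold linForm
  exact IsHomogeneous.sum _ _ _ fun i _ => isHomogeneous_C_mul_X _ _

private theorem L4_linForm_ne {r : ℕ} (c : Fin r → ℂ) (hc : c ≠ 0) : linForm c ≠ 0 := by
  intro h
  apply hc
  funext i
  have h1 := eval_linForm c (Pi.single i 1)
  rw [h, map_zero, dotProduct_single, mul_one] at h1
  exact h1.symm

theorem near_one_iso {J G : Type} [Fintype J] [Fintype G] [Nonempty G] {N : ℕ} {χ : K0 →+* ℤ}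
    (hχ : IsEulerCharF χ) (lam : J → Fin N → ℂ) (hlam : ∀ i, lam i ≠ 0) (W : G → J → ℕ)
    (K : Set J) (hW : ∀ g, ∃ i ∈ K, W g i ≠ 0)
    (hK : ∀ q : Fin N → ℂ, (∀ g, ∃ i ∈ K, W g i ≠ 0 ∧ lam i ⬝ᵥ q = 0) →
      ∀ i ∈ K, lam i ⬝ᵥ q = 0) :
    Near χ (LI lam (res W K) fun _ => 1) 0 1 := by
  classical
  set V : Submodule ℂ (Fin N → ℂ) := Submodule.span ℂ (lam '' K) with hV
  obtain ⟨r, B, e, hr, he, hB, hBV, hrep⟩ := L4_basis V
  have hex : ∀ i, ∃ c : Fin r → ℂ, i ∈ K → lam i = ∑ j, c j • B (e j) := by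
    intro i
    by_cases hi : i ∈ K
    · obtain ⟨c, hc⟩ := hrep (lam i) (Submodule.subset_span ⟨i, hi, rfl⟩)
      exact ⟨c, fun _ => hc⟩
    · exact ⟨0, fun h => absurd h hi⟩
  choose c hc using hex
  have hc0 : ∀ i ∈ K, c i ≠ 0 := by
    intro i hi h0
    apply hlam i
    rw [hc i hi, h0]
    simp
  -- the generators in `r` variables
  set f' : G → MvPolynomial (Fin r) ℂ := fun g => ∏ i, linForm (c i) ^ res W K g i with hf'
  set F' : Finset (MvPolynomial (Fin r) ℂ) := Finset.univ.image f' with hF'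
  have hres : ∀ g, ∀ i ∉ K, res W K g i = 0 := by
    intro g i hi
    unfold res
    rw [if_neg hi]
  have hres' : ∀ g, ∀ i ∈ K, res W K g i = W g i := by
    intro g i hi
    unfold res
    rw [if_pos hi]
  have hpull : ∀ g, aeval (fun j => linForm (B (e j))) (f' g) = lg lam (res W K) (fun _ => 1) g := by
    intro g
    rw [hf']
    unfold lg
    rw [one_mul, map_prod]
    refine Finset.prod_congr rfl fun i _ => ?_
    rw [map_pow]
    by_cases hi : i ∈ K
    · rw [L4_linForm_sum, ← hc i hi]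
    · rw [hres g i hi, pow_zero, pow_zero]
  have hhom : ∀ g, (f' g).IsHomogeneous (∑ i, res W K g i) := by
    intro g
    refine IsHomogeneous.prod _ _ _ fun i _ => ?_
    have h1 := (L4_linForm_homog (c i)).pow (res W K g i)
    rwa [one_mul] at h1
  have hne : ∀ g, f' g ≠ 0 := by
    intro g
    refine Finset.prod_ne_zero_iff.2 fun i _ => ?_
    by_cases hi : i ∈ K
    · exact pow_ne_zero _ (L4_linForm_ne _ (hc0 i hi))
    · rw [hres g i hi, pow_zero]
      exact one_ne_zero
  have hform : ∀ f ∈ F', IsForm f := by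
    intro f hf
    rw [hF', Finset.mem_image] at hf
    obtain ⟨g, -, rfl⟩ := hf
    have h1 := (hhom g).totalDegree (hne g)
    refine ⟨hne g, ?_, ?_⟩
    · rw [h1]
      obtain ⟨i, hi, hWi⟩ := hW g
      have h2 : res W K g i ≤ ∑ i, res W K g i :=
        Finset.single_le_sum (f := fun i => res W K g i) (fun _ _ => Nat.zero_le _)
          (Finset.mem_univ i)
      rw [hres' g i hi] at h2
      omega
    · rw [h1]
      exact hhom g
  -- no zeros
  have hdot : ∀ i ∈ K, ∀ x : Fin N → ℂ, lam i ⬝ᵥ x = c i ⬝ᵥ fun j => B (e j) ⬝ᵥ x := by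
    intro i hi x
    rw [hc i hi, sum_dotProduct]
    refine Finset.sum_congr rfl fun j _ => ?_
    rw [smul_dotProduct, smul_eq_mul]
  have hzero : ∀ z : Fin r → ℂ, (∀ f ∈ F', eval z f = 0) → z = 0 := by
    intro z hz
    set w : Fin N → ℂ := fun k => if h : ∃ j, e j = k then z h.choose else 0 with hw
    have hwe : ∀ j, w (e j) = z j := by
      intro j
      have h1 : ∃ j', e j' = e j := ⟨j, rfl⟩
      rw [hw]
      simp only
      rw [dif_pos h1]
      congr 1
      exact he h1.choose_spec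
    set x : Fin N → ℂ := B⁻¹.mulVec w with hx
    have hBx : ∀ j, B (e j) ⬝ᵥ x = z j := by
      intro j
      have h1 : B.mulVec x = w := by
        rw [hx, Matrix.mulVec_mulVec, Matrix.mul_nonsing_inv _ hB, Matrix.one_mulVec]
      have h2 := congrFun h1 (e j)
      rw [hwe] at h2
      exact h2
    have hBx' : (fun j => B (e j) ⬝ᵥ x) = z := funext hBx
    have h1 : ∀ i ∈ K, lam i ⬝ᵥ x = 0 := by
      refine hK x ?_
      intro g
      have h2 := hz (f' g) (Finset.mem_image_of_mem _ (Finset.mem_univ g))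
      rw [hf', map_prod, Finset.prod_eq_zero_iff] at h2
      obtain ⟨i, -, hi⟩ := h2
      rw [map_pow, eval_linForm] at hi
      by_cases hiK : i ∈ K
      · have h3 : res W K g i ≠ 0 := by
          intro h0
          rw [h0, pow_zero] at hi
          exact one_ne_zero hi
        rw [hres' g i hiK] at h3
        refine ⟨i, hiK, h3, ?_⟩
        rw [hdot i hiK, hBx']
        exact eq_zero_of_pow_eq_zero hi
      · rw [hres g i hiK, pow_zero] at hi
        exact absurd hi one_ne_zero
    have h2 : ∀ v ∈ V, v ⬝ᵥ x = 0 := by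
      intro v hv
      rw [hV] at hv
      refine Submodule.span_induction (p := fun v _ => v ⬝ᵥ x = 0) ?_ ?_ ?_ ?_ hv
      · rintro _ ⟨i, hi, rfl⟩
        exact h1 i hi
      · exact zero_dotProduct _
      · intro a b _ _ ha hb
        rw [add_dotProduct, ha, hb, add_zero]
      · intro a b _ hb
        rw [smul_dotProduct, hb, smul_zero]
    funext j
    rw [← hBx j]
    exact h2 _ (hBV j)
  -- `r > 0`
  have hrpos : 0 < r := by
    obtain ⟨g⟩ := (inferInstance : Nonempty G)
    obtain ⟨i, hi, -⟩ := hW g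
    rw [hr]
    rw [Module.finrank_pos_iff]
    refine ⟨⟨⟨lam i, Submodule.subset_span ⟨i, hi, rfl⟩⟩, 0, ?_⟩⟩
    intro h
    exact hlam i (congrArg Subtype.val h)
  obtain ⟨e', y, hy, hfib⟩ := exists_fib hχ hrpos F' hform hzero
  have hvis : Vis χ (Ideal.span (F' : Set (MvPolynomial (Fin r) ℂ))) 0 1 :=
    key hχ (F' : Set (MvPolynomial (Fin r) ℂ)) hform e' y hy hfib 1 (one_pow _)
  refine near_of_locPull hχ _ 0 (Ideal.span (F' : Set (MvPolynomial (Fin r) ℂ))) ?_ 1 ?_
  · refine ⟨fun j => linForm (B j), e, 1, he, ?_, ?_, ?_, ?_, ?_⟩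
    · rw [map_one]
      exact one_ne_zero
    · have h1 : jacDet (fun j => linForm (B j)) = C B.det := by
        unfold jacDet
        rw [RingHom.map_det]
        congr 1
        ext1 i j
        rw [Matrix.of_apply, RingHom.mapMatrix_apply, Matrix.map_apply]
        unfold linForm
        rw [map_sum, Finset.sum_eq_single j]
        · rw [pderiv_C_mul, pderiv_X_self, mul_one]
        · intro k _ hk
          rw [pderiv_C_mul, pderiv_X_of_ne hk, mul_zero]
        · intro h
          exact absurd (Finset.mem_univ j) h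
      rw [h1, eval_C]
      exact hB.ne_zero
    · intro i
      rw [eval_linForm, dotProduct_zero]
    · intro g hg
      rw [one_mul]
      have h1 : Ideal.span (F' : Set (MvPolynomial (Fin r) ℂ)) ≤
          (LI lam (res W K) fun _ => 1).comap
            (aeval (fun j => linForm (B (e j))) : MvPolynomial (Fin r) ℂ →ₐ[ℂ] _) := by
        rw [Ideal.span_le]
        intro f hf
        rw [Finset.mem_coe, hF', Finset.mem_image] at hf
        obtain ⟨g0, -, rfl⟩ := hf
        rw [SetLike.mem_coe, Ideal.mem_comap]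
        rw [hpull]
        exact Ideal.subset_span ⟨g0, rfl⟩
      exact h1 hg
    · intro f hf
      rw [one_mul]
      have h1 : LI lam (res W K) (fun _ => 1) ≤ Ideal.span {f' | ∃ g ∈ Ideal.span
          (F' : Set (MvPolynomial (Fin r) ℂ)), f' = aeval (fun j => linForm (B (e j))) g} := by
        unfold LI
        rw [Ideal.span_le]
        rintro _ ⟨g0, rfl⟩
        refine Ideal.subset_span ⟨f' g0, Ideal.subset_span ?_, (hpull g0).symm⟩
        rw [Finset.mem_coe, hF']
        exact Finset.mem_image_of_mem _ (Finset.mem_univ _)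
      exact h1 hf
  · intro ε hε
    refine ⟨0, ?_, hvis⟩
    rw [sub_zero, norm_zero]
    exact hε

end CN
end MotMono
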