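import Pool.Agent.Lib.MP_4e5fcd_ag.CN.L3
import Pool.Agent.Lib.MP_4e5fcd_ag.CN.L4

/-!
# CN-L5: products of linear forms: the invariant

`exists_minimal`: the finite set of the `K = van lam p` such that every `g` has an `i ∈ K` with
`W g i ≠ 0` is not empty (`p = 0`), let `K = van lam p` be a minimal element (with respect to
inclusion, e.g. minimal cardinality). If `q` is such that every `g` has an `i ∈ K` with `W g i ≠ 0`
and `lam i ⬝ᵥ q = 0`, then for small `s ≠ 0` the point `p + s q` has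
`van lam (p + s q) = K ∩ van lam q` (for `i ∉ K` the value `lam i ⬝ᵥ p ≠ 0` dominates), which is in
the set and contained in `K`, so it is `K`: `K ⊆ van lam q`.
`good_lin`: `lin_data`, `lin_reg` (CN-L3), and `near_one_iso` (CN-L4) with this `K`, `near_of_van`
(CN-L3).
-/

open MvPolynomial

namespace MotMono
namespace CN

/-- a scalar `s ≠ 0` which avoids finitely many values -/
private theorem l5_scalar {J : Type} [Fintype J] (a b : J → ℂ) :
    ∃ s : ℂ, s ≠ 0 ∧ ∀ i, a i ≠ 0 → a i + s * b i ≠ 0 := by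
  classical
  obtain ⟨s, hs⟩ := Infinite.exists_notMem_finset
    (insert (0 : ℂ) (Finset.univ.image fun i => -(a i) / b i))
  rw [Finset.mem_insert, not_or, Finset.mem_image] at hs
  refine ⟨s, hs.1, fun i hi h => hs.2 ⟨i, Finset.mem_univ i, ?_⟩⟩
  have hb : b i ≠ 0 := by
    intro hb
    rw [hb, mul_zero, add_zero] at h
    exact hi h
  rw [div_eq_iff hb]
  linear_combination -h

theorem exists_minimal {J G : Type} [Fintype J] {N : ℕ} (lam : J → Fin N → ℂ)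
    (W : G → J → ℕ) (hW : ∀ g, ∃ i, W g i ≠ 0) :
    ∃ p : Fin N → ℂ, (∀ g, ∃ i ∈ van lam p, W g i ≠ 0) ∧
      ∀ q : Fin N → ℂ, (∀ g, ∃ i ∈ van lam p, W g i ≠ 0 ∧ lam i ⬝ᵥ q = 0) →
        ∀ i ∈ van lam p, lam i ⬝ᵥ q = 0 := by
  classical
  set M : Set (Set J) := {K | ∃ p, K = van lam p ∧ ∀ g, ∃ i ∈ K, W g i ≠ 0} with hM
  have hne : M.Nonempty := by
    refine ⟨van lam 0, 0, rfl, fun g => ?_⟩
    obtain ⟨i, hi⟩ := hW g
    exact ⟨i, by simp [van], hi⟩
  obtain ⟨K, hK⟩ := (Set.toFinite M).exists_minimal hne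
  obtain ⟨⟨p, rfl, hp⟩, hmin⟩ := hK
  refine ⟨p, hp, fun q hq i hi => ?_⟩
  obtain ⟨s, hs, hs'⟩ := l5_scalar (fun i => lam i ⬝ᵥ p) fun i => lam i ⬝ᵥ q
  have hsub : van lam (p + s • q) ⊆ van lam p := by
    intro j hj
    by_contra hj'
    have h1 : lam j ⬝ᵥ (p + s • q) = 0 := hj
    rw [dotProduct_add, dotProduct_smul, smul_eq_mul] at h1
    exact hs' j hj' h1
  have hmem : van lam (p + s • q) ∈ M := by
    refine ⟨p + s • q, rfl, fun g => ?_⟩
    obtain ⟨j, hj, hj1, hj2⟩ := hq g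
    refine ⟨j, ?_, hj1⟩
    have h2 : lam j ⬝ᵥ p = 0 := hj
    show lam j ⬝ᵥ (p + s • q) = 0
    rw [dotProduct_add, dotProduct_smul, h2, hj2, smul_zero, add_zero]
  have h3 := hmin hmem hsub hi
  have h4 : lam i ⬝ᵥ (p + s • q) = 0 := h3
  have h5 : lam i ⬝ᵥ p = 0 := hi
  rw [dotProduct_add, dotProduct_smul, h5, zero_add, smul_eq_mul] at h4
  exact (mul_eq_zero.1 h4).resolve_left hs

theorem good_lin {N : ℕ} {χ : K0 →+* ℤ} (hχ : IsEulerCharF χ)
    (P : Set (MvPolynomial (Fin N) ℂ)) (hP : ∀ f ∈ P, IsProdLin f) (h0 : ∃ f ∈ P, f ≠ 0)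
    (h1 : ∀ f ∈ P, eval 0 f = 0) : Good χ (Ideal.span P) 0 := by
  obtain ⟨J, G, _, _, _, lam, W, U, hlam, hU, hW, hI⟩ := lin_data P hP h0 h1
  rw [hI]
  refine ⟨⟨∏ g, U g, ?_, lin_reg hχ lam hlam W U hU⟩, ?_⟩
  · rw [map_prod]
    exact Finset.prod_ne_zero_iff.2 fun g _ => hU g
  · obtain ⟨p, hp, hq⟩ := exists_minimal lam W hW
    exact near_of_van hχ lam W U hU p 1 (near_one_iso hχ lam hlam W _ hp hq)

end CN
end MotMono
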