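import Pool.Agent.Lib.MP_4e5fcd_ag.CN.Defs
import Pool.Agent.Lib.MP_4e5fcd_ag.K2
import Pool.Agent.Lib.MP_4e5fcd_ag.Z1
import Pool.Agent.Lib.MP_4e5fcd_ag.LF.J2
import Pool.Agent.Lib.MP_4e5fcd_ag.LF.X4

/-!
# CN-Base: notation for the proof

Conventions. A jet is `γ : Fin N × Fin (n + 1) → ℂ`, its base point is `bp γ = γ(·, 0)`.
-/

open MvPolynomial

namespace MotMono
namespace CN

/-- base point of a jet -/
def bp {N n : ℕ} (γ : Fin N × Fin (n + 1) → ℂ) : Fin N → ℂ := fun i => γ (i, 0)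

/-- the jet `v ∘ γ` -/
noncomputable def cj {N k n : ℕ} (v : Fin k → MvPolynomial (Fin N) ℂ) (γ : Fin N × Fin n → ℂ) :
    Fin k × Fin n → ℂ :=
  fun q => (along (v q.1) γ).coeff q.2

/-- all elements of `I` vanish to order `k` along `γ` -/
def OrdGe {N n : ℕ} (I : Ideal (MvPolynomial (Fin N) ℂ)) (k : ℕ) (γ : Fin N × Fin n → ℂ) : Prop :=
  ∀ f ∈ I, ∀ l < k, (along f γ).coeff l = 0

/-- `k`-jets (at any point) along which `I` vanishes exactly to order `k` -/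
def ExOrd {N : ℕ} (I : Ideal (MvPolynomial (Fin N) ℂ)) (k : ℕ) :
    Set (Fin N × Fin (k + 1) → ℂ) :=
  {γ | OrdGe I k γ ∧ ∃ f ∈ I, (along f γ).coeff k ≠ 0}

/-- families of jets: parameters in `σ`, `Γ` is a set of pairs (parameter, base point) -/
def fam {N : ℕ} {σ : Type} (I : Ideal (MvPolynomial (Fin N) ℂ)) (Γ : Set (σ ⊕ Fin N → ℂ)) (k : ℕ) :
    Set (σ ⊕ (Fin N × Fin (k + 1)) → ℂ) :=
  {z | Sum.elim (fun s => z (Sum.inl s)) (fun i => z (Sum.inr (i, 0))) ∈ Γ ∧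
    (fun q => z (Sum.inr q)) ∈ ExOrd I k}

/-- the zeta function of a family -/
noncomputable def Zf {N : ℕ} {σ : Type} [Finite σ] (I : Ideal (MvPolynomial (Fin N) ℂ))
    (Γ : Set (σ ⊕ Fin N → ℂ)) : PowerSeries MC :=
  PowerSeries.mk fun k =>
    algebraMap K0 MC (cls (fam I Γ k)) * ((Lu ^ (-(N * (k + 1) : ℤ)) : MCˣ) : MC)

/-- the family of the images of the base points under `k` of the polynomials `u` -/
def push {N k : ℕ} {σ : Type} (v : Fin k → MvPolynomial (Fin N) ℂ) (Γ : Set (σ ⊕ Fin N → ℂ)) :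
    Set ((σ ⊕ Fin N) ⊕ Fin k → ℂ) :=
  {z | (fun s => z (Sum.inl s)) ∈ Γ ∧
    ∀ i, z (Sum.inr i) = eval (fun j => z (Sum.inl (Sum.inr j))) (v i)}

/-- contact jets with a functional `η` -/
def CA {N : ℕ} (I : Ideal (MvPolynomial (Fin N) ℂ)) (p : Fin N → ℂ)
    (η : MvPolynomial (Fin N) ℂ → ℂ) (m : ℕ) : Set (Fin N × Fin (m + 1) → ℂ) :=
  {γ | (∀ i, γ (i, 0) = p i) ∧
    ∀ f ∈ I, (∀ l < m, (along f γ).coeff l = 0) ∧ (along f γ).coeff m = η f}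

/-- `lam` is visible at `p`: it is a zero or pole of the monodromy zeta function at the point of
the cone over `p` defined by the leading coefficients along some jet -/
def Vis {N : ℕ} (χ : K0 →+* ℤ) (I : Ideal (MvPolynomial (Fin N) ℂ)) (p : Fin N → ℂ) (lam : ℂ) :
    Prop :=
  ∃ (n : ℕ) (γ : Fin N × Fin (n + 1) → ℂ), 1 ≤ n ∧ bp γ = p ∧ OrdGe I n γ ∧
    (∃ f ∈ I, (along f γ).coeff n ≠ 0) ∧
    ∃ Z, IsZeta (fun d => χ (cls (CA I p (fun f => (along f γ).coeff n) d))) Z ∧ ZeroOrPole Z lam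

/-- `lam` is visible arbitrarily near `p` -/
def Near {N : ℕ} (χ : K0 →+* ℤ) (I : Ideal (MvPolynomial (Fin N) ℂ)) (p : Fin N → ℂ) (lam : ℂ) :
    Prop :=
  ∀ ε : ℝ, 0 < ε → ∃ p' : Fin N → ℂ, ‖p' - p‖ < ε ∧ Vis χ I p' lam

/-- `exp (2 π i s₀)` -/
noncomputable def expo (s₀ : ℚ) : ℂ := Complex.exp (2 * Real.pi * Complex.I * s₀)

/-- `h` defines a neighbourhood over which the zeta functions of `I` have only visible poles -/
def Reg {N : ℕ} (χ : K0 →+* ℤ) (I : Ideal (MvPolynomial (Fin N) ℂ)) (p : Fin N → ℂ)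
    (h : MvPolynomial (Fin N) ℂ) : Prop :=
  ∀ s₀ : ℚ, ¬ Near χ I p (expo s₀) → ∀ (σ : Type) [Finite σ] (Γ : Set (σ ⊕ Fin N → ℂ)),
    Constr Γ → (∀ z ∈ Γ, eval (fun i => z (Sum.inr i)) h ≠ 0) → Zf I Γ ∈ polarRing s₀

/-- the invariant of the induction -/
def Good {N : ℕ} (χ : K0 →+* ℤ) (I : Ideal (MvPolynomial (Fin N) ℂ)) (p : Fin N → ℂ) : Prop :=
  (∃ h, eval p h ≠ 0 ∧ Reg χ I p h) ∧ Near χ I p 1

/-- the data of `LocPull` at a given point `p'` (base points near `p`) -/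
structure Chart {N k : ℕ} (I : Ideal (MvPolynomial (Fin N) ℂ))
    (G : Ideal (MvPolynomial (Fin k) ℂ)) (u : Fin N → MvPolynomial (Fin N) ℂ)
    (e : Fin k → Fin N) (h : MvPolynomial (Fin N) ℂ) : Prop where
  inj : Function.Injective e
  push : ∀ g ∈ G, h * aeval (fun i => u (e i)) g ∈ I
  pull : ∀ f ∈ I, h * f ∈ Ideal.span {f' | ∃ g ∈ G, f' = aeval (fun i => u (e i)) g}

end CN
end MotMono
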