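import Pool.Agent.Lib.MP_4e5fcd_ag.CN.P1

/-!
# CN-C2: Euler characteristics of the fibres: division by `e`

`fib F e y` does not contain `0` (`y f₀ ≠ 0 = f₀ (0)`). It is the disjoint union over `i` of
`F_i = {x ∈ fib F e y | x i ≠ 0, x j = 0 for j < i}` (`cls_biUnion` over `Finset.univ`).
`F_i` is isomorphic to `kummerCover (PP F e y f₀ i) (C (y f₀)⁻¹ * f₀) e`: `x ↦ (x / x_i, 1 / x_i)`,
inverse `(x', u) ↦ x' / u`. Indeed for `x = s x'`, `f (x) = s^(deg f) f (x')`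
(`MvPolynomial.IsHomogeneous.eval₂`-type lemma; `f (c • x) = c ^ d * f x`), so
`f₀ (x) = y f₀` means `u^e = f₀ (x') / y f₀` (in particular `f₀ (x') ≠ 0`), and then
`f (x) = y f` for `deg f = e` means `y f₀ * f (x') = y f * f₀ (x')`.
`IsEulerChar.kummer` (`LF.isEulerChar_of_F`): `χ (F_i) = e * χ (PP F e y f₀ i)`. `e > 0` because
`e = totalDegree f₀`.
-/

open MvPolynomial

namespace MotMono
namespace CN

/-- the normalised points: the first non-zero coordinate is the coordinate `i`, and it is `1`; up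
to a factor the point is in `fib F e y` (`f₀` is an element of degree `e` with `y f₀ ≠ 0`) -/
def PP {N : ℕ} (F : Set (MvPolynomial (Fin N) ℂ)) (e : ℕ) (y : MvPolynomial (Fin N) ℂ → ℂ)
    (f₀ : MvPolynomial (Fin N) ℂ) (i : Fin N) : Set (Fin N → ℂ) :=
  {x | (∀ j < i, x j = 0) ∧ x i = 1 ∧ eval x f₀ ≠ 0 ∧
    ∀ f ∈ F, (f.totalDegree < e → eval x f = 0) ∧
      (f.totalDegree = e → y f₀ * eval x f = y f * eval x f₀)}

theorem eval_smul_of_homogeneous {N d : ℕ} (f : MvPolynomial (Fin N) ℂ) (hf : f.IsHomogeneous d)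
    (s : ℂ) (x : Fin N → ℂ) : eval (fun i => s * x i) f = s ^ d * eval x f := by
  rw [eval_eq', eval_eq', Finset.mul_sum]
  refine Finset.sum_congr rfl fun m hm => ?_
  have h1 : ∑ i, m i = d := by
    have h2 := hf (mem_support_iff.1 hm)
    rw [← h2, Finsupp.weight_apply, Finsupp.sum_fintype]
    · simp
    · simp
  have h3 : ∏ i, (s * x i) ^ m i = s ^ d * ∏ i, x i ^ m i := by
    rw [← h1, ← Finset.prod_pow_eq_pow_sum, ← Finset.prod_mul_distrib]
    refine Finset.prod_congr rfl fun i _ => ?_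
    rw [mul_pow]
  rw [h3]
  ring

theorem constr_PP {N : ℕ} (F : Set (MvPolynomial (Fin N) ℂ)) (e : ℕ)
    (y : MvPolynomial (Fin N) ℂ → ℂ) (f₀ : MvPolynomial (Fin N) ℂ) (i : Fin N) :
    Constr (PP F e y f₀ i) := by
  have h1 := constr_zeroLocus ({g : MvPolynomial (Fin N) ℂ | ∃ j, j < i ∧ g = X j} ∪
    ({X i - C 1} ∪ ({g | g ∈ F ∧ g.totalDegree < e} ∪
      {g | ∃ f ∈ F, f.totalDegree = e ∧ g = C (y f₀) * f - C (y f) * f₀})))
  have h2 := h1.inter (constr_ne f₀)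
  have he : {x : Fin N → ℂ | ∀ f ∈ ({g : MvPolynomial (Fin N) ℂ | ∃ j, j < i ∧ g = X j} ∪
    ({X i - C 1} ∪ ({g | g ∈ F ∧ g.totalDegree < e} ∪
      {g | ∃ f ∈ F, f.totalDegree = e ∧ g = C (y f₀) * f - C (y f) * f₀}))), eval x f = 0} ∩
      {x | eval x f₀ ≠ 0} = PP F e y f₀ i := by
    ext x
    simp only [PP, Set.mem_inter_iff, Set.mem_ofPred_eq, Set.mem_union, Set.mem_singleton_iff]
    constructor
    · rintro ⟨h, h0⟩
      refine ⟨?_, ?_, h0, ?_⟩
      · intro j hj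
        have := h (X j) (Or.inl ⟨j, hj, rfl⟩)
        rwa [eval_X] at this
      · have := h (X i - C 1) (Or.inr (Or.inl rfl))
        rw [map_sub, eval_X, eval_C] at this
        linear_combination this
      · intro f hf
        refine ⟨?_, ?_⟩
        · intro hd
          exact h f (Or.inr (Or.inr (Or.inl ⟨hf, hd⟩)))
        · intro hd
          have := h _ (Or.inr (Or.inr (Or.inr ⟨f, hf, hd, rfl⟩)))
          rw [map_sub, map_mul, map_mul, eval_C, eval_C] at this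
          linear_combination this
    · rintro ⟨h1, h2, h3, h4⟩
      refine ⟨?_, h3⟩
      rintro g (⟨j, hj, rfl⟩ | rfl | ⟨hg, hd⟩ | ⟨f, hf, hd, rfl⟩)
      · rw [eval_X]; exact h1 j hj
      · rw [map_sub, eval_X, eval_C, h2, sub_self]
      · exact (h4 g hg).1 hd
      · rw [map_sub, map_mul, map_mul, eval_C, eval_C, (h4 f hf).2 hd, sub_self]
  rwa [he] at h2

private def c2_F {N : ℕ} (F : Set (MvPolynomial (Fin N) ℂ)) (e : ℕ)
    (y : MvPolynomial (Fin N) ℂ → ℂ) (i : Fin N) : Set (Fin N → ℂ) :=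
  {x | x ∈ fib F e y ∧ (∀ j < i, x j = 0) ∧ x i ≠ 0}

private theorem c2_constr {N : ℕ} (F : Set (MvPolynomial (Fin N) ℂ)) (e : ℕ)
    (y : MvPolynomial (Fin N) ℂ → ℂ) (i : Fin N) : Constr (c2_F F e y i) := by
  have h1 := constr_zeroLocus {g : MvPolynomial (Fin N) ℂ | ∃ j, j < i ∧ g = X j}
  have h2 := (constr_fib F e y).inter (h1.inter (constr_ne (X i : MvPolynomial (Fin N) ℂ)))
  have he : fib F e y ∩ ({x : Fin N → ℂ |
      ∀ f ∈ {g : MvPolynomial (Fin N) ℂ | ∃ j, j < i ∧ g = X j}, eval x f = 0} ∩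
      {x | eval x (X i : MvPolynomial (Fin N) ℂ) ≠ 0}) = c2_F F e y i := by
    ext x
    simp only [c2_F, Set.mem_inter_iff, Set.mem_ofPred_eq]
    constructor
    · rintro ⟨h, h', h''⟩
      refine ⟨h, ?_, ?_⟩
      · intro j hj
        have := h' (X j) ⟨j, hj, rfl⟩
        rwa [eval_X] at this
      · rwa [eval_X] at h''
    · rintro ⟨h, h', h''⟩
      refine ⟨h, ?_, ?_⟩
      · rintro g ⟨j, hj, rfl⟩
        rw [eval_X]; exact h' j hj
      · rwa [eval_X]
  rwa [he] at h2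

private theorem c2_iso {N : ℕ} (F : Set (MvPolynomial (Fin N) ℂ))
    (hF : ∀ f ∈ F, IsForm f) (e : ℕ) (y : MvPolynomial (Fin N) ℂ → ℂ)
    (f₀ : MvPolynomial (Fin N) ℂ) (hf₀ : f₀ ∈ F) (he : f₀.totalDegree = e) (hy : y f₀ ≠ 0)
    (i : Fin N) :
    RegIso (c2_F F e y i) (kummerCover (PP F e y f₀ i) (C (y f₀)⁻¹ * f₀) e) := by
  have he0 : 0 < e := by rw [← he]; exact (hF f₀ hf₀).2.1
  have hsm : ∀ f ∈ F, ∀ (s : ℂ) (x : Fin N → ℂ),
      eval (fun j => s * x j) f = s ^ f.totalDegree * eval x f := by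
    intro f hf s x
    exact eval_smul_of_homogeneous f (hF f hf).2.2 s x
  have hu : ∀ z ∈ kummerCover (PP F e y f₀ i) (C (y f₀)⁻¹ * f₀) e, z (Sum.inr ()) ≠ 0 ∧
      z (Sum.inl i) = 1 := by
    rintro z ⟨⟨h1, h2, h3, h4⟩, h5⟩
    refine ⟨?_, h2⟩
    intro h0
    rw [h0, zero_pow he0.ne', map_mul, eval_C] at h5
    exact mul_ne_zero (inv_ne_zero hy) h3 h5.symm
  refine ⟨fun x => Sum.elim (fun j => (x i)⁻¹ * x j) (fun _ => (x i)⁻¹),
    fun z j => (z (Sum.inr ()))⁻¹ * z (Sum.inl j), ?_, ?_, ?_, ?_, ?_, ?_⟩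
  · have h0 : ∀ x ∈ c2_F F e y i, x i ≠ 0 := fun x hx => hx.2.2
    rintro (j | j)
    · exact ((regFun_coord _ i).inv h0).mul (regFun_coord _ j)
    · exact (regFun_coord _ i).inv h0
  · intro j
    exact ((regFun_coord _ (Sum.inr ())).inv (fun z hz => (hu z hz).1)).mul
      (regFun_coord _ (Sum.inl j))
  · rintro x ⟨hx, hx1, hx2⟩
    have h0 := (hx f₀ hf₀).2 he
    refine ⟨⟨?_, ?_, ?_, ?_⟩, ?_⟩
    · intro j hj
      show (x i)⁻¹ * x j = 0
      rw [hx1 j hj, mul_zero]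
    · show (x i)⁻¹ * x i = 1
      exact inv_mul_cancel₀ hx2
    · show eval (fun j => (x i)⁻¹ * x j) f₀ ≠ 0
      rw [hsm f₀ hf₀, h0]
      exact mul_ne_zero (pow_ne_zero _ (inv_ne_zero hx2)) hy
    · intro f hf
      refine ⟨?_, ?_⟩
      · intro hd
        show eval (fun j => (x i)⁻¹ * x j) f = 0
        rw [hsm f hf, (hx f hf).1 hd, mul_zero]
      · intro hd
        show y f₀ * eval (fun j => (x i)⁻¹ * x j) f = y f * eval (fun j => (x i)⁻¹ * x j) f₀
        rw [hsm f hf, hsm f₀ hf₀, h0, (hx f hf).2 hd, hd, he]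
        ring
    · show (x i)⁻¹ ^ e = eval (fun j => (x i)⁻¹ * x j) (C (y f₀)⁻¹ * f₀)
      rw [map_mul, eval_C, hsm f₀ hf₀, h0, he]
      field_simp
  · intro z hz
    obtain ⟨hz0, hz1⟩ := hu z hz
    obtain ⟨⟨h1, h2, h3, h4⟩, h5⟩ := hz
    rw [map_mul, eval_C] at h5
    refine ⟨?_, ?_, ?_⟩
    · intro f hf
      refine ⟨?_, ?_⟩
      · intro hd
        show eval (fun j => (z (Sum.inr ()))⁻¹ * z (Sum.inl j)) f = 0
        rw [hsm f hf (z (Sum.inr ()))⁻¹ (fun j => z (Sum.inl j)), (h4 f hf).1 hd, mul_zero]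
      · intro hd
        show eval (fun j => (z (Sum.inr ()))⁻¹ * z (Sum.inl j)) f = y f
        rw [hsm f hf (z (Sum.inr ()))⁻¹ (fun j => z (Sum.inl j)), hd, inv_pow, h5]
        have h6 := (h4 f hf).2 hd
        have h7 : y f₀ * eval (fun j => z (Sum.inl j)) f = y f * eval (fun j => z (Sum.inl j)) f₀ :=
          h6
        rw [mul_inv, inv_inv]
        field_simp
        linear_combination h7
    · intro j hj
      have h6 : z (Sum.inl j) = 0 := h1 j hj
      show (z (Sum.inr ()))⁻¹ * z (Sum.inl j) = 0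
      rw [h6, mul_zero]
    · show (z (Sum.inr ()))⁻¹ * z (Sum.inl i) ≠ 0
      rw [hz1, mul_one]
      exact inv_ne_zero hz0
  · rintro x ⟨hx, hx1, hx2⟩
    funext j
    show ((x i)⁻¹)⁻¹ * ((x i)⁻¹ * x j) = x j
    field_simp
  · intro z hz
    obtain ⟨hz0, hz1⟩ := hu z hz
    funext j
    rcases j with j | j
    · show ((z (Sum.inr ()))⁻¹ * z (Sum.inl i))⁻¹ * ((z (Sum.inr ()))⁻¹ * z (Sum.inl j)) =
        z (Sum.inl j)
      rw [hz1]
      field_simp
    · show ((z (Sum.inr ()))⁻¹ * z (Sum.inl i))⁻¹ = z (Sum.inr j)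
      rw [hz1, mul_one, inv_inv]

theorem chi_fib {χ : K0 →+* ℤ} (hχ : IsEulerCharF χ) {N : ℕ} (F : Set (MvPolynomial (Fin N) ℂ))
    (hF : ∀ f ∈ F, IsForm f) (e : ℕ) (y : MvPolynomial (Fin N) ℂ → ℂ)
    (f₀ : MvPolynomial (Fin N) ℂ) (hf₀ : f₀ ∈ F) (he : f₀.totalDegree = e) (hy : y f₀ ≠ 0) :
    χ (cls (fib F e y)) = e * ∑ i, χ (cls (PP F e y f₀ i)) := by
  classical
  have he0 : 0 < e := by rw [← he]; exact (hF f₀ hf₀).2.1
  have hU : fib F e y = ⋃ i ∈ (Finset.univ : Finset (Fin N)), c2_F F e y i := by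
    ext x
    simp only [Finset.mem_univ, Set.iUnion_true, Set.mem_iUnion]
    constructor
    · intro hx
      have hne : (Finset.univ.filter (fun i => x i ≠ 0)).Nonempty := by
        by_contra h
        rw [Finset.not_nonempty_iff_eq_empty, Finset.filter_eq_empty_iff] at h
        have hx0 : x = fun i => (0 : ℂ) * x i := by
          funext i
          rw [zero_mul]
          by_contra h'
          exact h (Finset.mem_univ i) h'
        have h1 := (hx f₀ hf₀).2 he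
        rw [hx0, eval_smul_of_homogeneous f₀ (hF f₀ hf₀).2.2, he, zero_pow he0.ne',
          zero_mul] at h1
        exact hy h1.symm
      refine ⟨(Finset.univ.filter (fun i => x i ≠ 0)).min' hne, hx, ?_, ?_⟩
      · intro j hj
        by_contra h
        have h1 := Finset.min'_le (Finset.univ.filter (fun i => x i ≠ 0)) j
          (Finset.mem_filter.2 ⟨Finset.mem_univ j, h⟩)
        exact absurd hj (not_lt.2 h1)
      · exact (Finset.mem_filter.1 (Finset.min'_mem _ hne)).2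
    · rintro ⟨i, hi⟩
      exact hi.1
  rw [hU, cls_biUnion Finset.univ (fun i _ => c2_constr F e y i), map_sum, Finset.mul_sum]
  · refine Finset.sum_congr rfl fun i _ => ?_
    have hne : ∀ x ∈ PP F e y f₀ i, eval x (C (y f₀)⁻¹ * f₀) ≠ 0 := by
      rintro x ⟨_, _, h3, _⟩
      rw [map_mul, eval_C]
      exact mul_ne_zero (inv_ne_zero hy) h3
    have hk := (LF.isEulerChar_of_F hχ).kummer (PP F e y f₀ i) (constr_PP F e y f₀ i)
      (C (y f₀)⁻¹ * f₀) hne e he0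
    rw [← hk]
    congr 1
    refine cls_iso (c2_constr F e y i) ?_ (c2_iso F hF e y f₀ hf₀ he hy i)
    have h1 := (constr_PP F e y f₀ i).comp (Sum.inl : Fin N → Fin N ⊕ Unit)
    have h2 := constr_eq (X (Sum.inr ()) ^ e : MvPolynomial (Fin N ⊕ Unit) ℂ)
      (rename Sum.inl (C (y f₀)⁻¹ * f₀) : MvPolynomial (Fin N ⊕ Unit) ℂ)
    have h3 := h1.inter h2
    have e' : kummerCover (PP F e y f₀ i) (C (y f₀)⁻¹ * f₀) e =
        {x : Fin N ⊕ Unit → ℂ | (fun j => x (Sum.inl j)) ∈ PP F e y f₀ i} ∩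
        {x | eval x (X (Sum.inr ()) ^ e : MvPolynomial (Fin N ⊕ Unit) ℂ) =
          eval x (rename Sum.inl (C (y f₀)⁻¹ * f₀) : MvPolynomial (Fin N ⊕ Unit) ℂ)} := by
      ext z
      simp only [kummerCover, Set.mem_ofPred_eq, Set.mem_inter_iff, map_pow, eval_X, eval_rename]
      rfl
    rw [e']
    exact h3
  · intro i _ j _ hij
    rw [Set.disjoint_left]
    rintro x ⟨_, h1, h2⟩ ⟨_, h3, h4⟩
    rcases lt_or_gt_of_ne hij with h | h
    · exact h2 (h3 i h)
    · exact h4 (h1 j h)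

end CN
end MotMono
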