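import Pool.Agent.Lib.MP_4e5fcd_ag.LF.Defs

/-!
# Inductively conical ideals: definitions of the statement

* `jacDet u`: the Jacobian determinant;
* `LocPull I p G`: near `p` the ideal `I` is generated by `g(u₁,…,u_k)`, `g ∈ G`, where `u₁,…,u_k`
  are part of a system of étale coordinates at `p`, vanishing at `p`;
* `germ I c`: the ideal `I` with `c` moved to the origin;
* `fib F e y`: the points where the forms of degree `< e` in `F` vanish and those of degree `e` take
  the values `y`;
* `VisDeg χ I e`: `e` is a visible degree;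
* `Tame χ I`: tame ideals.
-/

open MvPolynomial

namespace MotMono

/-- The Jacobian determinant of `u`. -/
noncomputable def jacDet {N : ℕ} (u : Fin N → MvPolynomial (Fin N) ℂ) : MvPolynomial (Fin N) ℂ :=
  Matrix.det (Matrix.of fun i j => pderiv j (u i))

/-- Near `p` the ideal `I` is the pull-back of the ideal `G` in `k` variables under `k` of the `N`
polynomials `u`, which have a non-zero Jacobian determinant at `p`; the `k` polynomials vanish
at `p`. -/
def LocPull {N k : ℕ} (I : Ideal (MvPolynomial (Fin N) ℂ)) (p : Fin N → ℂ)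
    (G : Ideal (MvPolynomial (Fin k) ℂ)) : Prop :=
  ∃ (u : Fin N → MvPolynomial (Fin N) ℂ) (e : Fin k → Fin N) (h : MvPolynomial (Fin N) ℂ),
    Function.Injective e ∧ eval p h ≠ 0 ∧ eval p (jacDet u) ≠ 0 ∧ (∀ i, eval p (u (e i)) = 0) ∧
    (∀ g ∈ G, h * aeval (fun i => u (e i)) g ∈ I) ∧
    ∀ f ∈ I, h * f ∈ Ideal.span {f' | ∃ g ∈ G, f' = aeval (fun i => u (e i)) g}

/-- The germ of `I` at `c`, moved to the origin: the ideal of all `f (x + c)`, `f ∈ I`. -/
noncomputable def germ {N : ℕ} (I : Ideal (MvPolynomial (Fin N) ℂ)) (c : Fin N → ℂ) :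
    Ideal (MvPolynomial (Fin N) ℂ) :=
  Ideal.span {f' | ∃ f ∈ I, f' = aeval (fun i => X i + C (c i)) f}

/-- `f` is a form of positive degree. -/
def IsForm {N : ℕ} (f : MvPolynomial (Fin N) ℂ) : Prop :=
  f ≠ 0 ∧ 0 < f.totalDegree ∧ f.IsHomogeneous f.totalDegree

/-- The points at which the elements of `F` of degree `< e` vanish and the elements `f` of degree
`e` take the values `y f`. -/
def fib {N : ℕ} (F : Set (MvPolynomial (Fin N) ℂ)) (e : ℕ) (y : MvPolynomial (Fin N) ℂ → ℂ) :
    Set (Fin N → ℂ) :=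
  {x | ∀ f ∈ F, (f.totalDegree < e → eval x f = 0) ∧ (f.totalDegree = e → eval x f = y f)}

/-- Visible degrees of an ideal: `e` is a visible degree of the ideal generated by a set `F` of
forms if some fibre `fib F e y`, where `y` is not identically zero on the elements of degree `e`,
has a non-zero Euler characteristic; visible degrees of the germs of such an ideal are visible
degrees, and so are those of an ideal of which it is a pull-back under étale coordinates. -/
inductive VisDeg (χ : K0 →+* ℤ) : {N : ℕ} → Ideal (MvPolynomial (Fin N) ℂ) → ℕ → Prop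
  | here {N : ℕ} (F : Set (MvPolynomial (Fin N) ℂ)) (e : ℕ) (hF : ∀ f ∈ F, IsForm f)
      (y : MvPolynomial (Fin N) ℂ → ℂ) (hy : ∃ f ∈ F, f.totalDegree = e ∧ y f ≠ 0)
      (hχ : χ (cls (fib F e y)) ≠ 0) : VisDeg χ (Ideal.span F) e
  | there {N : ℕ} (F : Set (MvPolynomial (Fin N) ℂ)) (e : ℕ) (hF : ∀ f ∈ F, IsForm f)
      (c : Fin N → ℂ) (hc : VisDeg χ (germ (Ideal.span F) c) e) : VisDeg χ (Ideal.span F) e
  | pull {N k : ℕ} (I : Ideal (MvPolynomial (Fin N) ℂ)) (G : Ideal (MvPolynomial (Fin k) ℂ))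
      (e : ℕ) (h : LocPull I 0 G) (hG : VisDeg χ G e) : VisDeg χ I e

/-- Tame ideals: non-zero ideals generated by products of linear forms (up to factors which do not
vanish at the origin); ideals which near the origin are pull-backs of tame ideals under étale
coordinates; ideals generated by forms of one degree `d`, whose germs at the zeros `c ≠ 0` are
tame, if `d` divides the number of variables `N` or `d` divides `e N` for a visible
degree `e`. -/
inductive Tame (χ : K0 →+* ℤ) : {N : ℕ} → Ideal (MvPolynomial (Fin N) ℂ) → Prop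
  | lin {N : ℕ} (P : Set (MvPolynomial (Fin N) ℂ)) (hP : ∀ f ∈ P, IsProdLin f)
      (h0 : ∃ f ∈ P, f ≠ 0) (h1 : ∀ f ∈ P, eval 0 f = 0) : Tame χ (Ideal.span P)
  | pull {N k : ℕ} (I : Ideal (MvPolynomial (Fin N) ℂ)) (G : Ideal (MvPolynomial (Fin k) ℂ))
      (h : LocPull I 0 G) (hG : Tame χ G) : Tame χ I
  | cone {N : ℕ} (F : Set (MvPolynomial (Fin N) ℂ)) (d : ℕ) (hd : 0 < d)
      (hF : ∀ f ∈ F, f.IsHomogeneous d) (h0 : ∃ f ∈ F, f ≠ 0)
      (hloc : ∀ c : Fin N → ℂ, c ≠ 0 → (∀ f ∈ F, eval c f = 0) → Tame χ (germ (Ideal.span F) c))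
      (hpole : d ∣ N ∨ ∃ e, VisDeg χ (Ideal.span F) e ∧ d ∣ e * N) : Tame χ (Ideal.span F)

end MotMono
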