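import Pool.Agent.Lib.MP_4e5fcd_ag.CN.E1
import Pool.Agent.Lib.MP_4e5fcd_ag.CN.P1

/-!
# CN-E2: lifting of jets under étale coordinates

Let `A(p)` be the Jacobian matrix `(∂_j u_i (p))`, `det A(p) = eval p (jacDet u) ≠ 0`.
Existence: for `z = (p, δ)` define jets `Φ_0, …, Φ_n` recursively: `Φ_0` is constant `p`
(level `0` is `p`, the other levels `0`), `Φ_l = Φ_(l-1)` except at the level `l`, where
`Φ_l (·, l) = A(p)⁻¹ (δ(·, l) - coeff_l (u (Φ_(l-1))))`. By `coeff_along_level` with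
`γ = Φ_(l-1)` (whose level `l` is zero), coefficient `l` of `u_i (Φ_l)` is `δ (i, l)`, and the
lower coefficients do not change (`along_trunc`). `Ψ = Φ_n`.
-/

open MvPolynomial

namespace MotMono
namespace CN

/-- the Jacobian matrix at the base point -/
private noncomputable def e2A {N n : ℕ} (u : Fin N → MvPolynomial (Fin N) ℂ)
    (z : Fin N ⊕ (Fin N × Fin (n + 1)) → ℂ) : Matrix (Fin N) (Fin N) ℂ :=
  Matrix.of fun i j => eval (fun i => z (Sum.inl i)) (pderiv j (u i))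

/-- the jets `Φ_l` -/
private noncomputable def e2Ph {N n : ℕ} (u : Fin N → MvPolynomial (Fin N) ℂ) :
    ℕ → (Fin N ⊕ (Fin N × Fin (n + 1)) → ℂ) → (Fin N × Fin (n + 1) → ℂ)
  | 0, z => fun q => if q.2 = 0 then z (Sum.inl q.1) else 0
  | l + 1, z => fun q => if (q.2 : ℕ) = l + 1 then
      ∑ j, (e2A u z)⁻¹ q.1 j * (z (Sum.inr (j, q.2)) - (along (u j) (e2Ph u l z)).coeff (l + 1))
      else e2Ph u l z q

private theorem e2_det {N n : ℕ} (u : Fin N → MvPolynomial (Fin N) ℂ)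
    (z : Fin N ⊕ (Fin N × Fin (n + 1)) → ℂ) :
    (e2A u z).det = eval (fun i => z (Sum.inl i)) (jacDet u) := by
  rw [jacDet, RingHom.map_det]
  rfl

private theorem e2_zero {N n : ℕ} (u : Fin N → MvPolynomial (Fin N) ℂ)
    (z : Fin N ⊕ (Fin N × Fin (n + 1)) → ℂ) (l : ℕ) (i : Fin N) :
    e2Ph u l z (i, 0) = z (Sum.inl i) := by
  induction l with
  | zero => simp [e2Ph]
  | succ l ih => simp [e2Ph, ih]

private theorem e2_big {N n : ℕ} (u : Fin N → MvPolynomial (Fin N) ℂ)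
    (z : Fin N ⊕ (Fin N × Fin (n + 1)) → ℂ) (l : ℕ) (i : Fin N) (m : Fin (n + 1))
    (hm : l < (m : ℕ)) : e2Ph u l z (i, m) = 0 := by
  induction l with
  | zero =>
    have : m ≠ 0 := by
      rintro rfl
      simp at hm
    simp [e2Ph, this]
  | succ l ih =>
    have h1 : (m : ℕ) ≠ l + 1 := by omega
    simp [e2Ph, h1, ih (by omega)]

private theorem e2_stable {N n : ℕ} (u : Fin N → MvPolynomial (Fin N) ℂ)
    (z : Fin N ⊕ (Fin N × Fin (n + 1)) → ℂ) (l : ℕ) (i : Fin N) (m : Fin (n + 1)) (k : ℕ)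
    (hm : (m : ℕ) ≤ l) : e2Ph u (l + k) z (i, m) = e2Ph u l z (i, m) := by
  induction k with
  | zero => rfl
  | succ k ih =>
    have h1 : (m : ℕ) ≠ l + k + 1 := by omega
    have h2 : e2Ph u (l + (k + 1)) z (i, m) = e2Ph u (l + k) z (i, m) := by
      show e2Ph u ((l + k) + 1) z (i, m) = _
      simp [e2Ph, h1]
    rw [h2, ih]

private theorem e2_coeff {N n : ℕ} (u : Fin N → MvPolynomial (Fin N) ℂ)
    (z : Fin N ⊕ (Fin N × Fin (n + 1)) → ℂ)
    (hz : eval (fun i => z (Sum.inl i)) (jacDet u) ≠ 0) (l : ℕ) (hl : l + 1 < n + 1)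
    (i : Fin N) : (along (u i) (e2Ph u (l + 1) z)).coeff (l + 1) =
      z (Sum.inr (i, ⟨l + 1, hl⟩)) := by
  have h1 := coeff_along_level (u i) (e2Ph u l z) (e2Ph u (l + 1) z) (l + 1) (Nat.succ_pos l) hl
    (by
      intro i m hm
      have h1 : (m : ℕ) ≠ l + 1 := by omega
      simp [e2Ph, h1])
  have hbp : bp (e2Ph u l z) = fun i => z (Sum.inl i) := by
    funext j
    exact e2_zero u z l j
  have h2 : ∀ j, e2Ph u (l + 1) z (j, ⟨l + 1, hl⟩) - e2Ph u l z (j, ⟨l + 1, hl⟩) =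
      ((e2A u z)⁻¹.mulVec (fun j => z (Sum.inr (j, ⟨l + 1, hl⟩)) -
        (along (u j) (e2Ph u l z)).coeff (l + 1))) j := by
    intro j
    rw [e2_big u z l j ⟨l + 1, hl⟩ (by simp), sub_zero]
    simp [e2Ph, Matrix.mulVec, dotProduct]
  rw [hbp] at h1
  have h3 : (∑ j, eval (fun i => z (Sum.inl i)) (pderiv j (u i)) *
      (e2Ph u (l + 1) z (j, ⟨l + 1, hl⟩) - e2Ph u l z (j, ⟨l + 1, hl⟩))) =
      ((e2A u z).mulVec ((e2A u z)⁻¹.mulVec (fun j => z (Sum.inr (j, ⟨l + 1, hl⟩)) -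
        (along (u j) (e2Ph u l z)).coeff (l + 1)))) i := by
    rw [Matrix.mulVec, dotProduct]
    refine Finset.sum_congr rfl (fun j _ => ?_)
    rw [h2 j]
    rfl
  have hu : IsUnit (e2A u z).det := by
    rw [e2_det]
    exact isUnit_iff_ne_zero.2 hz
  rw [h3, Matrix.mulVec_mulVec, Matrix.mul_nonsing_inv _ hu, Matrix.one_mulVec] at h1
  linear_combination h1

private theorem e2_coeff' {N n : ℕ} (u : Fin N → MvPolynomial (Fin N) ℂ)
    (z : Fin N ⊕ (Fin N × Fin (n + 1)) → ℂ)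
    (hz : eval (fun i => z (Sum.inl i)) (jacDet u) ≠ 0) (i : Fin N) (l : Fin (n + 1))
    (hl : l ≠ 0) : cj u (e2Ph u n z) (i, l) = z (Sum.inr (i, l)) := by
  obtain ⟨l, hl'⟩ := l
  obtain ⟨m, rfl⟩ : ∃ m, l = m + 1 := by
    refine ⟨l - 1, ?_⟩
    have : l ≠ 0 := by
      rintro rfl
      exact hl rfl
    omega
  rw [← e2_coeff u z hz m hl' i]
  show (along (u i) (e2Ph u n z)).coeff (m + 1) = _
  refine along_trunc _ _ _ _ (fun i l' hl2 => ?_)
  rw [a1_arc_coeff, a1_arc_coeff]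
  split_ifs with h
  · obtain ⟨k, hk⟩ : ∃ k, n = (m + 1) + k := ⟨n - (m + 1), by omega⟩
    have h3 := e2_stable u z (m + 1) i ⟨l', h⟩ k hl2
    rw [← hk] at h3
    exact h3
  · rfl

private theorem e2_sum {σ : Type} {ι : Type} (s : Finset ι) (E : Set (σ → ℂ))
    (f : ι → (σ → ℂ) → ℂ) (h : ∀ i ∈ s, RegFun E (f i)) :
    RegFun E (fun x => ∑ i ∈ s, f i x) := by
  classical
  induction s using Finset.induction_on with
  | empty => simpa using regFun_const E 0
  | insert a s ha ih =>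
    have h1 := (h a (Finset.mem_insert_self a s)).add
      (ih (fun i hi => h i (Finset.mem_insert_of_mem hi)))
    refine h1.congr (fun x _ => ?_)
    rw [Finset.sum_insert ha]

private theorem e2_poly {N n : ℕ} (E : Set (Fin N ⊕ (Fin N × Fin (n + 1)) → ℂ))
    (q : MvPolynomial (Fin N) ℂ) : RegFun E (fun z => eval (fun i => z (Sum.inl i)) q) := by
  refine (regFun_poly E (rename Sum.inl q)).congr (fun z _ => ?_)
  rw [eval_rename]
  rfl

private theorem e2_inv {N n : ℕ} (u : Fin N → MvPolynomial (Fin N) ℂ) (i j : Fin N) :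
    RegFun {z : Fin N ⊕ (Fin N × Fin (n + 1)) → ℂ |
      eval (fun i => z (Sum.inl i)) (jacDet u) ≠ 0} (fun z => (e2A u z)⁻¹ i j) := by
  have h1 := ((e2_poly (n := n) {z : Fin N ⊕ (Fin N × Fin (n + 1)) → ℂ |
      eval (fun i => z (Sum.inl i)) (jacDet u) ≠ 0} (jacDet u)).inv (fun x hx => hx)).mul
      (e2_poly _ ((Matrix.of fun i j => pderiv j (u i)).adjugate i j))
  refine h1.congr (fun z _ => ?_)
  rw [Matrix.inv_def, Matrix.smul_apply, smul_eq_mul, Ring.inverse_eq_inv', e2_det]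
  congr 1
  have h2 : (e2A u z).adjugate = (RingHom.mapMatrix (eval (fun i => z (Sum.inl i)))
      (Matrix.of fun i j => pderiv j (u i)).adjugate) := by
    rw [RingHom.map_adjugate]
    rfl
  rw [h2]
  rfl

private theorem e2_reg {N n : ℕ} (u : Fin N → MvPolynomial (Fin N) ℂ) (l : ℕ) :
    RegularOn {z : Fin N ⊕ (Fin N × Fin (n + 1)) → ℂ |
      eval (fun i => z (Sum.inl i)) (jacDet u) ≠ 0} (e2Ph u l) := by
  induction l with
  | zero =>
    rintro ⟨i, m⟩
    by_cases hm : m = 0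
    · refine (regFun_coord _ (Sum.inl i)).congr (fun z _ => ?_)
      simp [e2Ph, hm]
    · refine (regFun_const _ 0).congr (fun z _ => ?_)
      simp [e2Ph, hm]
  | succ l ih =>
    rintro ⟨i, m⟩
    by_cases hm : (m : ℕ) = l + 1
    · have h1 : RegFun {z : Fin N ⊕ (Fin N × Fin (n + 1)) → ℂ |
          eval (fun i => z (Sum.inl i)) (jacDet u) ≠ 0}
          (fun z => ∑ j, (e2A u z)⁻¹ i j *
            (z (Sum.inr (j, m)) - (along (u j) (e2Ph u l z)).coeff (l + 1))) := by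
        refine e2_sum _ _ _ (fun j _ => ?_)
        refine (e2_inv u i j).mul ?_
        refine (regFun_coord _ _).sub ?_
        obtain ⟨P, hP⟩ := exists_alongPoly (n := n + 1) (u j) (l + 1)
        have h2 := RegFun.comp ih (regFun_poly Set.univ P) (fun x _ => Set.mem_univ _)
        exact h2.congr (fun z _ => hP _)
      refine h1.congr (fun z _ => ?_)
      simp [e2Ph, hm]
    · refine (ih (i, m)).congr (fun z _ => ?_)
      simp [e2Ph, hm]

theorem exists_lift {N : ℕ} (u : Fin N → MvPolynomial (Fin N) ℂ) (n : ℕ) :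
    ∃ Ψ : (Fin N ⊕ (Fin N × Fin (n + 1)) → ℂ) → (Fin N × Fin (n + 1) → ℂ),
      RegularOn {z | eval (fun i => z (Sum.inl i)) (jacDet u) ≠ 0} Ψ ∧
      (∀ z, eval (fun i => z (Sum.inl i)) (jacDet u) ≠ 0 →
        (∀ i, Ψ z (i, 0) = z (Sum.inl i)) ∧
          ∀ i (l : Fin (n + 1)), l ≠ 0 → cj u (Ψ z) (i, l) = z (Sum.inr (i, l))) ∧
      ∀ z (γ : Fin N × Fin (n + 1) → ℂ), eval (fun i => z (Sum.inl i)) (jacDet u) ≠ 0 →
        (∀ i, γ (i, 0) = z (Sum.inl i)) →
        (∀ i (l : Fin (n + 1)), l ≠ 0 → cj u γ (i, l) = z (Sum.inr (i, l))) → Ψ z = γ := by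
  refine ⟨e2Ph u n, e2_reg u n, fun z hz => ⟨fun i => e2_zero u z n i,
    fun i l hl => e2_coeff' u z hz i l hl⟩, fun z γ hz h0 hc => ?_⟩
  have key : ∀ m : ℕ, ∀ hm : m < n + 1, ∀ i, e2Ph u n z (i, ⟨m, hm⟩) = γ (i, ⟨m, hm⟩) := by
    intro m
    induction m using Nat.strong_induction_on with
    | _ m ih =>
      intro hm
      rcases Nat.eq_zero_or_pos m with rfl | hpos
      · intro i
        have h1 := e2_zero u z n i
        have h2 := h0 i
        exact h1.trans h2.symm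
      · have hne : (⟨m, hm⟩ : Fin (n + 1)) ≠ 0 := by
          intro h
          have := congrArg Fin.val h
          simp at this
          omega
        have hbp : bp γ = fun i => z (Sum.inl i) := by
          funext j
          exact h0 j
        have h1 : ∀ i, ∑ j, eval (fun i => z (Sum.inl i)) (pderiv j (u i)) *
            (e2Ph u n z (j, ⟨m, hm⟩) - γ (j, ⟨m, hm⟩)) = 0 := by
          intro i
          have h2 := coeff_along_level (u i) γ (e2Ph u n z) m hpos hm
            (fun i m' hm' => ih m' hm' m'.2 i)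
          rw [hbp] at h2
          rw [← h2]
          have h3 := e2_coeff' u z hz i ⟨m, hm⟩ hne
          have h4 := hc i ⟨m, hm⟩ hne
          have h5 : (along (u i) (e2Ph u n z)).coeff m = z (Sum.inr (i, ⟨m, hm⟩)) := h3
          have h6 : (along (u i) γ).coeff m = z (Sum.inr (i, ⟨m, hm⟩)) := h4
          rw [h5, h6, sub_self]
        have h2 : (e2A u z).mulVec (fun j => e2Ph u n z (j, ⟨m, hm⟩) - γ (j, ⟨m, hm⟩)) = 0 := by
          funext i
          exact h1 i
        have h3 : (e2A u z).det ≠ 0 := by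
          rw [e2_det]
          exact hz
        have h4 := Matrix.eq_zero_of_mulVec_eq_zero h3 h2
        intro i
        exact sub_eq_zero.1 (congrFun h4 i)
  funext q
  obtain ⟨i, m⟩ := q
  exact key m m.2 i

end CN
end MotMono
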