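import Pool.Agent.Lib.MP_4e5fcd_ag.CN.E2
import Pool.Agent.Lib.MP_4e5fcd_ag.CN.E3
import Pool.Agent.Lib.MP_4e5fcd_ag.CN.P1

/-!
# CN-E5: Euler characteristics of contact loci in a chart

`v = u ∘ e`, `p = bp γ₀`, `ι = {i // i ∉ Set.range e}`. `RegIso` between `CA I p η m` and
`prodSet (CA G (bp (cj v γ₀)) η' m) (univ : Set (ι × Fin m → ℂ))`:
`γ ↦ (cj v γ, (i, l) ↦ cj u γ (i, l + 1))`, inverse `(δ, ρ) ↦ Ψ (p, δ')` as in CN-E4 (the first
argument of `Ψ` is the constant `p`). `mem_CA_chart` (CN-E3). Then `cls_prodSet`, `cls_univ`,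
`χ LL = 1`.
-/

open MvPolynomial

namespace MotMono
namespace CN

open Classical in
/-- the jet assembled from the jet of the coordinates in the range of `e` and the levels `≥ 1` of
the other coordinates -/
private noncomputable def e5d {N k m : ℕ} (e : Fin k → Fin N)
    (z : (Fin k × Fin (m + 1)) ⊕ ({i : Fin N // i ∉ Set.range e} × Fin m) → ℂ) :
    Fin N × Fin (m + 1) → ℂ :=
  fun q => if h : q.1 ∈ Set.range e then z (Sum.inl (h.choose, q.2)) else
    if hl : q.2 = 0 then 0 else z (Sum.inr (⟨q.1, h⟩, q.2.pred hl))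

private theorem e5d_range {N k m : ℕ} {e : Fin k → Fin N} (he : Function.Injective e)
    (z : (Fin k × Fin (m + 1)) ⊕ ({i : Fin N // i ∉ Set.range e} × Fin m) → ℂ) (j : Fin k)
    (l : Fin (m + 1)) : e5d e z (e j, l) = z (Sum.inl (j, l)) := by
  have h : e j ∈ Set.range e := ⟨j, rfl⟩
  have h1 : h.choose = j := he h.choose_spec
  unfold e5d
  rw [dif_pos h, h1]

private theorem e5d_not {N k m : ℕ} {e : Fin k → Fin N}
    (z : (Fin k × Fin (m + 1)) ⊕ ({i : Fin N // i ∉ Set.range e} × Fin m) → ℂ)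
    (i : {i : Fin N // i ∉ Set.range e}) (l : Fin m) :
    e5d e z (i.1, l.succ) = z (Sum.inr (i, l)) := by
  unfold e5d
  rw [dif_neg i.2, dif_neg (Fin.succ_ne_zero l)]
  simp

variable {N k : ℕ} {I : Ideal (MvPolynomial (Fin N) ℂ)} {G : Ideal (MvPolynomial (Fin k) ℂ)}
  {u : Fin N → MvPolynomial (Fin N) ℂ} {e : Fin k → Fin N} {h : MvPolynomial (Fin N) ℂ}

theorem chi_CA_chart {χ : K0 →+* ℤ} (hχ : IsEulerCharF χ) (c : Chart I G u e h) {n : ℕ}
    (γ₀ : Fin N × Fin (n + 1) → ℂ) (hp : eval (bp γ₀) h ≠ 0)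
    (hj : eval (bp γ₀) (jacDet u) ≠ 0) (ho : OrdGe I n γ₀) (m : ℕ) :
    χ (cls (CA I (bp γ₀) (fun f => (along f γ₀).coeff n) m)) =
      χ (cls (CA G (bp (cj (fun i => u (e i)) γ₀))
        (fun g => (along g (cj (fun i => u (e i)) γ₀)).coeff n) m)) := by
  have := Fintype.ofFinite ({i : Fin N // i ∉ Set.range e} × Fin m)
  set p : Fin N → ℂ := bp γ₀ with hpdef
  set v : Fin k → MvPolynomial (Fin N) ℂ := fun i => u (e i) with hv
  set E : Set (Fin N × Fin (m + 1) → ℂ) := CA I p (fun f => (along f γ₀).coeff n) m with hE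
  set F : Set (Fin k × Fin (m + 1) → ℂ) := CA G (bp (cj v γ₀))
    (fun g => (along g (cj v γ₀)).coeff n) m with hF
  have hcE : Constr E := constr_CA _ _ _ _
  have hcF : Constr F := constr_CA _ _ _ _
  obtain ⟨Ψ, hΨ, hΨ1, hΨ2⟩ := exists_lift u m
  let D : ((Fin k × Fin (m + 1)) ⊕ ({i : Fin N // i ∉ Set.range e} × Fin m) → ℂ) →
      (Fin N ⊕ (Fin N × Fin (m + 1)) → ℂ) := fun z => Sum.elim p (e5d e z)
  have hDjac : ∀ z, eval (fun i => D z (Sum.inl i)) (jacDet u) ≠ 0 := fun z => hj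
  have hiso : RegIso E (prodSet F (Set.univ : Set ({i : Fin N // i ∉ Set.range e} × Fin m → ℂ))) := by
    have key : ∀ z, (fun i => z (Sum.inl i)) ∈ F →
        (∀ i, Ψ (D z) (i, 0) = p i) ∧ cj v (Ψ (D z)) = fun i => z (Sum.inl i) := by
      intro z hz
      have h1 := hΨ1 (D z) (hDjac z)
      have h0 : ∀ i, Ψ (D z) (i, 0) = p i := h1.1
      refine ⟨h0, ?_⟩
      funext ⟨j, l⟩
      rcases Fin.eq_zero_or_eq_succ l with rfl | ⟨l, rfl⟩
      · have h2 : bp (cj v (Ψ (D z))) = bp (cj v γ₀) := by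
          rw [bp_cj, bp_cj]
          have : bp (Ψ (D z)) = bp γ₀ := funext h0
          rw [this]
        have h3 := congrFun h2 j
        have h4 : z (Sum.inl (j, 0)) = bp (cj v γ₀) j := hz.1 j
        exact h3.trans h4.symm
      · have h2 := h1.2 (e j) l.succ (Fin.succ_ne_zero l)
        have h3 : D z (Sum.inr (e j, l.succ)) = z (Sum.inl (j, l.succ)) :=
          e5d_range c.inj z j l.succ
        rw [h3] at h2
        exact h2
    refine ⟨fun γ => Sum.elim (cj v γ) (fun q => cj u γ (q.1.1, q.2.succ)), fun z => Ψ (D z),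
      ?_, ?_, ?_, ?_, ?_, ?_⟩
    · rintro (⟨j, l⟩ | ⟨i, l⟩)
      · obtain ⟨P, hP⟩ := exists_alongPoly (n := m + 1) (v j) l
        refine (regFun_poly E P).congr fun γ _ => ?_
        exact hP γ
      · obtain ⟨P, hP⟩ := exists_alongPoly (n := m + 1) (u i.1) (l.succ : Fin (m + 1))
        refine (regFun_poly E P).congr fun γ _ => ?_
        exact hP γ
    · intro q
      refine RegFun.comp (F := {z | eval (fun i => z (Sum.inl i)) (jacDet u) ≠ 0}) (f := D) ?_
        (hΨ q) (fun z _ => hDjac z)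
      rintro (i | ⟨i, l⟩)
      · exact regFun_const _ (p i)
      · by_cases hi : i ∈ Set.range e
        · obtain ⟨j, rfl⟩ := hi
          refine (regFun_coord _ (Sum.inl (j, l))).congr fun z _ => ?_
          exact (e5d_range c.inj z j l).symm
        · rcases Fin.eq_zero_or_eq_succ l with rfl | ⟨l, rfl⟩
          · refine (regFun_const _ 0).congr fun z _ => ?_
            change 0 = e5d e z (i, 0)
            unfold e5d
            rw [dif_neg hi, dif_pos rfl]
          · refine (regFun_coord _ (Sum.inr (⟨i, hi⟩, l))).congr fun z _ => ?_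
            exact (e5d_not z ⟨i, hi⟩ l).symm
    · intro γ hγ
      refine ⟨?_, Set.mem_univ _⟩
      have hb : bp γ = bp γ₀ := funext hγ.1
      exact (mem_CA_chart c γ₀ hp ho γ hb).1 hγ
    · intro z hz
      obtain ⟨h1, h2⟩ := key z hz.1
      have hb : bp (Ψ (D z)) = bp γ₀ := funext h1
      refine (mem_CA_chart c γ₀ hp ho (Ψ (D z)) hb).2 ?_
      have h3 : cj (fun i => u (e i)) (Ψ (D z)) = fun i => z (Sum.inl i) := h2
      rw [h3]
      exact hz.1
    · intro γ hγ
      refine hΨ2 _ γ (hDjac _) hγ.1 ?_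
      intro i l hl
      obtain ⟨l, rfl⟩ := Fin.exists_succ_eq.2 hl
      by_cases hi : i ∈ Set.range e
      · obtain ⟨j, rfl⟩ := hi
        exact (e5d_range c.inj (Sum.elim (cj v γ) (fun q => cj u γ (q.1.1, q.2.succ))) j
          l.succ).symm
      · exact (e5d_not (e := e) (Sum.elim (cj v γ) (fun q => cj u γ (q.1.1, q.2.succ)))
          ⟨i, hi⟩ l).symm
    · intro z hz
      obtain ⟨h1, h2⟩ := key z hz.1
      funext s
      rcases s with q | ⟨i, l⟩
      · exact congrFun h2 q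
      · have h3 := (hΨ1 (D z) (hDjac z)).2 i.1 l.succ (Fin.succ_ne_zero l)
        exact h3.trans (e5d_not z i l)
  rw [cls_iso hcE (hcF.prodSet constr_univ) hiso, cls_prodSet hcF constr_univ, cls_univ, map_mul,
    map_pow, hχ.line, one_pow, mul_one]

end CN
end MotMono
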