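import Pool.Agent.Lib.MP_4e5fcd_ag.CN.E4
import Pool.Agent.Lib.MP_4e5fcd_ag.CN.V4
import Pool.Agent.Lib.MP_4e5fcd_ag.CN.P4

/-!
# CN-G1: the invariant and pull-backs

Let `u, e, h` be the data of `LocPull I p G` and `hG` the polynomial of `Good χ G 0`. Put
`h' = h * jacDet u * aeval (fun i => u (e i)) hG`; `eval p h' ≠ 0` because `eval p (u (e i)) = 0`
and `eval 0 hG ≠ 0`. If `lam` is not near `p` for `I`, it is not near `0` for `G`
(`near_of_locPull`, CN-V4). For `Γ` in `{h' ≠ 0}`: `Zf_chart` (CN-E4) and `Reg χ G 0 hG` for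
`push (u ∘ e) Γ` (`constr_push`), whose base points are the values of `u ∘ e`. `C_mem_polar`.
`Near χ I p 1`: `near_of_locPull`.
-/

open MvPolynomial

namespace MotMono
namespace CN

private theorem g1_eval {N k : ℕ} (v : Fin k → MvPolynomial (Fin N) ℂ)
    (g : MvPolynomial (Fin k) ℂ) (p : Fin N → ℂ) :
    eval p (aeval v g) = eval (fun i => eval p (v i)) g := by
  induction g using MvPolynomial.induction_on with
  | C a => simp
  | add a b ha hb => simp only [map_add, ha, hb]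
  | mul_X a i ha => simp only [map_mul, ha, aeval_X, eval_X]

theorem good_of_locPull {χ : K0 →+* ℤ} (hχ : IsEulerCharF χ) {N k : ℕ}
    (I : Ideal (MvPolynomial (Fin N) ℂ)) (p : Fin N → ℂ) (G : Ideal (MvPolynomial (Fin k) ℂ))
    (h : LocPull I p G) (hG : Good χ G 0) : Good χ I p := by
  obtain ⟨⟨hg, hg0, hreg⟩, hnear⟩ := hG
  refine ⟨?_, near_of_locPull hχ I p G h 1 hnear⟩
  have h' := h
  obtain ⟨u, e, h, hinj, hh, hj, h0, hpush, hpull⟩ := h
  have c : Chart I G u e h := ⟨hinj, hpush, hpull⟩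
  refine ⟨h * jacDet u * aeval (fun i => u (e i)) hg, ?_, ?_⟩
  · rw [map_mul, map_mul, g1_eval]
    have e0 : (fun i => eval p (u (e i))) = 0 := funext h0
    rw [e0]
    exact mul_ne_zero (mul_ne_zero hh hj) hg0
  · intro s₀ hs σ _ Γ hΓ hne
    have hs' : ¬ Near χ G 0 (expo s₀) := fun hn => hs (near_of_locPull hχ I p G h' _ hn)
    have hne' : ∀ z ∈ Γ, eval (fun i => z (Sum.inr i)) h ≠ 0 ∧
        eval (fun i => z (Sum.inr i)) (jacDet u) ≠ 0 ∧
        eval (fun i => z (Sum.inr i)) (aeval (fun i => u (e i)) hg) ≠ 0 := by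
      intro z hz
      have h1 := hne z hz
      rw [map_mul, map_mul] at h1
      exact ⟨left_ne_zero_of_mul (left_ne_zero_of_mul h1),
        right_ne_zero_of_mul (left_ne_zero_of_mul h1), right_ne_zero_of_mul h1⟩
    rw [Zf_chart c hΓ (fun z hz => (hne' z hz).1) (fun z hz => (hne' z hz).2.1)]
    refine Subring.mul_mem _ (C_mem_polar s₀ _) ?_
    refine hreg s₀ hs' (σ ⊕ Fin N) _ (constr_push _ hΓ) ?_
    rintro z ⟨hz1, hz2⟩
    have h3 := (hne' _ hz1).2.2
    rw [g1_eval] at h3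
    have e1 : (fun i => z (Sum.inr i)) =
        fun i => eval (fun j => z (Sum.inl (Sum.inr j))) (u (e i)) := funext hz2
    rw [e1]
    exact h3

end CN
end MotMono
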