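import Pool.Agent.Lib.MP_4e5fcd_ag.CN.P4
import Pool.Agent.Lib.MP_4e5fcd_ag.CN.P5
import Pool.Agent.Lib.MP_4e5fcd_ag.CN.V4

/-!
# CN-G2: cones: the zeta functions of families

Let `lam = expo s₀` be not near `0`; by `near_scale` it is not near any `c`. For every zero `c ≠ 0`
of `F` take `h_c` from `Good χ (span F) c`. The ideal generated by `F` and the `h_c` is generated by
a finite subset (Noetherian), so there is a finite set `S` of polynomials `h_c` such that a zero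
`x ≠ 0` of `F` is not a zero of all `h ∈ S` (`h_x (x) ≠ 0`).
(1) `Γ` with base points `≠ 0`: split `Γ` into the base points off the zeros of `F` (`Zf_off`,
`C_mem_polar`) and the zeros of `F` (`cover_polar` with `S`). So `Zf (span F) Γ ∈ polarRing s₀`.
(2) `Zmot (span F) ∈ polarRing s₀`: by (1) the right hand side of `cone_step` (CN-P5) is in the
ring; if `s₀ ≠ -N/d`: `mem_polar_of_mul` (`a = N`, `b = d`); if `s₀ = -N/d`: excluded by `hpole`.
(3) General `Γ`: split off the base point `0`: `Zf_zero`. (`Constr` of the pieces: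
`constr_zeroLocus`, `Constr.comp`, `constr_ne`.)
-/

open MvPolynomial

namespace MotMono
namespace CN

/-- finitely many of the `h_c` cover the zeros `≠ 0` -/
private theorem g2_cover {N : ℕ} (F : Set (MvPolynomial (Fin N) ℂ))
    (hc : (Fin N → ℂ) → MvPolynomial (Fin N) ℂ)
    (hh : ∀ c : Fin N → ℂ, c ≠ 0 → (∀ f ∈ F, eval c f = 0) → eval c (hc c) ≠ 0) :
    ∃ S : Finset (MvPolynomial (Fin N) ℂ),
      (∀ h ∈ S, ∃ c : Fin N → ℂ, c ≠ 0 ∧ (∀ f ∈ F, eval c f = 0) ∧ h = hc c) ∧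
      ∀ x : Fin N → ℂ, x ≠ 0 → (∀ f ∈ F, eval x f = 0) → ∃ h ∈ S, eval x h ≠ 0 := by
  classical
  set H : Set (MvPolynomial (Fin N) ℂ) :=
    {h | ∃ c : Fin N → ℂ, c ≠ 0 ∧ (∀ f ∈ F, eval c f = 0) ∧ h = hc c} with hH
  obtain ⟨P', hP', hspan⟩ := (Submodule.fg_span_iff_fg_span_finset_subset H).1
    (IsNoetherian.noetherian (Submodule.span (MvPolynomial (Fin N) ℂ) H))
  refine ⟨P', fun h hh' => hP' hh', fun x hx hxF => ?_⟩
  by_contra hcon
  push Not at hcon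
  have h2 : Ideal.span (P' : Set (MvPolynomial (Fin N) ℂ)) ≤ RingHom.ker (eval x) := by
    rw [Ideal.span_le]
    exact fun g hg => hcon g hg
  have h3 : hc x ∈ Ideal.span (P' : Set (MvPolynomial (Fin N) ℂ)) := by
    have h4 : hc x ∈ Ideal.span H := Ideal.subset_span ⟨x, hx, hxF, rfl⟩
    have h5 : Ideal.span H = Ideal.span (P' : Set (MvPolynomial (Fin N) ℂ)) := hspan
    rwa [h5] at h4
  exact hh x hx hxF (h2 h3)

private theorem g2_constr_zeros {N : ℕ} {σ : Type} (F : Set (MvPolynomial (Fin N) ℂ)) :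
    Constr {z : σ ⊕ Fin N → ℂ | ∀ f ∈ F, eval (fun i => z (Sum.inr i)) f = 0} :=
  (constr_zeroLocus F).comp Sum.inr

private theorem g2_constr_zero {N : ℕ} {σ : Type} :
    Constr {z : σ ⊕ Fin N → ℂ | ∀ i, z (Sum.inr i) = 0} := by
  have h := (constr_singleton (0 : Fin N → ℂ)).comp (Sum.inr : Fin N → σ ⊕ Fin N)
  have e : {x : σ ⊕ Fin N → ℂ | (fun j => x (Sum.inr j)) ∈ ({0} : Set (Fin N → ℂ))} =
      {z : σ ⊕ Fin N → ℂ | ∀ i, z (Sum.inr i) = 0} := by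
    ext z
    rw [Set.mem_ofPred_eq, Set.mem_singleton_iff, Set.mem_ofPred_eq, funext_iff]
    rfl
  rwa [e] at h

theorem cone_reg {χ : K0 →+* ℤ} (hχ : IsEulerCharF χ) {N d : ℕ} (hd : 0 < d)
    (F : Set (MvPolynomial (Fin N) ℂ)) (hF : ∀ f ∈ F, f.IsHomogeneous d)
    (hloc : ∀ c : Fin N → ℂ, c ≠ 0 → (∀ f ∈ F, eval c f = 0) → Good χ (Ideal.span F) c)
    (hpole : Near χ (Ideal.span F) 0 (expo (-(N : ℚ) / d))) : Reg χ (Ideal.span F) 0 1 := by
  classical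
  intro s₀ hs σ _ Γ hΓ _
  have hs' : ∀ c, ¬ Near χ (Ideal.span F) c (expo s₀) := fun c hn =>
    hs (near_scale hχ F (fun f hf => ⟨d, hF f hf⟩) c _ hn)
  have hex : ∀ c : Fin N → ℂ, ∃ h : MvPolynomial (Fin N) ℂ,
      c ≠ 0 → (∀ f ∈ F, eval c f = 0) → eval c h ≠ 0 ∧ Reg χ (Ideal.span F) c h := by
    intro c
    by_cases h : c ≠ 0 ∧ ∀ f ∈ F, eval c f = 0
    · obtain ⟨⟨g, hg, hr⟩, -⟩ := hloc c h.1 h.2
      exact ⟨g, fun _ _ => ⟨hg, hr⟩⟩
    · exact ⟨0, fun h1 h2 => absurd ⟨h1, h2⟩ h⟩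
  choose hc hhc using hex
  obtain ⟨S, hS1, hS2⟩ := g2_cover F hc fun c h1 h2 => (hhc c h1 h2).1
  -- base points different from the origin
  have main : ∀ (τ : Type) [Finite τ] (Γ' : Set (τ ⊕ Fin N → ℂ)), Constr Γ' →
      (∀ z ∈ Γ', ∃ i, z (Sum.inr i) ≠ 0) → Zf (Ideal.span F) Γ' ∈ polarRing s₀ := by
    intro τ _ Γ' hΓ' hne
    have hA := g2_constr_zeros (σ := τ) F
    have e : Γ' = (Γ' ∩ {z | ∀ f ∈ F, eval (fun i => z (Sum.inr i)) f = 0}) ∪
        (Γ' \ {z | ∀ f ∈ F, eval (fun i => z (Sum.inr i)) f = 0}) :=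
      (Set.inter_union_sdiff _ _).symm
    rw [e, Zf_union _ (hΓ'.inter hA) (hΓ'.diff hA) (Set.disjoint_sdiff_inter.symm)]
    refine Subring.add_mem _ ?_ ?_
    · refine cover_polar _ s₀ S ?_ _ (hΓ'.inter hA) ?_
      · intro h hh Γ'' hΓ'' hne''
        obtain ⟨c, hc1, hc2, rfl⟩ := hS1 h hh
        exact (hhc c hc1 hc2).2 s₀ (hs' c) τ Γ'' hΓ'' hne''
      · rintro z ⟨hz1, hz2⟩
        refine hS2 _ ?_ hz2
        obtain ⟨i, hi⟩ := hne z hz1
        exact fun h0 => hi (congrFun h0 i)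
    · rw [Zf_off _ (hΓ'.diff hA)]
      · exact C_mem_polar s₀ _
      · rintro z ⟨_, hz2⟩
        rw [Set.mem_ofPred_eq] at hz2
        push Not at hz2
        obtain ⟨f, hf, hf0⟩ := hz2
        exact ⟨f, Ideal.subset_span hf, hf0⟩
  -- the zeta function at the origin
  have hZ : Zmot (Ideal.span F) ∈ polarRing s₀ := by
    have hne : -((N : ℤ) : ℚ) / d ≠ s₀ := by
      rintro rfl
      exact hs (by simpa using hpole)
    refine mem_polar_of_mul s₀ (N : ℤ) d hd hne _ ?_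
    rw [cone_step hd F hF]
    refine Subring.mul_mem _ (Subring.mul_mem _ (C_mem_polar s₀ _) (X_pow_mem_polar s₀ d)) ?_
    refine main Empty _ ?_ fun z hz => hz
    have h := (g2_constr_zero (N := N) (σ := Empty)).compl
    have e : {z : Empty ⊕ Fin N → ℂ | ∀ i, z (Sum.inr i) = 0}ᶜ =
        {z : Empty ⊕ Fin N → ℂ | ∃ i, z (Sum.inr i) ≠ 0} := by
      ext z
      simp
    rwa [e] at h
  have hA := g2_constr_zero (N := N) (σ := σ)
  have e : Γ = (Γ ∩ {z | ∀ i, z (Sum.inr i) = 0}) ∪ (Γ \ {z | ∀ i, z (Sum.inr i) = 0}) :=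
    (Set.inter_union_sdiff _ _).symm
  rw [e, Zf_union _ (hΓ.inter hA) (hΓ.diff hA) (Set.disjoint_sdiff_inter.symm)]
  refine Subring.add_mem _ ?_ ?_
  · rw [Zf_zero _ (hΓ.inter hA) fun z hz => hz.2]
    exact Subring.mul_mem _ (C_mem_polar s₀ _) hZ
  · refine main σ _ (hΓ.diff hA) ?_
    rintro z ⟨_, hz⟩
    rw [Set.mem_ofPred_eq] at hz
    push Not at hz
    exact hz

end CN
end MotMono
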