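import Pool.Agent.Lib.MP_4e5fcd_ag.CN.P1
import Pool.Agent.Lib.MP_4e5fcd_ag.CN.P2

/-!
# CN-L0: ideals generated by products of linear forms: data

`lin_data`: as in the proof of `LF.set_main` (`LF/M3.lean`): finite subset `P''` of `P` without `0`
which generates the ideal, `J = Σ f : P'', Fin (n f)`, `G = P''`. `G` is not empty because the ideal
is not zero. `∃ i, W g i ≠ 0`: otherwise the generator is `U g`, which does not vanish at `0`.
-/

open MvPolynomial

namespace MotMono
namespace CN

/-- the generators `U_g ∏ i, ℓ_i ^ W g i` -/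
noncomputable def lg {J G : Type} [Fintype J] {N : ℕ} (lam : J → Fin N → ℂ) (W : G → J → ℕ)
    (U : G → MvPolynomial (Fin N) ℂ) (g : G) : MvPolynomial (Fin N) ℂ :=
  U g * ∏ i, linForm (lam i) ^ W g i

/-- the ideal -/
noncomputable def LI {J G : Type} [Fintype J] {N : ℕ} (lam : J → Fin N → ℂ) (W : G → J → ℕ)
    (U : G → MvPolynomial (Fin N) ℂ) : Ideal (MvPolynomial (Fin N) ℂ) :=
  Ideal.span (Set.range (lg lam W U))

open Classical in
/-- the exponents with index outside `K` are replaced by `0` -/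
noncomputable def res {J G : Type} (W : G → J → ℕ) (K : Set J) : G → J → ℕ :=
  fun g i => if i ∈ K then W g i else 0

/-- the forms which vanish at `p` -/
def van {J : Type} {N : ℕ} (lam : J → Fin N → ℂ) (p : Fin N → ℂ) : Set J :=
  {i | lam i ⬝ᵥ p = 0}

theorem eval_linForm {N : ℕ} (a p : Fin N → ℂ) : eval p (linForm a) = a ⬝ᵥ p := by
  simp [linForm, dotProduct]

theorem lin_data {N : ℕ} (P : Set (MvPolynomial (Fin N) ℂ)) (hP : ∀ f ∈ P, IsProdLin f)
    (h0 : ∃ f ∈ P, f ≠ 0) (h1 : ∀ f ∈ P, eval 0 f = 0) :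
    ∃ (J G : Type) (_ : Fintype J) (_ : Fintype G) (_ : Nonempty G) (lam : J → Fin N → ℂ)
      (W : G → J → ℕ) (U : G → MvPolynomial (Fin N) ℂ), (∀ i, lam i ≠ 0) ∧
      (∀ g, eval 0 (U g) ≠ 0) ∧ (∀ g, ∃ i, W g i ≠ 0) ∧ Ideal.span P = LI lam W U := by
  classical
  obtain ⟨P', hP', hspan⟩ := (Submodule.fg_span_iff_fg_span_finset_subset P).1
    (IsNoetherian.noetherian (Submodule.span (MvPolynomial (Fin N) ℂ) P))
  set P'' : Finset (MvPolynomial (Fin N) ℂ) := P'.filter fun f => f ≠ 0 with hP''
  have hspan' : Ideal.span P = Ideal.span (P'' : Set (MvPolynomial (Fin N) ℂ)) := by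
    have h1 : Ideal.span P = Ideal.span (P' : Set (MvPolynomial (Fin N) ℂ)) := hspan
    rw [h1]
    apply le_antisymm
    · rw [Ideal.span_le]
      intro f hf
      by_cases hf0 : f = 0
      · rw [hf0]; exact Submodule.zero_mem _
      · exact Ideal.subset_span (by
          rw [Finset.mem_coe, hP'', Finset.mem_filter]
          exact ⟨hf, hf0⟩)
    · apply Ideal.span_mono
      intro f hf
      rw [Finset.mem_coe, hP'', Finset.mem_filter] at hf
      exact hf.1
  have hmem : ∀ f : P'', IsProdLin (f : MvPolynomial (Fin N) ℂ) ∧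
      (f : MvPolynomial (Fin N) ℂ) ≠ 0 ∧ eval 0 (f : MvPolynomial (Fin N) ℂ) = 0 := by
    intro f
    have h2 := Finset.mem_filter.1 f.2
    exact ⟨hP _ (hP' h2.1), h2.2, h1 _ (hP' h2.1)⟩
  have hne : Nonempty P'' := by
    by_contra hne
    rw [not_nonempty_iff] at hne
    have h2 : P'' = ∅ := by
      by_contra h
      obtain ⟨f, hf1⟩ := Finset.nonempty_iff_ne_empty.2 h
      exact hne.false ⟨f, hf1⟩
    obtain ⟨f, hf, hf0⟩ := h0
    apply hf0
    have h3 : f ∈ Ideal.span P := Ideal.subset_span hf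
    rw [hspan', h2, Finset.coe_empty, Ideal.span_empty, Ideal.mem_bot] at h3
    exact h3
  choose U n a hU hf using fun f : P'' => (hmem f).1
  have hane : ∀ (f : P'') (j : Fin (n f)), a f j ≠ 0 := by
    intro f j h0
    apply (hmem f).2.1
    rw [hf f, Finset.prod_eq_zero (Finset.mem_univ j), mul_zero]
    rw [h0]
    simp
  have hprod : ∀ g : P'', U g * ∏ i : (Σ f : P'', Fin (n f)),
      linForm (a i.1 i.2) ^ (if i.1 = g then 1 else 0) = (g : MvPolynomial (Fin N) ℂ) := by
    intro g
    rw [Fintype.prod_sigma, Finset.prod_eq_single g]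
    · rw [hf g]
      congr 1
      refine Finset.prod_congr rfl fun j _ => ?_
      rw [if_pos rfl, pow_one]
      rfl
    · intro g' _ hg'
      refine Finset.prod_eq_one fun j _ => ?_
      rw [if_neg hg', pow_zero]
    · intro h
      exact absurd (Finset.mem_univ g) h
  refine ⟨Σ f : P'', Fin (n f), P'', inferInstance, inferInstance, hne, fun i => a i.1 i.2,
    fun g i => if i.1 = g then 1 else 0, U, fun i => hane i.1 i.2, hU, fun g => ?_, ?_⟩
  · by_contra hcon
    push Not at hcon
    have hn : IsEmpty (Fin (n g)) := by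
      constructor
      intro j
      have h2 := hcon ⟨g, j⟩
      simp at h2
    apply hU g
    have h2 := (hmem g).2.2
    rw [hf g, map_mul, Finset.univ_eq_empty, Finset.prod_empty, map_one, mul_one] at h2
    exact h2
  · rw [hspan']
    unfold LI
    congr 1
    ext f
    rw [Finset.mem_coe, Set.mem_range]
    constructor
    · intro hf1
      exact ⟨⟨f, hf1⟩, hprod ⟨f, hf1⟩⟩
    · rintro ⟨g, hg⟩
      rw [← hg]
      show U g * ∏ i : (Σ f : P'', Fin (n f)),
        linForm (a i.1 i.2) ^ (if i.1 = g then 1 else 0) ∈ P''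
      rw [hprod g]
      exact g.2

end CN
end MotMono
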