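import Pool.Agent.Lib.MP_4e5fcd_ag.CN.L0
import Pool.Agent.Lib.MP_4e5fcd_ag.CN.E3

/-!
# CN-L1: germs of ideals generated by products of linear forms

`locPull_van`: `u i = X i - C (p i)`, `e = id`, `h = ∏ g, (U g * ∏ i ∉ K, ℓ_i ^ W g i)`, `K = van lam p`;
`eval p h ≠ 0`. For `i ∈ K`, `aeval u ℓ_i = ℓ_i` (`lam i ⬝ᵥ p = 0`), so
`aeval u (lg lam (res W K) 1 g) = ∏ i ∈ K, ℓ_i ^ W g i`, and `lg lam W U g` is
`V_g` times it, where `V_g = U g * ∏ i ∉ K, ℓ_i ^ W g i` divides `h`. The conditions of `LocPull` are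
additive and stable under multiplication, so it is enough to check them for generators
(`Submodule.span_induction`).
`jacDet u = 1`.
`exOrd_van`: for a jet `γ` with base point `p`, `K = van lam p`, `eval p (U g) ≠ 0`:
`γ ∈ ExOrd (LI lam W U) k ↔ γ - p ∈ ExOrd (LI lam (res W K) 1) k` (`γ - p`: subtract `p` at the level
`0`). Either from the above with CN-E3 (`ordGe_chart`, `ne_chart`; `cj u γ = γ - p`), or directly:
`along (ℓ_i) γ = along (ℓ_i) (γ - p)` for `i ∈ K`, and `along V_g γ` has a non-zero constant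
coefficient.
-/

open MvPolynomial

namespace MotMono
namespace CN

/-- the translation -/
private noncomputable def l1_u {N : ℕ} (p : Fin N → ℂ) (i : Fin N) : MvPolynomial (Fin N) ℂ :=
  X i - C (p i)

open Classical in
/-- the part of a generator which does not vanish at `p` -/
private noncomputable def l1_V {J G : Type} [Fintype J] {N : ℕ} (lam : J → Fin N → ℂ)
    (W : G → J → ℕ) (U : G → MvPolynomial (Fin N) ℂ) (p : Fin N → ℂ) (g : G) :
    MvPolynomial (Fin N) ℂ :=
  U g * ∏ i, if i ∈ van lam p then 1 else linForm (lam i) ^ W g i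

private theorem l1_V_eval {J G : Type} [Fintype J] {N : ℕ} (lam : J → Fin N → ℂ)
    (W : G → J → ℕ) (U : G → MvPolynomial (Fin N) ℂ) (p : Fin N → ℂ) (g : G)
    (hU : eval p (U g) ≠ 0) : eval p (l1_V lam W U p g) ≠ 0 := by
  classical
  rw [l1_V, map_mul, map_prod]
  refine mul_ne_zero hU (Finset.prod_ne_zero_iff.mpr fun i _ => ?_)
  split_ifs with h
  · simp
  · rw [map_pow, eval_linForm]
    exact pow_ne_zero _ h

private theorem l1_aeval_linForm {N : ℕ} (a p : Fin N → ℂ) (h : a ⬝ᵥ p = 0) :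
    aeval (l1_u p) (linForm a) = linForm a := by
  rw [linForm, map_sum]
  have h1 : ∀ i, aeval (l1_u p) (C (a i) * X i : MvPolynomial (Fin N) ℂ) =
      C (a i) * X i - C (a i * p i) := by
    intro i
    rw [map_mul, aeval_X, l1_u, MvPolynomial.algHom_C, MvPolynomial.algebraMap_eq, mul_sub, C_mul]
  simp only [h1]
  rw [Finset.sum_sub_distrib, ← map_sum]
  have h2 : ∑ i, a i * p i = 0 := h
  rw [h2, C_0, sub_zero]

private theorem l1_gen {J G : Type} [Fintype J] {N : ℕ} (lam : J → Fin N → ℂ)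
    (W : G → J → ℕ) (U : G → MvPolynomial (Fin N) ℂ) (p : Fin N → ℂ) (g : G) :
    lg lam W U g = l1_V lam W U p g *
      aeval (l1_u p) (lg lam (res W (van lam p)) (fun _ => 1) g) := by
  classical
  have h1 : aeval (l1_u p) (lg lam (res W (van lam p)) (fun _ => 1) g) =
      ∏ i, linForm (lam i) ^ res W (van lam p) g i := by
    rw [lg, map_mul, map_one, one_mul, map_prod]
    refine Finset.prod_congr rfl fun i _ => ?_
    rw [map_pow]
    by_cases hi : i ∈ van lam p
    · rw [l1_aeval_linForm _ _ hi]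
    · rw [res, if_neg hi, pow_zero, pow_zero]
  rw [h1, lg, l1_V, mul_assoc, ← Finset.prod_mul_distrib]
  congr 1
  refine Finset.prod_congr rfl fun i _ => ?_
  rw [res]
  split_ifs with h
  · rw [one_mul]
  · rw [pow_zero, mul_one]

private theorem l1_chart {J G : Type} [Fintype J] [Fintype G] {N : ℕ} (lam : J → Fin N → ℂ)
    (W : G → J → ℕ) (U : G → MvPolynomial (Fin N) ℂ) (p : Fin N → ℂ) :
    Chart (LI lam W U) (LI lam (res W (van lam p)) fun _ => 1) (l1_u p) id
      (∏ g, l1_V lam W U p g) where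
  inj := Function.injective_id
  push := by
    classical
    intro f hf
    simp only [id]
    refine Submodule.span_induction ?_ ?_ ?_ ?_ hf
    · rintro _ ⟨g, rfl⟩
      rw [← Finset.mul_prod_erase _ _ (Finset.mem_univ g), mul_right_comm, ← l1_gen]
      exact Ideal.mul_mem_right _ _ (Ideal.subset_span ⟨g, rfl⟩)
    · rw [map_zero, mul_zero]
      exact Ideal.zero_mem _
    · intro x y _ _ hx hy
      rw [map_add, mul_add]
      exact Ideal.add_mem _ hx hy
    · intro a x _ hx
      rw [smul_eq_mul, map_mul, mul_left_comm]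
      exact Ideal.mul_mem_left _ _ hx
  pull := by
    intro f hf
    refine Ideal.mul_mem_left _ _ ?_
    refine Submodule.span_induction ?_ ?_ ?_ ?_ hf
    · rintro _ ⟨g, rfl⟩
      rw [l1_gen lam W U p g]
      exact Ideal.mul_mem_left _ _ (Ideal.subset_span ⟨_, Ideal.subset_span ⟨g, rfl⟩, rfl⟩)
    · exact Ideal.zero_mem _
    · intro x y _ _ hx hy
      exact Ideal.add_mem _ hx hy
    · intro a x _ hx
      exact Ideal.mul_mem_left _ _ hx

private theorem l1_h_eval {J G : Type} [Fintype J] [Fintype G] {N : ℕ} (lam : J → Fin N → ℂ)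
    (W : G → J → ℕ) (U : G → MvPolynomial (Fin N) ℂ) (p : Fin N → ℂ)
    (hU : ∀ g, eval p (U g) ≠ 0) : eval p (∏ g, l1_V lam W U p g) ≠ 0 := by
  rw [map_prod]
  exact Finset.prod_ne_zero_iff.mpr fun g _ => l1_V_eval lam W U p g (hU g)

theorem locPull_van {J G : Type} [Fintype J] [Fintype G] {N : ℕ} (lam : J → Fin N → ℂ)
    (W : G → J → ℕ) (U : G → MvPolynomial (Fin N) ℂ) (p : Fin N → ℂ)
    (hU : ∀ g, eval p (U g) ≠ 0) :
    LocPull (LI lam W U) p (LI lam (res W (van lam p)) fun _ => 1) := by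
  classical
  have c := l1_chart lam W U p
  refine ⟨l1_u p, id, ∏ g, l1_V lam W U p g, c.inj, l1_h_eval lam W U p hU, ?_, ?_, c.push, c.pull⟩
  · have h1 : jacDet (l1_u p) = 1 := by
      rw [jacDet]
      have h2 : (Matrix.of fun i j => pderiv j (l1_u p i)) =
          (1 : Matrix (Fin N) (Fin N) (MvPolynomial (Fin N) ℂ)) := by
        ext i j
        rw [Matrix.of_apply, l1_u, map_sub, pderiv_C, sub_zero, pderiv_X, Matrix.one_apply,
          Pi.single_apply]
      rw [h2, Matrix.det_one]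
    rw [h1, map_one]
    exact one_ne_zero
  · intro i
    simp [l1_u]

theorem exOrd_van {J G : Type} [Fintype J] [Fintype G] {N k : ℕ} (lam : J → Fin N → ℂ)
    (W : G → J → ℕ) (U : G → MvPolynomial (Fin N) ℂ) (γ : Fin N × Fin (k + 1) → ℂ)
    (hU : ∀ g, eval (bp γ) (U g) ≠ 0) :
    γ ∈ ExOrd (LI lam W U) k ↔
      (fun q : Fin N × Fin (k + 1) => if q.2 = 0 then 0 else γ q) ∈
        ExOrd (LI lam (res W (van lam (bp γ))) fun _ => 1) k := by
  have c := l1_chart lam W U (bp γ)
  have hp := l1_h_eval lam W U (bp γ) hU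
  have hcj : cj (fun i => l1_u (bp γ) (id i)) γ =
      (fun q : Fin N × Fin (k + 1) => if q.2 = 0 then 0 else γ q) := by
    ext q
    obtain ⟨i, l⟩ := q
    change (along (l1_u (bp γ) i) γ).coeff l = if l = 0 then 0 else γ (i, l)
    have h1 : along (l1_u (bp γ) i) γ = arc γ i - Polynomial.C (bp γ i) := by
      rw [along, l1_u, map_sub, aeval_X]
      congr 1
      exact MvPolynomial.aeval_C _ _
    rw [h1, Polynomial.coeff_sub, a1_arc_coeff, Polynomial.coeff_C, dif_pos l.2]
    by_cases hl : l = 0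
    · subst hl
      simp [bp]
    · have hl' : (l : ℕ) ≠ 0 := fun h => hl (Fin.ext h)
      rw [if_neg hl, if_neg hl', sub_zero]
  rw [← hcj]
  have h1 := ordGe_chart c γ hp (Nat.le_succ k)
  constructor
  · rintro ⟨h2, h3⟩
    exact ⟨h1.mp h2, (ne_chart c γ hp h2).mp h3⟩
  · rintro ⟨h2, h3⟩
    have h4 := h1.mpr h2
    exact ⟨h4, (ne_chart c γ hp h4).mpr h3⟩

end CN
end MotMono
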