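import Pool.Agent.Lib.MP_4e5fcd_ag.CN.L1
import Pool.Agent.Lib.MP_4e5fcd_ag.CN.P3

/-!
# CN-L2: the zeta function of a stratum

`fam I Γ k` is isomorphic to `prodSet Γ (ordLocus (LI lam (res W K) 1) k)` by
`(w, γ) ↦ ((w, bp γ), γ - bp γ)` (`exOrd_van`, CN-L1); the inverse adds the base point at the level `0`.
All coordinates are coordinates, or `0`. Then `cls_prodSet` and the definitions of `Zf`, `Zmot`.
-/

open MvPolynomial

namespace MotMono
namespace CN

private theorem L2_mem {N k : ℕ} (J : Ideal (MvPolynomial (Fin N) ℂ))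
    (δ : Fin N × Fin (k + 1) → ℂ) (h0 : ∀ i, δ (i, 0) = 0) :
    δ ∈ ordLocus J k ↔ δ ∈ ExOrd J k := by
  constructor
  · rintro ⟨_, h1, h2⟩
    exact ⟨h1, h2⟩
  · rintro ⟨h1, h2⟩
    exact ⟨h0, h1, h2⟩

private theorem L2_iso {J G : Type} [Fintype J] [Fintype G] {N : ℕ} {σ : Type} [Finite σ]
    (lam : J → Fin N → ℂ) (W : G → J → ℕ) (U : G → MvPolynomial (Fin N) ℂ) (K : Set J)
    {Γ : Set (σ ⊕ Fin N → ℂ)}
    (hU : ∀ z ∈ Γ, ∀ g, eval (fun i => z (Sum.inr i)) (U g) ≠ 0)
    (hK : ∀ z ∈ Γ, van lam (fun i => z (Sum.inr i)) = K) (k : ℕ) :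
    RegIso (fam (LI lam W U) Γ k) (prodSet Γ (ordLocus (LI lam (res W K) fun _ => 1) k)) := by
  have key : ∀ (w : σ → ℂ) (γ : Fin N × Fin (k + 1) → ℂ), Sum.elim w (bp γ) ∈ Γ →
      (γ ∈ ExOrd (LI lam W U) k ↔
        (fun q : Fin N × Fin (k + 1) => if q.2 = 0 then 0 else γ q) ∈
          ordLocus (LI lam (res W K) fun _ => 1) k) := by
    intro w γ hw
    have h1 : ∀ g, eval (bp γ) (U g) ≠ 0 := fun g => hU _ hw g
    have h2 : van lam (bp γ) = K := hK _ hw
    rw [exOrd_van lam W U γ h1, h2, L2_mem _ _ (fun i => by simp)]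
  refine ⟨fun z => Sum.elim (Sum.elim (fun s => z (Sum.inl s)) (fun i => z (Sum.inr (i, 0))))
      (fun q : Fin N × Fin (k + 1) => if q.2 = 0 then 0 else z (Sum.inr q)),
    fun y => Sum.elim (fun s => y (Sum.inl (Sum.inl s)))
      (fun q : Fin N × Fin (k + 1) => if q.2 = 0 then y (Sum.inl (Sum.inr q.1))
        else y (Sum.inr q)), ?_, ?_, ?_, ?_, ?_, ?_⟩
  · rintro ((s | i) | q)
    · exact regFun_coord _ _
    · exact regFun_coord _ _
    · by_cases hq : q.2 = 0
      · simp only [Sum.elim_inr, hq, if_true]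
        exact regFun_const _ _
      · simp only [Sum.elim_inr, hq, if_false]
        exact regFun_coord _ _
  · rintro (s | q)
    · exact regFun_coord _ _
    · by_cases hq : q.2 = 0
      · simp only [Sum.elim_inr, hq, if_true]
        exact regFun_coord _ _
      · simp only [Sum.elim_inr, hq, if_false]
        exact regFun_coord _ _
  · rintro z ⟨h1, h2⟩
    refine ⟨?_, ?_⟩
    · have e : (fun i => Sum.elim (Sum.elim (fun s => z (Sum.inl s)) (fun i => z (Sum.inr (i, 0))))
          (fun q : Fin N × Fin (k + 1) => if q.2 = 0 then 0 else z (Sum.inr q)) (Sum.inl i)) =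
          Sum.elim (fun s => z (Sum.inl s)) (fun i => z (Sum.inr (i, 0))) := by
        funext i; rfl
      rw [e]
      exact h1
    · exact (key (fun s => z (Sum.inl s)) (fun q => z (Sum.inr q)) h1).mp h2
  · rintro y ⟨h1, h2⟩
    have hw : Sum.elim (fun s => y (Sum.inl (Sum.inl s))) (fun i => y (Sum.inl (Sum.inr i))) ∈ Γ := by
      have e : (Sum.elim (fun s => y (Sum.inl (Sum.inl s))) (fun i => y (Sum.inl (Sum.inr i)))) =
          fun i => y (Sum.inl i) := by
        funext i
        rcases i with s | i <;> rfl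
      rw [e]
      exact h1
    refine ⟨?_, ?_⟩
    · exact hw
    · refine (key (fun s => y (Sum.inl (Sum.inl s))) (fun q : Fin N × Fin (k + 1) =>
        if q.2 = 0 then y (Sum.inl (Sum.inr q.1)) else y (Sum.inr q)) ?_).mpr ?_
      · exact hw
      · have e : (fun q : Fin N × Fin (k + 1) => if q.2 = 0 then (0 : ℂ) else
            if q.2 = 0 then y (Sum.inl (Sum.inr q.1)) else y (Sum.inr q)) =
            fun q => y (Sum.inr q) := by
          funext q
          by_cases hq : q.2 = 0
          · have h3 := h2.1 q.1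
            obtain ⟨i, l⟩ := q
            simp only at hq
            subst hq
            simp only [if_true]
            exact h3.symm
          · simp only [hq, if_false]
        rw [e]
        exact h2
  · rintro z ⟨h1, h2⟩
    funext i
    rcases i with s | q
    · rfl
    · by_cases hq : q.2 = 0
      · obtain ⟨i, l⟩ := q
        simp only at hq
        subst hq
        simp
      · simp [hq]
  · rintro y ⟨h1, h2⟩
    funext i
    rcases i with (s | i) | q
    · rfl
    · simp
    · by_cases hq : q.2 = 0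
      · have h3 := h2.1 q.1
        obtain ⟨i, l⟩ := q
        simp only at hq
        subst hq
        simp only [Sum.elim_inr, if_true]
        exact h3.symm
      · simp [hq]

theorem Zf_van {J G : Type} [Fintype J] [Fintype G] {N : ℕ} {σ : Type} [Finite σ]
    (lam : J → Fin N → ℂ) (W : G → J → ℕ) (U : G → MvPolynomial (Fin N) ℂ) (K : Set J)
    {Γ : Set (σ ⊕ Fin N → ℂ)} (hΓ : Constr Γ)
    (hU : ∀ z ∈ Γ, ∀ g, eval (fun i => z (Sum.inr i)) (U g) ≠ 0)
    (hK : ∀ z ∈ Γ, van lam (fun i => z (Sum.inr i)) = K) :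
    Zf (LI lam W U) Γ =
      PowerSeries.C (algebraMap K0 MC (cls Γ)) * Zmot (LI lam (res W K) fun _ => 1) := by
  ext k
  rw [PowerSeries.coeff_C_mul, Zf, Zmot, PowerSeries.coeff_mk, PowerSeries.coeff_mk, ← mul_assoc,
    ← map_mul, ← cls_prodSet hΓ (constr_ordLocus _ _)]
  rw [cls_iso (constr_fam _ hΓ k) (hΓ.prodSet (constr_ordLocus _ _)) (L2_iso lam W U K hU hK k)]

end CN
end MotMono
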