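import Pool.Agent.Lib.MP_4e5fcd_ag.LF.M3
import Pool.Agent.Lib.MP_4e5fcd_ag.CN.L2
import Pool.Agent.Lib.MP_4e5fcd_ag.CN.V1
import Pool.Agent.Lib.MP_4e5fcd_ag.CN.V4
import Pool.Agent.Lib.MP_4e5fcd_ag.CN.P4

/-!
# CN-L3: products of linear forms: the zeta functions of families

`h = ∏ g, U g`. Let `lam` be not near `0` and `Γ ⊆ {h ≠ 0}`. `Γ` is the disjoint union of the
`Γ_K = {z ∈ Γ | van lam (base point) = K}`, `K : Set J` (finitely many, constructible), so by
`Zf_union` (finite induction over `Set J`, `Finset.univ`) and `Zf_van` it is enough to show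
`Zmot (LI lam (res W K) 1) ∈ polarRing s₀` whenever `Γ_K` is not empty. Let `p` be a base point of
`Γ_K`. If it is not in the ring: `LF.glob_main` (or `LF.set_main`) and `vis_of_cone` (CN-V1) show
that `expo s₀` is near `0` for `LI lam (res W K) 1`. For small `s ≠ 0` the point `s p` has
`van lam (s p) = K` and `eval (s p) (U g) ≠ 0` (continuity at `0`), so by `locPull_van` (CN-L1) and
`near_of_locPull` (CN-V4) `expo s₀` is near `s p` for `LI lam W U`, hence near `0`
(`s → 0`): contradiction. (`expo` is the exponential of the statement of `LF.glob_main`.)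
-/

open MvPolynomial

namespace MotMono
namespace CN

/-- for small `s ≠ 0` the units do not vanish at `s p`, and `s p` is small -/
private theorem l3_small {G : Type} [Fintype G] {N : ℕ} (U : G → MvPolynomial (Fin N) ℂ)
    (hU : ∀ g, eval 0 (U g) ≠ 0) (p : Fin N → ℂ) (ε : ℝ) (hε : 0 < ε) :
    ∃ s : ℂ, s ≠ 0 ∧ ‖s • p‖ < ε ∧ ∀ g, eval (s • p) (U g) ≠ 0 := by
  have hcont : Continuous fun s : ℂ => s • p := continuous_id.smul continuous_const
  have h1 : ∀ᶠ s in nhds (0 : ℂ), ‖s • p‖ < ε := by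
    have h := hcont.norm.tendsto (0 : ℂ)
    simp only [zero_smul, norm_zero] at h
    exact h.eventually (gt_mem_nhds hε)
  have h2 : ∀ᶠ s in nhds (0 : ℂ), ∀ g, eval (s • p) (U g) ≠ 0 := by
    rw [Filter.eventually_all]
    intro g
    have hc : Continuous fun s : ℂ => eval (s • p) (U g) :=
      (MvPolynomial.continuous_eval (U g)).comp hcont
    refine hc.continuousAt.eventually_ne ?_
    rw [zero_smul]
    exact hU g
  have h3 : ∀ᶠ s in nhdsWithin (0 : ℂ) {0}ᶜ, ‖s • p‖ < ε ∧ ∀ g, eval (s • p) (U g) ≠ 0 :=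
    (h1.and h2).filter_mono nhdsWithin_le_nhds
  obtain ⟨s, hs, hs0⟩ := (h3.and self_mem_nhdsWithin).exists
  exact ⟨s, hs0, hs.1, hs.2⟩

private theorem l3_van_smul {J : Type} {N : ℕ} (lam : J → Fin N → ℂ) (p : Fin N → ℂ) (s : ℂ)
    (hs : s ≠ 0) : van lam (s • p) = van lam p := by
  ext i
  unfold van
  rw [Set.mem_ofPred_eq, Set.mem_ofPred_eq, dotProduct_smul, smul_eq_mul, mul_eq_zero]
  exact ⟨fun h => h.resolve_left hs, fun h => Or.inr h⟩

theorem near_of_van {J G : Type} [Fintype J] [Fintype G] {N : ℕ} {χ : K0 →+* ℤ}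
    (hχ : IsEulerCharF χ) (lam : J → Fin N → ℂ) (W : G → J → ℕ)
    (U : G → MvPolynomial (Fin N) ℂ) (hU : ∀ g, eval 0 (U g) ≠ 0) (p : Fin N → ℂ) (mu : ℂ)
    (h : Near χ (LI lam (res W (van lam p)) fun _ => 1) 0 mu) : Near χ (LI lam W U) 0 mu := by
  intro ε hε
  obtain ⟨s, hs, hs1, hs2⟩ := l3_small U hU p (ε / 2) (by positivity)
  have h1 := locPull_van lam W U (s • p) hs2
  rw [l3_van_smul lam p s hs] at h1
  obtain ⟨p', hp', hv⟩ := near_of_locPull hχ _ _ _ h1 mu h (ε / 2) (by positivity)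
  refine ⟨p', ?_, hv⟩
  have h2 : p' - 0 = (p' - s • p) + s • p := by abel
  rw [h2]
  calc ‖p' - s • p + s • p‖ ≤ ‖p' - s • p‖ + ‖s • p‖ := norm_add_le _ _
    _ < ε / 2 + ε / 2 := add_lt_add hp' hs1
    _ = ε := by ring

private theorem l3_constr {J : Type} [Fintype J] {N : ℕ} {σ : Type} (lam : J → Fin N → ℂ)
    (K : Set J) : Constr {z : σ ⊕ Fin N → ℂ | van lam (fun i => z (Sum.inr i)) = K} := by
  classical
  have e : {z : σ ⊕ Fin N → ℂ | van lam (fun i => z (Sum.inr i)) = K} =
      ⋂ i : J, {z : σ ⊕ Fin N → ℂ | (fun j => z (Sum.inr j)) ∈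
        (if i ∈ K then {x | eval x (linForm (lam i)) = 0} else {x | eval x (linForm (lam i)) ≠ 0} :
          Set (Fin N → ℂ))} := by
    ext z
    rw [Set.mem_ofPred_eq, Set.mem_iInter, Set.ext_iff]
    refine forall_congr' fun i => ?_
    unfold van
    by_cases hi : i ∈ K
    · simp only [hi, if_true, Set.mem_ofPred_eq, eval_linForm, iff_true]
    · simp only [hi, if_false, Set.mem_ofPred_eq, eval_linForm, iff_false, ne_eq]
  rw [e]
  refine constr_iInter fun i => ?_
  refine Constr.comp ?_ Sum.inr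
  by_cases hi : i ∈ K
  · rw [if_pos hi]
    exact Constr.zeroSet _
  · rw [if_neg hi]
    exact constr_ne _

theorem lin_reg {J G : Type} [Fintype J] [Fintype G] [Nonempty G] {N : ℕ} {χ : K0 →+* ℤ}
    (hχ : IsEulerCharF χ) (lam : J → Fin N → ℂ) (hlam : ∀ i, lam i ≠ 0) (W : G → J → ℕ)
    (U : G → MvPolynomial (Fin N) ℂ) (hU : ∀ g, eval 0 (U g) ≠ 0) :
    Reg χ (LI lam W U) 0 (∏ g, U g) := by
  classical
  intro s₀ hs σ _ Γ hΓ hne
  have hU' : ∀ z ∈ Γ, ∀ g, eval (fun i => z (Sum.inr i)) (U g) ≠ 0 := by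
    intro z hz g
    have h1 := hne z hz
    rw [map_prod, Finset.prod_ne_zero_iff] at h1
    exact h1 g (Finset.mem_univ g)
  -- one stratum
  have hstr : ∀ K : Set J, Zf (LI lam W U)
      (Γ ∩ {z | van lam (fun i => z (Sum.inr i)) = K}) ∈ polarRing s₀ := by
    intro K
    rw [Zf_van lam W U K (hΓ.inter (l3_constr lam K)) (fun z hz => hU' z hz.1) fun z hz => hz.2]
    rcases Set.eq_empty_or_nonempty (Γ ∩ {z | van lam (fun i => z (Sum.inr i)) = K}) with h | h
    · rw [h, cls_empty, map_zero, map_zero, zero_mul]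
      exact Subring.zero_mem _
    · obtain ⟨z, hz, hzK⟩ := h
      refine Subring.mul_mem _ (C_mem_polar s₀ _) ?_
      by_contra hcon
      apply hs
      rw [Set.mem_ofPred_eq] at hzK
      subst hzK
      refine near_of_van hχ lam W U hU (fun i => z (Sum.inr i)) _ ?_
      intro ε hε
      obtain ⟨p, hp, -, y, hy, Z, hZ, hZP⟩ := LF.glob_main lam hlam
        (res W (van lam fun i => z (Sum.inr i))) (fun _ => 1) (fun g => by simp) _ rfl s₀ hcon hχ
        ε hε
      exact ⟨p, by rwa [sub_zero], vis_of_cone y hy Z hZ hZP⟩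
  -- finite union of strata
  have hfin : ∀ T : Finset (Set J), Zf (LI lam W U)
      (Γ ∩ {z | van lam (fun i => z (Sum.inr i)) ∈ T}) ∈ polarRing s₀ := by
    intro T
    induction T using Finset.induction_on with
    | empty =>
      have e : Γ ∩ {z : σ ⊕ Fin N → ℂ | van lam (fun i => z (Sum.inr i)) ∈
          (∅ : Finset (Set J))} = ∅ := by
        ext z
        simp
      rw [e, Zf_empty]
      exact Subring.zero_mem _
    | insert K T hK ih =>
      have e : Γ ∩ {z : σ ⊕ Fin N → ℂ | van lam (fun i => z (Sum.inr i)) ∈ insert K T} =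
          (Γ ∩ {z | van lam (fun i => z (Sum.inr i)) = K}) ∪
          (Γ ∩ {z | van lam (fun i => z (Sum.inr i)) ∈ T}) := by
        ext z
        simp only [Set.mem_inter_iff, Set.mem_union, Set.mem_ofPred_eq, Finset.mem_insert]
        tauto
      have hT : Constr {z : σ ⊕ Fin N → ℂ | van lam (fun i => z (Sum.inr i)) ∈ T} := by
        have e2 : {z : σ ⊕ Fin N → ℂ | van lam (fun i => z (Sum.inr i)) ∈ T} =
            ⋃ K ∈ T, {z | van lam (fun i => z (Sum.inr i)) = K} := by
          ext z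
          simp
        rw [e2]
        exact constr_biUnion T fun K _ => l3_constr lam K
      rw [e, Zf_union _ (hΓ.inter (l3_constr lam K)) (hΓ.inter hT)]
      · exact Subring.add_mem _ (hstr K) ih
      · rw [Set.disjoint_left]
        rintro z ⟨_, h1⟩ ⟨_, h2⟩
        rw [Set.mem_ofPred_eq] at h1 h2
        rw [h1] at h2
        exact hK h2
  have h := hfin Finset.univ
  have e : Γ ∩ {z : σ ⊕ Fin N → ℂ | van lam (fun i => z (Sum.inr i)) ∈
      (Finset.univ : Finset (Set J))} = Γ := by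
    ext z
    simp
  rwa [e] at h

end CN
end MotMono
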