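import Pool.Agent.Lib.MP_4e5fcd_ag.CN.L5
import Pool.Agent.Lib.MP_4e5fcd_ag.CN.G1
import Pool.Agent.Lib.MP_4e5fcd_ag.CN.G2
import Pool.Agent.Lib.MP_4e5fcd_ag.CN.G3
import Pool.Agent.Lib.MP_4e5fcd_ag.CN.V1

/-!
# CN-M1: the theorem

`good_of_tame`: induction on `Tame`. `lin`: `good_lin`. `pull`: `good_of_locPull`. `cone`: the
induction hypothesis and `locPull_germ`, `good_of_locPull` give `Good χ (span F) c`; `cone_reg`
(with `h = 1`) and `cone_near_one`; `hpole` for `cone_reg`: `d ∣ N`: `expo (-N/d) = 1`;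
`VisDeg … e`, `d ∣ e N`: `expo (-N/d) ^ e = 1`, `near_of_visDeg`.
`tame_main`: `Zmot I = Zf I {0}` (`Zf_zero` with `cls = 1`); if `expo s₀` were not near `0`, it would be
in `polarRing s₀`. Then `cone_of_vis`.
-/

open MvPolynomial

namespace MotMono
namespace CN

private theorem m1_expo_pow (N d e : ℕ) (hd : 0 < d) (h : d ∣ e * N) :
    expo (-(N : ℚ) / d) ^ e = 1 := by
  obtain ⟨m, hm⟩ := h
  rw [expo, ← Complex.exp_nat_mul]
  have hd' : (d : ℂ) ≠ 0 := by exact_mod_cast hd.ne'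
  have hm' : (e : ℂ) * N = d * m := by exact_mod_cast hm
  have e1 : (e : ℂ) * (2 * Real.pi * Complex.I * (((-(N : ℚ) / d : ℚ)) : ℂ)) =
      ((-m : ℤ) : ℂ) * (2 * Real.pi * Complex.I) := by
    push_cast
    field_simp
    linear_combination (-1 : ℂ) * hm'
  rw [e1, Complex.exp_int_mul_two_pi_mul_I]

theorem good_of_tame {χ : K0 →+* ℤ} (hχ : IsEulerCharF χ) {N : ℕ}
    (I : Ideal (MvPolynomial (Fin N) ℂ)) (h : Tame χ I) : Good χ I 0 := by
  induction h with
  | lin P hP h0 h1 => exact good_lin hχ P hP h0 h1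
  | pull I G h hG ih => exact good_of_locPull hχ I 0 G h ih
  | @cone N F d hd hF h0 hloc hpole ih =>
    have hloc' : ∀ c : Fin N → ℂ, c ≠ 0 → (∀ f ∈ F, eval c f = 0) → Good χ (Ideal.span F) c :=
      fun c hc hcF => good_of_locPull hχ _ c _ (locPull_germ _ c) (ih c hc hcF)
    have h1 := cone_near_one hχ hd F hF h0 hloc'
    refine ⟨⟨1, by simp, cone_reg hχ hd F hF hloc' ?_⟩, h1⟩
    rcases hpole with hdN | ⟨e, he, hde⟩
    · have h2 := m1_expo_pow N d 1 hd (by simpa using hdN)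
      rw [pow_one] at h2
      rw [h2]
      exact h1
    · exact near_of_visDeg hχ _ e he _ (m1_expo_pow N d e hd hde)

theorem tame_main {χ : K0 →+* ℤ} (hχ : IsEulerCharF χ) {N : ℕ}
    (I : Ideal (MvPolynomial (Fin N) ℂ)) (h : Tame χ I) (s₀ : ℚ)
    (hpole : IsPole (Zmot I) s₀) (ε : ℝ) (hε : 0 < ε) :
    ∃ p : Fin N → ℂ, ‖p‖ < ε ∧ (∀ f ∈ I, eval p f = 0) ∧
      ∃ y : ConePoint I p, y.Nonzero ∧
        ∃ Z, IsZeta (fun d => χ (cls (contactArcs I p y d))) Z ∧
          ZeroOrPole Z (Complex.exp (2 * Real.pi * Complex.I * s₀)) := by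
  obtain ⟨⟨g, hg, hreg⟩, -⟩ := good_of_tame hχ I h
  have hn : Near χ I 0 (expo s₀) := by
    by_contra hn
    apply hpole
    have h1 := hreg s₀ hn Empty ({0} : Set (Empty ⊕ Fin N → ℂ)) (constr_singleton 0) (by
      intro z hz
      rw [Set.mem_singleton_iff] at hz
      subst hz
      exact hg)
    rw [Zf_zero I (constr_singleton 0) (by
      intro z hz i
      rw [Set.mem_singleton_iff] at hz
      subst hz
      rfl), cls_singleton, map_one, map_one, one_mul] at h1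
    exact h1
  obtain ⟨p, hp, hv⟩ := hn ε hε
  rw [sub_zero] at hp
  obtain ⟨h1, y, hy, Z, hZ, hZP⟩ := cone_of_vis hv
  exact ⟨p, hp, h1, y, hy, Z, hZ, hZP⟩

end CN
end MotMono
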