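import Pool.Agent.Lib.MP_4e5fcd_ag.CN.E5

/-!
# CN-V2: visible values in a chart

Let `n, δ₀, …` be the data of `Vis χ G q lam`, `q = u_e (p)`. Let `δ' (e i, l) = δ₀ (i, l)`,
`δ' (i, l) = 0` for `i` not in the range of `e`, and `γ₀ = Ψ (p, δ')` (`exists_lift`, CN-E2). Then
`bp γ₀ = p`, `cj (u ∘ e) γ₀ = δ₀` (level `0`: `bp_cj`). Now `ordGe_chart`, `ne_chart` (CN-E3), and
the Lefschetz numbers agree by `chi_CA_chart` (CN-E5).
-/

open MvPolynomial

namespace MotMono
namespace CN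

theorem vis_chart {N k : ℕ} {I : Ideal (MvPolynomial (Fin N) ℂ)}
    {G : Ideal (MvPolynomial (Fin k) ℂ)} {u : Fin N → MvPolynomial (Fin N) ℂ}
    {e : Fin k → Fin N} {h : MvPolynomial (Fin N) ℂ} {χ : K0 →+* ℤ} (hχ : IsEulerCharF χ)
    (c : Chart I G u e h) (p : Fin N → ℂ) (hp : eval p h ≠ 0) (hj : eval p (jacDet u) ≠ 0)
    (lam : ℂ) (hv : Vis χ G (fun i => eval p (u (e i))) lam) : Vis χ I p lam := by
  classical
  obtain ⟨n, δ, hn, hb, ho, hne, Z, hZ, hZP⟩ := hv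
  obtain ⟨Ψ, -, hΨ, -⟩ := exists_lift u n
  set z : Fin N ⊕ (Fin N × Fin (n + 1)) → ℂ :=
    Sum.elim p (fun q => if h : ∃ i, e i = q.1 then δ (h.choose, q.2) else 0) with hz
  obtain ⟨h1, h2⟩ := hΨ z hj
  have hbp : bp (Ψ z) = p := funext fun i => h1 i
  have hcj : cj (fun i => u (e i)) (Ψ z) = δ := by
    funext q
    obtain ⟨i, l⟩ := q
    by_cases hl : l = 0
    · subst hl
      have h3 := congrFun (bp_cj (fun i => u (e i)) (Ψ z)) i
      have h4 := congrFun hb i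
      unfold bp at h3 h4
      rw [h3, h4]
      show eval (bp (Ψ z)) (u (e i)) = eval p (u (e i))
      rw [hbp]
    · have h3 := h2 (e i) l hl
      have h4 : ∃ j, e j = e i := ⟨i, rfl⟩
      have h5 : h4.choose = i := c.inj h4.choose_spec
      have h6 : z (Sum.inr (e i, l)) = δ (i, l) := by
        show (if h : ∃ j, e j = e i then δ (h.choose, l) else 0) = δ (i, l)
        rw [dif_pos h4, h5]
      rw [← h6, ← h3]
      rfl
  have hp' : eval (bp (Ψ z)) h ≠ 0 := by rw [hbp]; exact hp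
  have hj' : eval (bp (Ψ z)) (jacDet u) ≠ 0 := by rw [hbp]; exact hj
  have ho' : OrdGe I n (Ψ z) := by
    rw [ordGe_chart c (Ψ z) hp' (Nat.le_succ n), hcj]
    exact ho
  refine ⟨n, Ψ z, hn, hbp, ho', ?_, Z, ?_, hZP⟩
  · rw [ne_chart c (Ψ z) hp' ho', hcj]
    exact hne
  · have hfun : (fun d => χ (cls (CA I p (fun f => (along f (Ψ z)).coeff n) d))) =
        fun d => χ (cls (CA G (fun i => eval p (u (e i))) (fun f => (along f δ).coeff n) d)) := by
      funext d
      have h3 := chi_CA_chart hχ c (Ψ z) hp' hj' ho' d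
      rw [hcj, hb, hbp] at h3
      exact h3
    rw [hfun]
    exact hZ

end CN
end MotMono
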